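import Mathlib

/-!
Definitions for the proof that infinitely many primes are not Wieferich
(to base `2`).  See `Iface.lean` for the plan.
-/

namespace Run7.h257

noncomputable section

open PowerSeries

/-- The hypothesis to be refuted: all primes above `P₀` are Wieferich primes. -/
def Wief (P₀ : ℕ) : Prop := ∀ p : ℕ, p.Prime → P₀ < p → p ^ 2 ∣ 2 ^ (p - 1) - 1

/-- Coefficients of `log (1 + X)`: `lc 0 = 0`, `lc n = (-1)^(n+1)/n`. -/
def lc (n : ℕ) : ℚ := (-1) ^ (n + 1) / n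

/-- `g_k = H_k / (2k+1)`. -/
def gk (k : ℕ) : ℚ := harmonic k / (2 * k + 1)

/-- Coefficients (in `v`) of `G = ∑ g_k u^k`, `u = v/(1+v)`. -/
def gam : ℕ → ℚ
  | 0 => 0
  | (m + 1) => ∑ k ∈ Finset.range (m + 1), (-1) ^ (m - k) * (m.choose k) * gk (k + 1)

/-- The three power series `1, log(1+X), G`. -/
def fs (i : ℕ) : ℚ⟦X⟧ := if i = 0 then 1 else if i = 1 then PowerSeries.mk lc else PowerSeries.mk gam

/-- type of the row `r` (`0`: `r < 12M`, `1`: `12M ≤ r < 22M`, `2`: `22 M ≤ r`). -/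
def ty (M r : ℕ) : ℕ := if r < 12 * M then 0 else if r < 22 * M then 1 else 2

/-- exponent `j` of `(1+X)^j` in the row `r`. -/
def dg (M r : ℕ) : ℕ := if r < 12 * M then r else if r < 22 * M then r - 12 * M else r - 22 * M

/-- the `r`-th row, `(1+X)^j f_i`. -/
def row (M r : ℕ) : ℚ⟦X⟧ := (1 + X) ^ (dg M r) * fs (ty M r)

/-- the matrix with rows `row M r` and columns the coefficients of index `n t`. -/
def mat (M : ℕ) (n : Fin (30 * M) → ℕ) : Matrix (Fin (30 * M)) (Fin (30 * M)) ℚ :=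
  Matrix.of fun r t => PowerSeries.coeff (n t) (row M r)

/-- the extra pole of the `G`-coefficients at odd `p`. -/
def dd (P₀ p n : ℕ) : ℕ := if p ≤ P₀ ∨ 3 * p ≤ 2 * n + 1 then Nat.log p (2 * n + 1) else 0

/-- `2`-adic side: `G = B * ℓ + R` with `B = ∑ bet k X^k`, `R = ∑ rr k X^k`. -/
def bet : ℕ → ℚ
  | 0 => 1
  | 1 => 1 / 3
  | (k + 2) => -2 * (k + 1) * bet (k + 1) / (2 * k + 5)

def rr (k : ℕ) : ℚ := if k = 0 then 0 else bet k * (harmonic (k - 1) - 2)

/-- loss in the `2`-adic valuations of `bet` and `rr`. -/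
def cc (k : ℕ) : ℕ := 2 * Nat.log 2 (k + 1) + 4

/-! Analytic side. -/

/-- the angle `3π/8`. -/
def al : ℝ := 3 * Real.pi / 8

/-- the conformal map `h₁` of the unit disc to the strip `0 < Re < 6`. -/
def h1 (s : ℂ) : ℂ :=
  9 / 4 + 6 / (Real.pi * Complex.I) *
    (Complex.log (1 - s * Complex.exp (-(al * Complex.I))) -
      Complex.log (1 - s * Complex.exp (al * Complex.I)))

/-- `h(s) = h₁(s) - h₁(-s)`. -/
def hh (s : ℂ) : ℂ := h1 s - h1 (-s)

/-- `h'(0) = 24 sin(3π/8)/π = exp Λ`. -/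
def eL : ℝ := 24 * Real.sin al / Real.pi

/-- exponents of the weights of the rows. -/
def wt (M r : ℕ) : ℝ := min (dg M r : ℝ) (min (4 * M : ℝ) (10 * M - dg M r))

/-- weights of the rows. -/
def Bw (M r : ℕ) : ℝ := Real.exp (6 * wt M r)

end

end Run7.h257
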