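import Mathlib
import Pool.Agent.Run7.h257.Defs

namespace Run7.h257

noncomputable section

/-- the analytic function `G(v) = ∑ gam n v^n` near `0`. -/
def Gan (v : ℂ) : ℂ := ∑' n : ℕ, (gam n : ℂ) * v ^ n

end

end Run7.h257
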