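import Mathlib
import Pool.Agent.Run7.h257.Defs
import Pool.Agent.Run7.h257.GanDef

/-! The analytic function `Gan` near `0` (for pieces L and MM). -/

namespace Run7.h257

noncomputable section

open PowerSeries Filter Topology Metric

/-- the termwise derivative of `Gan`. -/
def Gan' (v : ℂ) : ℂ := ∑' n : ℕ, (gam n : ℂ) * (n * v ^ (n - 1))

theorem gam_norm_le (habs : ∀ n, |gam n| ≤ 1) (n : ℕ) : ‖(gam n : ℂ)‖ ≤ 1 := by
  have h1 : ‖(gam n : ℂ)‖ = ((|gam n| : ℚ) : ℝ) := by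
    rw [show ((gam n : ℚ) : ℂ) = (((gam n : ℚ) : ℝ) : ℂ) by norm_cast, Complex.norm_real,
      Real.norm_eq_abs]
    norm_cast
  rw [h1]
  exact_mod_cast habs n

theorem summable_nat_geo {r : ℝ} (h0 : 0 ≤ r) (h1 : r < 1) :
    Summable (fun n : ℕ => (n : ℝ) * r ^ (n - 1)) := by
  have h2 : Summable (fun n : ℕ => ((n : ℝ) + 1) * r ^ n) := by
    have h3 : Summable (fun n : ℕ => ((n : ℝ)) ^ 1 * r ^ n) :=
      summable_pow_mul_geometric_of_norm_lt_one 1 (by rw [Real.norm_eq_abs, abs_of_nonneg h0]; exact h1)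
    have h4 : Summable (fun n : ℕ => r ^ n) := summable_geometric_of_lt_one h0 h1
    have := h3.add h4
    refine this.congr (fun n => ?_)
    simp
    ring
  rw [← summable_nat_add_iff 1]
  refine h2.congr (fun n => ?_)
  simp

theorem gan_summable (habs : ∀ n, |gam n| ≤ 1) {v : ℂ} (hv : ‖v‖ < 1) :
    Summable (fun n : ℕ => (gam n : ℂ) * v ^ n) := by
  refine Summable.of_norm_bounded (g := fun n => ‖v‖ ^ n)
    (summable_geometric_of_lt_one (norm_nonneg _) hv) (fun n => ?_)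
  rw [norm_mul, norm_pow]
  calc ‖(gam n : ℂ)‖ * ‖v‖ ^ n ≤ 1 * ‖v‖ ^ n := by
        gcongr
        exact gam_norm_le habs n
    _ = _ := one_mul _

theorem gan'_summable (habs : ∀ n, |gam n| ≤ 1) {v : ℂ} (hv : ‖v‖ < 1) :
    Summable (fun n : ℕ => (gam n : ℂ) * (n * v ^ (n - 1))) := by
  refine Summable.of_norm_bounded (g := fun n : ℕ => (n : ℝ) * ‖v‖ ^ (n - 1))
    (summable_nat_geo (norm_nonneg _) hv) (fun n => ?_)
  rw [norm_mul, norm_mul, norm_pow]
  calc ‖(gam n : ℂ)‖ * (‖(n : ℂ)‖ * ‖v‖ ^ (n - 1)) ≤ 1 * (‖(n : ℂ)‖ * ‖v‖ ^ (n - 1)) := by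
        gcongr
        exact gam_norm_le habs n
    _ = _ := by rw [one_mul, Complex.norm_natCast]

theorem gan_hasDerivAt (habs : ∀ n, |gam n| ≤ 1) {v : ℂ} (hv : ‖v‖ < 1) :
    HasDerivAt Gan (Gan' v) v := by
  obtain ⟨r, hr1, hr2⟩ := exists_between hv
  have hr0 : 0 < r := lt_of_le_of_lt (norm_nonneg v) hr1
  have := hasDerivAt_tsum_of_isPreconnected (𝕜 := ℂ) (F := ℂ)
    (g := fun (n : ℕ) (v : ℂ) => (gam n : ℂ) * v ^ n)
    (g' := fun (n : ℕ) (v : ℂ) => (gam n : ℂ) * (n * v ^ (n - 1)))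
    (u := fun n : ℕ => (n : ℝ) * r ^ (n - 1)) (t := ball 0 r) (y₀ := 0) (y := v)
    (summable_nat_geo hr0.le hr2) isOpen_ball (convex_ball 0 r).isPreconnected
    (fun n y _ => (hasDerivAt_pow n y).const_mul _)
    (fun n y hy => by
      have hy' : ‖y‖ < r := by simpa using hy
      rw [norm_mul, norm_mul, norm_pow]
      calc ‖(gam n : ℂ)‖ * (‖(n : ℂ)‖ * ‖y‖ ^ (n - 1)) ≤ 1 * (‖(n : ℂ)‖ * r ^ (n - 1)) := by
            gcongr
            exact gam_norm_le habs n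
        _ = _ := by rw [one_mul, Complex.norm_natCast])
    (mem_ball_self hr0) (gan_summable habs (by simp)) (by simpa using hr1)
  exact this

theorem gan_analyticAt (habs : ∀ n, |gam n| ≤ 1) {v : ℂ} (hv : ‖v‖ < 1) :
    AnalyticAt ℂ Gan v := by
  have h1 : DifferentiableOn ℂ Gan (ball 0 1) := fun w hw =>
    (gan_hasDerivAt habs (by simpa using hw)).differentiableAt.differentiableWithinAt
  exact h1.analyticAt (isOpen_ball.mem_nhds (by simpa using hv))

/-- the differential equation of `Gan`. -/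
theorem gan_ode (habs : ∀ n, |gam n| ≤ 1) (hrec0 : gam 1 = 1 / 3)
    (hrec : ∀ n : ℕ, 2 ≤ n → (2 * n + 1) * gam n + 2 * (n - 1) * gam (n - 1) =
      (-1) ^ n / (n * (n - 1))) {v : ℂ} (hv : ‖v‖ < 1) :
    Gan v + 2 * v * (1 + v) * Gan' v = (1 + v) * Complex.log (1 + v) := by
  have hS : HasSum (fun n : ℕ => (gam n : ℂ) * v ^ n) (Gan v) := (gan_summable habs hv).hasSum
  have hS' : HasSum (fun n : ℕ => (gam n : ℂ) * (n * v ^ (n - 1))) (Gan' v) :=
    (gan'_summable habs hv).hasSum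
  have hL := Complex.hasSum_taylorSeries_log hv
  have hS1 : HasSum (fun n : ℕ => (gam (n + 1) : ℂ) * v ^ (n + 1)) (Gan v) := by
    have := (hasSum_nat_add_iff' (f := fun n : ℕ => (gam n : ℂ) * v ^ n) 1).2 hS
    simpa [gam] using this
  have hS2 : HasSum (fun n : ℕ => v * ((gam (n + 1) : ℂ) * ((n + 1 : ℕ) * v ^ n)))
      (v * Gan' v) := by
    have := (hasSum_nat_add_iff' (f := fun n : ℕ => (gam n : ℂ) * (n * v ^ (n - 1))) 1).2 hS'
    have h2 := this.mul_left v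
    simpa using h2
  have hS3 : HasSum (fun n : ℕ => v ^ 2 * ((gam n : ℂ) * (n * v ^ (n - 1)))) (v ^ 2 * Gan' v) :=
    hS'.mul_left _
  have hL1 : HasSum (fun n : ℕ => (-1) ^ (n + 1 + 1) * v ^ (n + 1) / ((n + 1 : ℕ) : ℂ))
      (Complex.log (1 + v)) := by
    have := (hasSum_nat_add_iff' (f := fun n : ℕ => (-1 : ℂ) ^ (n + 1) * v ^ n / (n : ℂ)) 1).2 hL
    simpa using this
  have hL2 : HasSum (fun n : ℕ => v * ((-1) ^ (n + 1) * v ^ n / (n : ℂ)))
      (v * Complex.log (1 + v)) := hL.mul_left _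
  have hA := (hS1.add (hS2.mul_left 2)).add (hS3.mul_left 2)
  have hB := hL1.add hL2
  have hAB : ∀ n : ℕ, (gam (n + 1) : ℂ) * v ^ (n + 1) +
      2 * (v * ((gam (n + 1) : ℂ) * ((n + 1 : ℕ) * v ^ n))) +
      2 * (v ^ 2 * ((gam n : ℂ) * (n * v ^ (n - 1)))) =
      (-1) ^ (n + 1 + 1) * v ^ (n + 1) / ((n + 1 : ℕ) : ℂ) +
      v * ((-1) ^ (n + 1) * v ^ n / (n : ℂ)) := by
    intro n
    rcases Nat.eq_zero_or_pos n with rfl | hn
    · simp [hrec0]
      ring
    · have h1 := hrec (n + 1) (by omega)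
      have h2 : v ^ 2 * v ^ (n - 1) = v ^ (n + 1) := by
        rw [← pow_add]; congr 1; omega
      have h3 : ((2 * ((n : ℂ) + 1) + 1) * (gam (n + 1) : ℂ) + 2 * n * (gam n : ℂ)) =
          (-1) ^ (n + 1) / ((n + 1) * n) := by
        have h4 := congrArg (fun q : ℚ => (q : ℂ)) h1
        simp only [Nat.add_sub_cancel] at h4
        push_cast at h4
        rw [show ((n : ℂ) + 1 - 1) = n by ring] at h4
        exact h4
      have hn' : (n : ℂ) ≠ 0 := by exact_mod_cast hn.ne'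
      have hn'' : (n : ℂ) + 1 ≠ 0 := by exact_mod_cast (Nat.succ_ne_zero n)
      have h5 : (gam (n + 1) : ℂ) * v ^ (n + 1) +
          2 * (v * ((gam (n + 1) : ℂ) * ((n + 1 : ℕ) * v ^ n))) +
          2 * (v ^ 2 * ((gam n : ℂ) * (n * v ^ (n - 1)))) =
          ((2 * ((n : ℂ) + 1) + 1) * (gam (n + 1) : ℂ) + 2 * n * (gam n : ℂ)) * v ^ (n + 1) := by
        rw [← h2]
        push_cast
        rw [show v * ((gam (n + 1) : ℂ) * (((n : ℂ) + 1) * v ^ n)) =
          (gam (n + 1) : ℂ) * ((n : ℂ) + 1) * (v ^ 2 * v ^ (n - 1)) by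
            rw [h2, pow_succ]; ring]
        ring
      rw [h5, h3, pow_succ v n]
      push_cast
      field_simp
      ring
  have hA' : HasSum (fun n : ℕ => (-1) ^ (n + 1 + 1) * v ^ (n + 1) / ((n + 1 : ℕ) : ℂ) +
      v * ((-1) ^ (n + 1) * v ^ n / (n : ℂ))) (Gan v + 2 * (v * Gan' v) + 2 * (v ^ 2 * Gan' v)) := by
    refine hA.congr_fun ?_ |> fun h => h
    intro n
    exact (hAB n).symm
  have := hA'.unique hB
  linear_combination this

end

end Run7.h257
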