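import Mathlib
import Pool.Agent.Run7.h257.Defs
import Pool.Agent.Run7.h257.Rec
import Pool.Agent.Run7.h257.Gan

/-! Piece MM (`Cauchy`). -/

namespace Run7.h257

noncomputable section

open PowerSeries Filter Topology Metric

theorem cauchy_est {f g : ℂ → ℂ} {r K : ℝ} {n : ℕ} (hr : 0 < r) (hr1 : r < 1)
    (hf : DifferentiableOn ℂ f (ball 0 1)) (hK : ∀ z : ℂ, ‖z‖ = r → ‖f z‖ ≤ K)
    (hg : ContinuousAt g 0) (hfg : ∀ᶠ z in 𝓝 (0 : ℂ), f z = z ^ n * g z) :
    ‖g 0‖ ≤ K / r ^ n := by
  induction n generalizing f K with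
  | zero =>
    have h0 : f 0 = g 0 := by simpa using hfg.self_of_nhds
    rw [← h0, pow_zero, div_one]
    have hcl : closure (ball (0 : ℂ) r) = closedBall 0 r := closure_ball 0 hr.ne'
    have hfr : frontier (ball (0 : ℂ) r) = sphere 0 r := frontier_ball 0 hr.ne'
    have hsub : closedBall (0 : ℂ) r ⊆ ball 0 1 := closedBall_subset_ball hr1
    have hdc : DiffContOnCl ℂ f (ball (0 : ℂ) r) := by
      apply DifferentiableOn.diffContOnCl
      rw [hcl]
      exact hf.mono hsub
    refine Complex.norm_le_of_forall_mem_frontier_norm_le isBounded_ball hdc (fun z hz => ?_) ?_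
    · rw [hfr] at hz
      exact hK z (by simpa using hz)
    · exact subset_closure (mem_ball_self hr)
  | succ n ih =>
    have hf0 : f 0 = 0 := by simpa using hfg.self_of_nhds
    have hball : ball (0 : ℂ) 1 ∈ 𝓝 (0 : ℂ) := ball_mem_nhds 0 one_pos
    have hd : DifferentiableOn ℂ (dslope f 0) (ball 0 1) :=
      (Complex.differentiableOn_dslope hball).2 hf
    have hne : ∀ z : ℂ, z ≠ 0 → dslope f 0 z = f z / z := by
      intro z hz
      rw [dslope_of_ne _ hz, slope_def_field, hf0]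
      simp
    have hpn : ∀ᶠ z in 𝓝[≠] (0 : ℂ), dslope f 0 z = z ^ n * g z := by
      rw [eventually_nhdsWithin_iff]
      filter_upwards [hfg] with z hz hz0
      have hz0' : z ≠ 0 := hz0
      rw [hne z hz0', hz, pow_succ]
      field_simp
    have h00 : dslope f 0 0 = (0 : ℂ) ^ n * g 0 := by
      have c1 : Tendsto (dslope f 0) (𝓝[≠] (0 : ℂ)) (𝓝 (dslope f 0 0)) :=
        ((hd.differentiableAt hball).continuousAt.tendsto).mono_left nhdsWithin_le_nhds
      have c2 : Tendsto (fun z : ℂ => z ^ n * g z) (𝓝[≠] (0 : ℂ)) (𝓝 ((0 : ℂ) ^ n * g 0)) :=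
        (((continuous_pow n).continuousAt.mul hg).tendsto).mono_left nhdsWithin_le_nhds
      exact tendsto_nhds_unique c1 (c2.congr' (hpn.mono fun z hz => hz.symm))
    have hall : ∀ᶠ z in 𝓝 (0 : ℂ), dslope f 0 z = z ^ n * g z := by
      rw [eventually_nhdsWithin_iff] at hpn
      filter_upwards [hpn] with z hz
      by_cases hz0 : z = 0
      · rw [hz0]; exact h00
      · exact hz hz0
    have := ih (K := K / r) hd (fun z hz => by
      have hz0 : z ≠ 0 := by
        intro h; rw [h, norm_zero] at hz; exact hr.ne hz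
      rw [hne z hz0, norm_div, hz]
      exact div_le_div_of_nonneg_right (hK z hz) hr.le) hall
    calc ‖g 0‖ ≤ K / r / r ^ n := this
      _ = K / r ^ (n + 1) := by rw [div_div, pow_succ']

/-- `f` is the sum of the power series with coefficients `a` near `0`. -/
def Rep (a : ℕ → ℂ) (f : ℂ → ℂ) : Prop :=
  ∀ᶠ v in 𝓝 (0 : ℂ), HasSum (fun k => a k * v ^ k) (f v)

theorem rep_div {a : ℕ → ℂ} {f : ℂ → ℂ} (h : Rep a f) (n : ℕ) (h0 : ∀ k < n, a k = 0) :
    ∃ F : ℂ → ℂ, ContinuousAt F 0 ∧ F 0 = a n ∧ ∀ᶠ v in 𝓝 (0 : ℂ), f v = v ^ n * F v := by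
  refine ⟨fun v => ∑' k, a (k + n) * v ^ k, ?_, ?_, ?_⟩
  · obtain ⟨r, hr, hb⟩ := Metric.eventually_nhds_iff_ball.1 h
    have hρ : 0 < r / 2 := by positivity
    have h1 : Summable (fun k => a k * ((r / 2 : ℝ) : ℂ) ^ k) :=
      (hb ((r / 2 : ℝ) : ℂ) (by
        rw [mem_ball_zero_iff, Complex.norm_real, Real.norm_eq_abs, abs_of_pos hρ]
        linarith)).summable
    obtain ⟨C, hC⟩ := (h1.tendsto_atTop_zero.norm).bddAbove_range
    have hC' : ∀ k, ‖a k‖ * (r / 2) ^ k ≤ C := by
      intro k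
      have := hC ⟨k, rfl⟩
      simpa [norm_mul, norm_pow, abs_of_pos hρ, Complex.norm_real, abs_of_pos hr] using this
    have hcont : ContinuousOn (fun v : ℂ => ∑' k, a (k + n) * v ^ k)
        (closedBall (0 : ℂ) (r / 2 / 2)) := by
      refine continuousOn_tsum (u := fun k => C / (r / 2) ^ n * (1 / 2) ^ k)
        (fun k => (continuous_const.mul (continuous_pow k)).continuousOn)
        (summable_geometric_two.mul_left _) (fun k v hv => ?_)
      have hv' : ‖v‖ ≤ r / 2 / 2 := by simpa using hv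
      rw [norm_mul, norm_pow]
      have h2 := hC' (k + n)
      rw [pow_add] at h2
      calc ‖a (k + n)‖ * ‖v‖ ^ k ≤ ‖a (k + n)‖ * (r / 2 / 2) ^ k := by gcongr
        _ = (‖a (k + n)‖ * ((r / 2) ^ k * (r / 2) ^ n)) / (r / 2) ^ n * (1 / 2) ^ k := by
            rw [div_pow (r / 2) 2 k, one_div, inv_pow]
            field_simp
        _ ≤ C / (r / 2) ^ n * (1 / 2) ^ k := by gcongr
    exact hcont.continuousAt (closedBall_mem_nhds 0 (by positivity))
  · show ∑' k, a (k + n) * (0 : ℂ) ^ k = a n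
    rw [tsum_eq_single 0]
    · simp
    · intro k hk
      simp [hk]
  · filter_upwards [h] with v hv
    have h1 := (hasSum_nat_add_iff' (f := fun k => a k * v ^ k) n).2 hv
    have h2 : ∑ i ∈ Finset.range n, a i * v ^ i = 0 := by
      refine Finset.sum_eq_zero (fun i hi => ?_)
      rw [h0 i (Finset.mem_range.1 hi), zero_mul]
    rw [h2, sub_zero] at h1
    have h3 : (fun k => a (k + n) * v ^ (k + n)) = fun k => v ^ n * (a (k + n) * v ^ k) := by
      funext k; rw [pow_add]; ring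
    rw [← h1.tsum_eq, h3, tsum_mul_left]

theorem rep_mul {P : ℚ⟦X⟧} {f : ℂ → ℂ} (h : Rep (fun k => ((coeff k P : ℚ) : ℂ)) f) (j : ℕ) :
    Rep (fun k => ((coeff k ((1 + X) ^ j * P) : ℚ) : ℂ)) (fun v => (1 + v) ^ j * f v) := by
  induction j with
  | zero => simpa using h
  | succ j ih =>
    filter_upwards [ih] with v hv
    have h1 : HasSum (fun k => ((coeff k (X * ((1 + X) ^ j * P)) : ℚ) : ℂ) * v ^ k)
        (v * ((1 + v) ^ j * f v)) := by
      rw [← hasSum_nat_add_iff' 1]
      simp only [Finset.range_one, Finset.sum_singleton, coeff_zero_X_mul, Rat.cast_zero, zero_mul,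
        sub_zero, coeff_succ_X_mul]
      refine (hv.mul_left v).congr_fun ?_
      intro k
      rw [pow_succ]; ring
    have h2 := hv.add h1
    have h3 : (1 + v) ^ (j + 1) * f v = (1 + v) ^ j * f v + v * ((1 + v) ^ j * f v) := by ring
    rw [h3]
    refine h2.congr_fun ?_
    intro k
    rw [show (1 + X : ℚ⟦X⟧) ^ (j + 1) * P = (1 + X) ^ j * P + X * ((1 + X) ^ j * P) by ring,
      map_add]
    push_cast
    ring

theorem rep_fs (i : ℕ) : Rep (fun k => ((coeff k (fs i) : ℚ) : ℂ))
    (fun v => if i = 0 then 1 else if i = 1 then Complex.log (1 + v) else Gan v) := by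
  have hev : ∀ᶠ v in 𝓝 (0 : ℂ), ‖v‖ < 1 := by
    have : ContinuousAt (fun v : ℂ => ‖v‖) 0 := continuous_norm.continuousAt
    exact this.eventually_lt_const (by simp)
  filter_upwards [hev] with v hv
  by_cases h0 : i = 0
  · simp only [h0, if_true, fs]
    have := hasSum_single (f := fun k => ((coeff k (1 : ℚ⟦X⟧) : ℚ) : ℂ) * v ^ k) 0 (by
      intro k hk
      simp [coeff_one, hk])
    simpa using this
  · by_cases h1 : i = 1
    · simp only [h1, if_true, fs, one_ne_zero, if_false, coeff_mk]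
      refine (Complex.hasSum_taylorSeries_log hv).congr_fun ?_
      intro k
      simp only [lc]
      push_cast
      ring
    · simp only [h0, h1, if_false, fs, coeff_mk]
      exact (gan_summable gam_abs hv).hasSum

/-- combination of power series vanishing to order `n`. -/
theorem comb_near (M : ℕ) (c : Fin (30 * M) → ℝ) (n : ℕ)
    (hc : ∀ k < n, ∑ r, c r * ((PowerSeries.coeff k (row M r) : ℚ) : ℝ) = 0) :
    ∃ F : ℂ → ℂ, ContinuousAt F 0 ∧
      F 0 = ((∑ r, c r * ((PowerSeries.coeff n (row M r) : ℚ) : ℝ) : ℝ) : ℂ) ∧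
      ∀ᶠ v in 𝓝 (0 : ℂ), ∑ r, (c r : ℂ) * ((1 + v) ^ (dg M r) *
        (if ty M r = 0 then 1 else if ty M r = 1 then Complex.log (1 + v) else Gan v)) =
          v ^ n * F v := by
  have hrep : Rep (fun k => ((∑ r, c r * ((PowerSeries.coeff k (row M r) : ℚ) : ℝ) : ℝ) : ℂ))
      (fun v => ∑ r : Fin (30 * M), (c r : ℂ) * ((1 + v) ^ (dg M r) *
        (if ty M r = 0 then 1 else if ty M r = 1 then Complex.log (1 + v) else Gan v))) := by
    have h1 : ∀ r : Fin (30 * M), ∀ᶠ v in 𝓝 (0 : ℂ),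
        HasSum (fun k => ((coeff k (row M r) : ℚ) : ℂ) * v ^ k) ((1 + v) ^ (dg M r) *
        (if ty M r = 0 then 1 else if ty M r = 1 then Complex.log (1 + v) else Gan v)) :=
      fun r => rep_mul (rep_fs (ty M r)) (dg M r)
    have h2 := Filter.eventually_all.2 h1
    filter_upwards [h2] with v hv
    have h3 := hasSum_sum (s := Finset.univ)
      (fun (r : Fin (30 * M)) _ => (hv r).mul_left (c r : ℂ))
    refine h3.congr_fun ?_
    intro k
    push_cast
    rw [Finset.sum_mul]
    exact Finset.sum_congr rfl (fun r _ => by ring)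
  obtain ⟨F, hF1, hF2, hF3⟩ := rep_div hrep n (fun k hk => by rw [hc k hk]; simp)
  exact ⟨F, hF1, hF2, hF3⟩

end

end Run7.h257
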