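import Mathlib
import Pool.Agent.Run7.h257.Defs

namespace Run7.h257

noncomputable section

lemma sin_al_eq : Real.sin al = Real.sqrt (2 + Real.sqrt 2) / 2 := by
  have h : Real.sin al = Real.cos (Real.pi / 8) := by
    rw [← Real.cos_pi_div_two_sub]
    congr 1
    unfold al
    ring
  rw [h, Real.cos_pi_div_eight]

lemma sin_al_lt : Real.sin al < 0.92388 := by
  rw [sin_al_eq]
  have h2 : Real.sqrt 2 < 1.4142136 := by
    rw [Real.sqrt_lt' (by norm_num)]
    norm_num
  have h3 : Real.sqrt (2 + Real.sqrt 2) < 1.84776 := by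
    rw [Real.sqrt_lt' (by norm_num)]
    nlinarith
  linarith

lemma sin_al_gt : 0.92387 < Real.sin al := by
  rw [sin_al_eq]
  have h2 : 1.41421 < Real.sqrt 2 := by
    rw [Real.lt_sqrt (by norm_num)]
    norm_num
  have h3 : 1.84774 < Real.sqrt (2 + Real.sqrt 2) := by
    rw [Real.lt_sqrt (by norm_num)]
    nlinarith
  linarith

lemma exp_pi_sq : 25.9 < Real.exp (Real.pi ^ 2 / 3) := by
  have h1 : (3.28 : ℝ) < Real.pi ^ 2 / 3 := by
    have := Real.pi_gt_d4
    nlinarith
  have h2 : (25.9 : ℝ) < Real.exp 3.28 := by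
    have h3 : (2.7182818283 : ℝ) < Real.exp 1 := Real.exp_one_gt_d9
    have h4 : Real.exp 3.28 = Real.exp 1 ^ 3 * Real.exp 0.28 := by
      rw [← Real.exp_nat_mul, ← Real.exp_add]
      norm_num
    have h5 : (1.3192 : ℝ) ≤ Real.exp 0.28 := by
      have := Real.quadratic_le_exp_of_nonneg (x := 0.28) (by norm_num)
      refine le_trans (by norm_num) this
    have h6 : (20 : ℝ) < Real.exp 1 ^ 3 := by
      have : (2.7182818283 : ℝ) ^ 3 < Real.exp 1 ^ 3 := by gcongr
      refine lt_trans ?_ this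
      norm_num
    rw [h4]
    nlinarith
  exact h2.trans (Real.exp_lt_exp.mpr h1)

/-- `1 + τ ≤ e^{π²/3} (1 - τ)`. -/
lemma num_E : 1 + Real.sin al ≤ Real.exp (Real.pi ^ 2 / 3) * (1 - Real.sin al) := by
  have h1 := exp_pi_sq
  have h2 := sin_al_lt
  nlinarith

lemma eL_gt : 7.0575 < eL := by
  unfold eL
  rw [lt_div_iff₀ Real.pi_pos]
  have h1 := Real.pi_lt_d6
  have h2 := sin_al_gt
  nlinarith

/-- `e^{1.95} < 7.03`. -/
theorem log_eL : 1.95 ≤ Real.log eL := by
  rw [Real.le_log_iff_exp_le (lt_trans (by norm_num) eL_gt)]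
  refine le_trans ?_ eL_gt.le
  have h3 : Real.exp 1 < 2.7182818286 := Real.exp_one_lt_d9
  have h4 : Real.exp 1.95 = Real.exp 1 ^ 2 * Real.exp (-0.05) := by
    rw [← Real.exp_nat_mul, ← Real.exp_add]
    norm_num
  have h5 : Real.exp (-0.05) ≤ 0.953 := by
    rw [Real.exp_neg, inv_le_comm₀ (Real.exp_pos _) (by norm_num)]
    have := Real.quadratic_le_exp_of_nonneg (x := 0.05) (by norm_num)
    refine le_trans (by norm_num) this
  have h6 : Real.exp 1 ^ 2 < 7.389057 := by
    have : Real.exp 1 ^ 2 < (2.7182818286 : ℝ) ^ 2 := by gcongr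
    refine lt_trans this ?_
    norm_num
  rw [h4]
  have : 0 < Real.exp (-0.05) := Real.exp_pos _
  nlinarith [Real.exp_pos 1]

end

end Run7.h257
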