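import Mathlib
import Pool.Agent.Run7.h257.Defs
import Pool.Agent.Run7.h257.Num

namespace Run7.h257

noncomputable section

open Filter Topology Metric

/-- `w e s = 1 - s e`. -/
def ww (e s : ℂ) : ℂ := 1 - s * e

lemma norm_ep : ‖Complex.exp (al * Complex.I)‖ = 1 := Complex.norm_exp_ofReal_mul_I al

lemma norm_em : ‖Complex.exp (-(al * Complex.I))‖ = 1 := by
  rw [Complex.exp_neg, norm_inv, norm_ep, inv_one]

lemma ww_re_pos {e s : ℂ} (he : ‖e‖ = 1) (hs : ‖s‖ < 1) : 0 < (ww e s).re := by
  unfold ww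
  have h1 : |(s * e).re| ≤ ‖s * e‖ := Complex.abs_re_le_norm _
  rw [norm_mul, he, mul_one] at h1
  have h2 := (abs_le.mp h1).2
  simp only [Complex.sub_re, Complex.one_re]
  linarith

lemma ww_slit {e s : ℂ} (he : ‖e‖ = 1) (hs : ‖s‖ < 1) : ww e s ∈ Complex.slitPlane :=
  Complex.mem_slitPlane_iff.mpr (Or.inl (ww_re_pos he hs))

lemma ww_hasDeriv (e s : ℂ) : HasDerivAt (ww e) (-e) s := by
  unfold ww
  simpa using ((hasDerivAt_id s).mul_const e).const_sub 1

lemma logww_hasDeriv {e s : ℂ} (he : ‖e‖ = 1) (hs : ‖s‖ < 1) :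
    HasDerivAt (fun s => Complex.log (ww e s)) (-e / ww e s) s :=
  (ww_hasDeriv e s).clog (ww_slit he hs)

lemma h1_hasDeriv {s : ℂ} (hs : ‖s‖ < 1) : HasDerivAt h1
    (6 / (Real.pi * Complex.I) *
      (-Complex.exp (-(al * Complex.I)) / ww (Complex.exp (-(al * Complex.I))) s -
        -Complex.exp (al * Complex.I) / ww (Complex.exp (al * Complex.I)) s)) s := by
  have := (((logww_hasDeriv norm_em hs).sub (logww_hasDeriv norm_ep hs)).const_mul
    (6 / (Real.pi * Complex.I))).const_add (9 / 4)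
  exact this

theorem h1_diff : DifferentiableOn ℂ h1 (ball 0 1) := by
  intro s hs
  rw [mem_ball_zero_iff] at hs
  exact (h1_hasDeriv hs).differentiableAt.differentiableWithinAt

theorem h1_zero : h1 0 = 9 / 4 := by
  simp [h1]

/-- the argument `θ`. -/
def th (s : ℂ) : ℝ := al + (ww (Complex.exp (-(al * Complex.I))) s).arg -
  (ww (Complex.exp (al * Complex.I)) s).arg

lemma h1_re_eq (s : ℂ) : (h1 s).re = 6 / Real.pi * th s := by
  have hpi : (Real.pi : ℂ) ≠ 0 := by exact_mod_cast Real.pi_ne_zero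
  have h : (6 : ℂ) / (Real.pi * Complex.I) = ((6 / Real.pi : ℝ) : ℂ) * (-Complex.I) := by
    rw [← Complex.inv_I]
    push_cast
    field_simp
  unfold h1
  rw [h, mul_assoc, Complex.add_re, Complex.re_ofReal_mul]
  have h2 : (-Complex.I * (Complex.log (1 - s * Complex.exp (-(al * Complex.I))) -
      Complex.log (1 - s * Complex.exp (al * Complex.I)))).re =
      (ww (Complex.exp (-(al * Complex.I))) s).arg - (ww (Complex.exp (al * Complex.I)) s).arg := by
    simp only [neg_mul, Complex.neg_re, Complex.mul_re, Complex.I_re, Complex.I_im,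
      Complex.sub_im, Complex.log_im, ww]
    ring
  rw [h2]
  have h3 : ((9 : ℂ) / 4).re = 9 / 4 := by
    have : (9 : ℂ) / 4 = ((9 / 4 : ℝ) : ℂ) := by push_cast; ring
    rw [this, Complex.ofReal_re]
  rw [h3]
  unfold th
  have h4 : (9 : ℝ) / 4 = 6 / Real.pi * al := by
    unfold al
    have := Real.pi_ne_zero
    field_simp
    norm_num
  rw [h4]
  ring

lemma sin_al_pos : 0 < Real.sin al := lt_trans (by norm_num) sin_al_gt

lemma sin_th_pos {s : ℂ} (hs : ‖s‖ < 1) : 0 < Real.sin (th s) := by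
  set w1 := ww (Complex.exp (-(al * Complex.I))) s with hw1
  set w2 := ww (Complex.exp (al * Complex.I)) s with hw2
  have hr1 : 0 < ‖w1‖ := by
    have := ww_re_pos norm_em hs
    exact norm_pos_iff.mpr (fun h => by rw [← hw1, h] at this; simp at this)
  have hr2 : 0 < ‖w2‖ := by
    have := ww_re_pos norm_ep hs
    exact norm_pos_iff.mpr (fun h => by rw [← hw2, h] at this; simp at this)
  have key : Complex.exp (al * Complex.I) * w1 * (starRingEnd ℂ) w2 =
      ((‖w1‖ * ‖w2‖ : ℝ) : ℂ) * Complex.exp (th s * Complex.I) := by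
    have e1 : w1 = ‖w1‖ * Complex.exp (w1.arg * Complex.I) := (Complex.norm_mul_exp_arg_mul_I w1).symm
    have e2 : w2 = ‖w2‖ * Complex.exp (w2.arg * Complex.I) := (Complex.norm_mul_exp_arg_mul_I w2).symm
    have e3 : (starRingEnd ℂ) w2 = ‖w2‖ * Complex.exp (-(w2.arg * Complex.I)) := by
      conv_lhs => rw [e2]
      rw [map_mul, Complex.conj_ofReal, ← Complex.exp_conj, map_mul, Complex.conj_ofReal,
        Complex.conj_I, mul_neg]
    have e4 : Complex.exp (th s * Complex.I) = Complex.exp (al * Complex.I) *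
        Complex.exp (w1.arg * Complex.I) * Complex.exp (-(w2.arg * Complex.I)) := by
      rw [← Complex.exp_add, ← Complex.exp_add]
      congr 1
      unfold th
      push_cast
      ring
    rw [e3, e4]
    conv_lhs => rw [e1]
    push_cast
    ring
  have key2 : (Complex.exp (al * Complex.I) * w1 * (starRingEnd ℂ) w2).im =
      Real.sin al * (1 - ‖s‖ ^ 2) := by
    have f1 : Complex.exp (al * Complex.I) * w1 * (starRingEnd ℂ) w2 =
        Complex.exp (al * Complex.I) - (s + (starRingEnd ℂ) s) +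
          ((‖s‖ ^ 2 : ℝ) : ℂ) * Complex.exp (-(al * Complex.I)) := by
      have g1 : Complex.exp (al * Complex.I) * Complex.exp (-(al * Complex.I)) = 1 := by
        rw [← Complex.exp_add]; simp
      have g2 : (starRingEnd ℂ) w2 = 1 - (starRingEnd ℂ) s * Complex.exp (-(al * Complex.I)) := by
        rw [hw2]
        unfold ww
        rw [map_sub, map_one, map_mul, ← Complex.exp_conj, map_mul, Complex.conj_ofReal,
          Complex.conj_I, mul_neg]
      have g3 : s * (starRingEnd ℂ) s = ((‖s‖ ^ 2 : ℝ) : ℂ) := by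
        rw [Complex.mul_conj, Complex.normSq_eq_norm_sq]
      rw [g2, ← g3, hw1]
      unfold ww
      linear_combination (-(s + (starRingEnd ℂ) s) +
        s * (starRingEnd ℂ) s * Complex.exp (-(al * Complex.I))) * g1
    rw [f1]
    have f2 : (Complex.exp (-(al * Complex.I))).im = -Real.sin al := by
      have : -((al : ℂ) * Complex.I) = ((-al : ℝ) : ℂ) * Complex.I := by push_cast; ring
      rw [this, Complex.exp_ofReal_mul_I_im, Real.sin_neg]
    rw [Complex.add_im, Complex.sub_im, Complex.exp_ofReal_mul_I_im, Complex.im_ofReal_mul, f2]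
    simp only [Complex.add_im, Complex.conj_im]
    ring
  rw [key, Complex.im_ofReal_mul, Complex.exp_ofReal_mul_I_im] at key2
  have h5 : 0 < Real.sin al * (1 - ‖s‖ ^ 2) := by
    apply mul_pos sin_al_pos
    have : ‖s‖ ^ 2 < 1 := by
      have := norm_nonneg s
      nlinarith
    linarith
  rw [← key2] at h5
  exact (pos_iff_pos_of_mul_pos h5).mp (mul_pos hr1 hr2)

theorem h1_re (s : ℂ) (hs : s ∈ ball (0 : ℂ) 1) : 0 < (h1 s).re ∧ (h1 s).re < 6 := by
  rw [mem_ball_zero_iff] at hs
  have hpi := Real.pi_pos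
  have a1 : |(ww (Complex.exp (-(al * Complex.I))) s).arg| < Real.pi / 2 :=
    Complex.abs_arg_lt_pi_div_two_iff.mpr (Or.inl (ww_re_pos norm_em hs))
  have a2 : |(ww (Complex.exp (al * Complex.I)) s).arg| < Real.pi / 2 :=
    Complex.abs_arg_lt_pi_div_two_iff.mpr (Or.inl (ww_re_pos norm_ep hs))
  rw [abs_lt] at a1 a2
  have hal : al = 3 * Real.pi / 8 := rfl
  have t1 : -Real.pi < th s := by unfold th; linarith [a1.1, a2.2]
  have t2 : th s < 2 * Real.pi := by unfold th; linarith [a1.2, a2.1]
  have hsin := sin_th_pos hs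
  have t3 : 0 < th s := by
    by_contra hcon
    push Not at hcon
    have := Real.sin_nonpos_of_nonpos_of_neg_pi_le hcon t1.le
    linarith
  have t4 : th s < Real.pi := by
    by_contra hcon
    push Not at hcon
    have h6 : 0 ≤ Real.sin (th s - Real.pi) :=
      Real.sin_nonneg_of_nonneg_of_le_pi (by linarith) (by linarith)
    rw [Real.sin_sub_pi] at h6
    linarith
  rw [h1_re_eq]
  constructor
  · positivity
  · rw [div_mul_eq_mul_div, div_lt_iff₀ hpi]
    linarith

theorem hh_deriv : HasDerivAt hh (eL : ℂ) 0 := by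
  have e1 := h1_hasDeriv (s := 0) (by simp)
  have e2 : HasDerivAt (fun s : ℂ => -s) (-1) 0 := hasDerivAt_neg' 0
  have e3 : HasDerivAt h1
    (6 / (Real.pi * Complex.I) *
      (-Complex.exp (-(al * Complex.I)) / ww (Complex.exp (-(al * Complex.I))) 0 -
        -Complex.exp (al * Complex.I) / ww (Complex.exp (al * Complex.I)) 0)) (-0) := by
    simpa using e1
  have e4 := e1.sub (e3.comp 0 e2)
  have hfun : hh = h1 - h1 ∘ (fun s : ℂ => -s) := by
    funext s; rfl
  rw [hfun]
  refine e4.congr_deriv ?_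
  have hpi : (Real.pi : ℂ) ≠ 0 := by exact_mod_cast Real.pi_ne_zero
  have hs : Complex.exp (al * Complex.I) - Complex.exp (-(al * Complex.I)) =
      2 * Complex.I * (Real.sin al : ℂ) := by
    have := Complex.two_sin (al : ℂ)
    rw [Complex.ofReal_sin]
    have h7 : Complex.exp (-(al * Complex.I)) = Complex.exp (-(al : ℂ) * Complex.I) := by
      congr 1; ring
    rw [h7]
    linear_combination (-Complex.I) * this +
      (Complex.exp (al * Complex.I) - Complex.exp (-(al : ℂ) * Complex.I)) * Complex.I_sq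
  unfold eL ww
  push_cast
  simp only [zero_mul, sub_zero, div_one]
  rw [show (6 : ℂ) / (Real.pi * Complex.I) * (-Complex.exp (-(al * Complex.I)) -
    -Complex.exp (al * Complex.I)) - 6 / (Real.pi * Complex.I) *
      (-Complex.exp (-(al * Complex.I)) - -Complex.exp (al * Complex.I)) * -1 =
      12 / (Real.pi * Complex.I) * (Complex.exp (al * Complex.I) -
        Complex.exp (-(al * Complex.I))) by ring, hs, Complex.ofReal_sin]
  field_simp
  ring

/-- the exponential of `i π h / 6`. -/
lemma exp_hh {s : ℂ} (hs : ‖s‖ < 1) :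
    Complex.exp (Real.pi * Complex.I / 6 * hh s) *
      (1 - s ^ 2 - 2 * Complex.I * (Real.sin al : ℂ) * s) =
      1 - s ^ 2 + 2 * Complex.I * (Real.sin al : ℂ) * s := by
  have hs' : ‖-s‖ < 1 := by rwa [norm_neg]
  have hpi : (Real.pi : ℂ) ≠ 0 := by exact_mod_cast Real.pi_ne_zero
  set em := Complex.exp (-(al * Complex.I)) with hem
  set ep := Complex.exp (al * Complex.I) with hep
  have n1 : ww em s ≠ 0 := Complex.slitPlane_ne_zero (ww_slit norm_em hs)
  have n2 : ww ep s ≠ 0 := Complex.slitPlane_ne_zero (ww_slit norm_ep hs)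
  have n3 : ww em (-s) ≠ 0 := Complex.slitPlane_ne_zero (ww_slit norm_em hs')
  have n4 : ww ep (-s) ≠ 0 := Complex.slitPlane_ne_zero (ww_slit norm_ep hs')
  have e1 : Real.pi * Complex.I / 6 * hh s =
      Complex.log (ww em s) - Complex.log (ww ep s) - Complex.log (ww em (-s)) +
        Complex.log (ww ep (-s)) := by
    rw [hem, hep]
    unfold hh h1 ww
    field_simp
    ring
  have hs2 : ep - em = 2 * Complex.I * (Real.sin al : ℂ) := by
    have := Complex.two_sin (al : ℂ)
    rw [Complex.ofReal_sin, hem, hep]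
    have h7 : Complex.exp (-(al * Complex.I)) = Complex.exp (-(al : ℂ) * Complex.I) := by
      congr 1; ring
    rw [h7]
    linear_combination (-Complex.I) * this +
      (Complex.exp (al * Complex.I) - Complex.exp (-(al : ℂ) * Complex.I)) * Complex.I_sq
  have g1 : ep * em = 1 := by
    rw [hem, hep, ← Complex.exp_add]; simp
  rw [e1, Complex.exp_add, Complex.exp_sub, Complex.exp_sub, Complex.exp_log n1,
    Complex.exp_log n2, Complex.exp_log n3, Complex.exp_log n4]
  have p1 : 1 - s ^ 2 - 2 * Complex.I * (Real.sin al : ℂ) * s = ww ep s * ww em (-s) := by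
    unfold ww
    linear_combination s * hs2 + s ^ 2 * g1
  have p2 : 1 - s ^ 2 + 2 * Complex.I * (Real.sin al : ℂ) * s = ww em s * ww ep (-s) := by
    unfold ww
    linear_combination (-s) * hs2 + s ^ 2 * g1
  rw [p1, p2]
  field_simp

/-- solutions of `2 i s = q (1 - s²)` with `|q| ≥ 1` are on the unit circle. -/
lemma no_sol {s : ℂ} {q : ℝ} (hq : 1 ≤ |q|) (h : 2 * Complex.I * s = q * (1 - s ^ 2)) :
    1 ≤ ‖s‖ := by
  obtain ⟨x, y⟩ := s
  have hre := congrArg Complex.re h
  have him := congrArg Complex.im h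
  simp [pow_two] at hre him
  have hq0 : q ≠ 0 := by
    intro h0
    rw [h0] at hq
    simp at hq
    linarith
  have hn : ‖(⟨x, y⟩ : ℂ)‖ ^ 2 = x ^ 2 + y ^ 2 := by
    rw [← Complex.normSq_eq_norm_sq, Complex.normSq_mk]
    ring
  have hgoal : 1 ≤ x ^ 2 + y ^ 2 := by
    have hx : x * (q * y + 1) = 0 := by nlinarith
    rcases mul_eq_zero.mp hx with h1 | h1
    · subst h1
      have h2 : q * (1 + y ^ 2) = -2 * y := by nlinarith
      have h3 : |q| * (1 + y ^ 2) = 2 * |y| := by
        have := congrArg abs h2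
        rw [abs_mul, abs_mul, abs_of_pos (by positivity : (0 : ℝ) < 1 + y ^ 2)] at this
        simpa using this
      have h4 : (1 - |y|) ^ 2 ≤ 0 := by nlinarith [sq_abs y, sq_nonneg y]
      have h5 : |y| = 1 := by nlinarith [sq_nonneg (1 - |y|)]
      have h6 := sq_abs y
      rw [h5] at h6
      nlinarith
    · have h2 : q * (x ^ 2 + y ^ 2 - 1) = 0 := by nlinarith
      rcases mul_eq_zero.mp h2 with h3 | h3
      · exact absurd h3 hq0
      · linarith
  rw [← hn] at hgoal
  nlinarith [norm_nonneg (⟨x, y⟩ : ℂ)]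

theorem hh_exp (s : ℂ) (hs : s ∈ ball (0 : ℂ) 1) (h : Complex.exp (hh s) = 1) : s = 0 := by
  rw [mem_ball_zero_iff] at hs
  obtain ⟨n, hn⟩ := Complex.exp_eq_one_iff.mp h
  have key := exp_hh hs
  set ρ : ℝ := Real.exp (-(Real.pi ^ 2 * n / 3)) with hρ
  have e1 : Complex.exp (Real.pi * Complex.I / 6 * hh s) = (ρ : ℂ) := by
    rw [hn, hρ, Complex.ofReal_exp]
    congr 1
    push_cast
    linear_combination (Real.pi ^ 2 * (n : ℂ) / 3) * Complex.I_sq
  rw [e1] at key
  have hρ0 : 0 < ρ := Real.exp_pos _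
  have hτ := sin_al_pos
  set τ := Real.sin al with hτd
  -- 2 i τ s (1+ρ) = (ρ-1)(1-s²)
  have k1 : 2 * Complex.I * (τ : ℂ) * s * (1 + ρ) = (ρ - 1) * (1 - s ^ 2) := by
    linear_combination (-1 : ℂ) * key
  by_contra hs0
  by_cases hn0 : n = 0
  · have : ρ = 1 := by rw [hρ, hn0]; simp
    rw [this] at k1
    have k2 : (τ : ℂ) * s = 0 := by
      have hI := Complex.I_ne_zero
      have : 4 * Complex.I * ((τ : ℂ) * s) = 0 := by
        push_cast at k1
        linear_combination k1
      rcases mul_eq_zero.mp this with h' | h'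
      · exfalso
        rcases mul_eq_zero.mp h' with h'' | h''
        · norm_num at h''
        · exact hI h''
      · exact h'
    rcases mul_eq_zero.mp k2 with h' | h'
    · have : τ = 0 := by exact_mod_cast h'
      linarith
    · exact hs0 h'
  · have hE := num_E
    have hq : τ * (1 + ρ) ≤ |ρ - 1| := by
      have hpi2 : 0 < Real.pi ^ 2 := by positivity
      rcases lt_or_gt_of_ne hn0 with hlt | hgt
      · have h1n : (n : ℝ) ≤ -1 := by exact_mod_cast (by omega : n ≤ -1)
        have h2 : Real.exp (Real.pi ^ 2 / 3) ≤ ρ := by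
          rw [hρ]
          apply Real.exp_le_exp.mpr
          nlinarith
        have hτ1 : 0 < 1 - τ := by have := sin_al_lt; linarith
        have h3 : 1 + τ ≤ ρ * (1 - τ) := le_trans hE (by gcongr)
        have h4 : ρ - 1 ≤ |ρ - 1| := le_abs_self _
        nlinarith
      · have h1n : (1 : ℝ) ≤ n := by exact_mod_cast (by omega : 1 ≤ n)
        have h2 : ρ ≤ Real.exp (-(Real.pi ^ 2 / 3)) := by
          rw [hρ]
          apply Real.exp_le_exp.mpr
          nlinarith
        have h3 : ρ * Real.exp (Real.pi ^ 2 / 3) ≤ 1 := by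
          have h5 : ρ * Real.exp (Real.pi ^ 2 / 3) ≤
              Real.exp (-(Real.pi ^ 2 / 3)) * Real.exp (Real.pi ^ 2 / 3) := by gcongr
          rwa [← Real.exp_add (-(Real.pi ^ 2 / 3)), neg_add_cancel, Real.exp_zero] at h5
        have hτ1 : 0 < 1 - τ := by have := sin_al_lt; linarith
        have h4 : ρ * (1 + τ) ≤ 1 - τ := by
          calc ρ * (1 + τ) ≤ ρ * (Real.exp (Real.pi ^ 2 / 3) * (1 - τ)) := by gcongr
            _ = (ρ * Real.exp (Real.pi ^ 2 / 3)) * (1 - τ) := by ring
            _ ≤ 1 * (1 - τ) := by gcongr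
            _ = 1 - τ := one_mul _
        have h6 : -(ρ - 1) ≤ |ρ - 1| := neg_le_abs _
        nlinarith
    have hpos : 0 < τ * (1 + ρ) := by positivity
    have hq1 : 1 ≤ |(ρ - 1) / (τ * (1 + ρ))| := by
      rw [abs_div, abs_of_pos hpos, le_div_iff₀ hpos]
      linarith
    have k3 : 2 * Complex.I * s = (((ρ - 1) / (τ * (1 + ρ)) : ℝ) : ℂ) * (1 - s ^ 2) := by
      have hne : ((τ * (1 + ρ) : ℝ) : ℂ) ≠ 0 := by exact_mod_cast hpos.ne'
      push_cast at hne ⊢
      rw [div_mul_eq_mul_div, eq_div_iff hne]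
      linear_combination k1
    have := no_sol hq1 k3
    linarith

end

end Run7.h257
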