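import Mathlib
import Pool.Agent.Run7.h257.Defs
import Pool.Agent.Run7.h257.Conf
import Pool.Agent.Run7.h257.Gam
import Pool.Agent.Run7.h257.GanDef
import Pool.Agent.Run7.h257.Near
import Pool.Agent.Run7.h257.Cauchy

namespace Run7.h257

noncomputable section

open PowerSeries Filter Topology Metric

lemma hh_zero : hh 0 = 0 := by simp [hh]

lemma eL_pos : 0 < eL := lt_trans (by norm_num) eL_gt

lemma neg_mem_ball {s : ℂ} (hs : s ∈ ball (0 : ℂ) 1) : -s ∈ ball (0 : ℂ) 1 := by
  rw [mem_ball_zero_iff] at *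
  rwa [norm_neg]

lemma h1neg_diff : DifferentiableOn ℂ (fun s => h1 (-s)) (ball 0 1) :=
  h1_diff.comp differentiable_neg.differentiableOn (fun _ hs => neg_mem_ball hs)

lemma hh_diff : DifferentiableOn ℂ hh (ball 0 1) := h1_diff.sub h1neg_diff

/-- the weight inequality. -/
lemma weight_ineq {M j R1 R2 : ℝ} (hM : 0 ≤ M) (hj : 0 ≤ j) (h1 : 0 < R1) (h1' : R1 < 6)
    (h2 : 0 < R2) (h2' : R2 < 6) :
    6 * min j (min (4 * M) (10 * M - j)) + j * (R1 - R2) ≤
      M * (24 + 5 * (R1 - R2) + (R1 + R2)) := by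
  set m := min j (min (4 * M) (10 * M - j)) with hm
  have m1 : m ≤ j := min_le_left _ _
  have m2 : m ≤ 4 * M := (min_le_right _ _).trans (min_le_left _ _)
  have m3 : m ≤ 10 * M - j := (min_le_right _ _).trans (min_le_right _ _)
  rcases le_total 0 (R1 - R2) with hT | hT
  · rcases le_total j (6 * M) with hj6 | hj6
    · have : j * (R1 - R2) ≤ 6 * M * (R1 - R2) := by gcongr
      nlinarith
    · have : 6 * M * (6 - (R1 - R2)) ≤ j * (6 - (R1 - R2)) := by
        apply mul_le_mul_of_nonneg_right hj6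
        linarith
      nlinarith
  · rcases le_total j (4 * M) with hj4 | hj4
    · have : j * (6 + (R1 - R2)) ≤ 4 * M * (6 + (R1 - R2)) := by
        apply mul_le_mul_of_nonneg_right hj4
        linarith
      nlinarith
    · have : j * (R1 - R2) ≤ 4 * M * (R1 - R2) := mul_le_mul_of_nonpos_right hj4 hT
      nlinarith

theorem arch_row (δ : ℝ) (hδ : 0 < δ) : ∃ C : ℝ, 0 < C ∧ ∀ M : ℕ, 1 ≤ M →
    ∀ c : Fin (30 * M) → ℝ, ∑ r, c r ^ 2 = 1 → ∀ n : ℕ,
      (∀ k < n, ∑ r, c r * (Bw M r * ((PowerSeries.coeff k (row M r) : ℚ) : ℝ)) = 0) →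
      |∑ r, c r * (Bw M r * ((PowerSeries.coeff n (row M r) : ℚ) : ℝ))| ≤
        C * M * Real.exp (57 / 2 * M) * (Real.exp δ / eL) ^ n := by
  have hder0 : deriv hh 0 = (eL : ℂ) := hh_deriv.deriv
  have hder0' : deriv hh 0 ≠ 0 := by
    rw [hder0]
    exact_mod_cast eL_pos.ne'
  obtain ⟨Γ, hΓd, hΓ⟩ := exists_Gam hh hh_diff hh_zero hder0' hh_exp
  have hnear := near_zero hh Γ hh_diff hh_zero hder0' hΓd hΓ
  set r : ℝ := Real.exp (-δ) with hr
  have hr0 : 0 < r := Real.exp_pos _
  have hr1 : r < 1 := by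
    rw [hr]
    exact Real.exp_lt_one_iff.mpr (by linarith)
  have hsub : sphere (0 : ℂ) r ⊆ ball (0 : ℂ) 1 := by
    intro z hz
    rw [mem_sphere_zero_iff_norm] at hz
    rw [mem_ball_zero_iff, hz]
    exact hr1
  obtain ⟨C1, hC1⟩ := (isCompact_sphere (0 : ℂ) r).exists_bound_of_continuousOn
    (hh_diff.continuousOn.mono hsub)
  obtain ⟨C2, hC2⟩ := (isCompact_sphere (0 : ℂ) r).exists_bound_of_continuousOn
    (hΓd.continuousOn.mono hsub)
  set C0 : ℝ := max 1 (max C1 C2) with hC0
  have hC01 : 1 ≤ C0 := le_max_left _ _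
  refine ⟨30 * C0, by positivity, ?_⟩
  intro M hM c hc n hvan
  set c' : Fin (30 * M) → ℝ := fun r => c r * Bw M r with hc'
  have hvan' : ∀ k < n, ∑ r, c' r * ((PowerSeries.coeff k (row M r) : ℚ) : ℝ) = 0 := by
    intro k hk
    rw [← hvan k hk]
    apply Finset.sum_congr rfl
    intro r _
    rw [hc']
    ring
  obtain ⟨F, hFc, hF0, hF⟩ := comb_near M c' n hvan'
  -- the functions
  set φ : ℕ → ℂ → ℂ := fun t s => if t = 0 then 1 else if t = 1 then hh s else Γ s with hφ
  set Φ : ℂ → ℂ := fun s => ∑ r : Fin (30 * M), (c' r : ℂ) *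
    (Complex.exp (dg M r * hh s) * φ (ty M r) s) with hΦ
  set E : ℂ → ℂ := fun s => Complex.exp (-(M * (24 + 5 * hh s + (h1 s + h1 (-s))))) with hE
  have hφd : ∀ t, DifferentiableOn ℂ (φ t) (ball 0 1) := by
    intro t
    rw [hφ]
    by_cases h0 : t = 0
    · simp only [h0, if_true]
      exact differentiableOn_const _
    · by_cases h1 : t = 1
      · simp only [h1, if_true, one_ne_zero, if_false]
        exact hh_diff
      · simp only [h0, h1, if_false]
        exact hΓd
  have hΦd : DifferentiableOn ℂ Φ (ball 0 1) := by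
    rw [hΦ]
    apply DifferentiableOn.fun_sum
    intro r _
    exact (((hh_diff.const_mul _).cexp).mul (hφd _)).const_mul _
  have hEd : DifferentiableOn ℂ E (ball 0 1) := by
    rw [hE]
    exact ((((hh_diff.const_mul _).const_add _).add (h1_diff.add h1neg_diff)).const_mul _).neg.cexp
  set v : ℂ → ℂ := fun s => Complex.exp (hh s) - 1 with hv
  have hb0 : (0 : ℂ) ∈ ball (0 : ℂ) 1 := mem_ball_self one_pos
  have hvd : DifferentiableOn ℂ v (ball 0 1) := (hh_diff.cexp).sub_const 1
  have hv0 : v 0 = 0 := by simp [hv, hh_zero]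
  have hvc : ContinuousAt v 0 := (hvd.differentiableAt (isOpen_ball.mem_nhds hb0)).continuousAt
  set q : ℂ → ℂ := dslope v 0 with hq
  have hqd : DifferentiableOn ℂ q (ball 0 1) :=
    (Complex.differentiableOn_dslope (isOpen_ball.mem_nhds hb0)).mpr hvd
  have hqc : ContinuousAt q 0 := (hqd.differentiableAt (isOpen_ball.mem_nhds hb0)).continuousAt
  have hq0 : q 0 = eL := by
    rw [hq, dslope_same]
    have := (hh_deriv.cexp).sub_const 1
    have h2 : HasDerivAt v (Complex.exp (hh 0) * eL) 0 := this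
    rw [h2.deriv, hh_zero, Complex.exp_zero, one_mul]
  have hvq : ∀ s, v s = s * q s := by
    intro s
    have := sub_smul_dslope v 0 s
    rw [hv0] at this
    simpa using this.symm
  set g : ℂ → ℂ := fun s => F (v s) * q s ^ n * E s with hg
  have hEc : ContinuousAt E 0 := (hEd.differentiableAt (isOpen_ball.mem_nhds hb0)).continuousAt
  have hgc : ContinuousAt g 0 := by
    rw [hg]
    refine ((ContinuousAt.comp (g := F) (f := v) ?_ hvc).mul (hqc.pow n)).mul hEc
    rw [hv0]
    exact hFc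
  have hfg : ∀ᶠ z in 𝓝 (0 : ℂ), (fun s => Φ s * E s) z = z ^ n * g z := by
    have htend : Tendsto v (𝓝 0) (𝓝 0) := by
      have := hvc.tendsto
      rwa [hv0] at this
    have h3 := htend.eventually hF
    have h4 : ∀ᶠ z in 𝓝 (0 : ℂ), ‖hh z‖ < Real.pi := by
      have hhc : ContinuousAt hh 0 :=
        (hh_diff.differentiableAt (isOpen_ball.mem_nhds hb0)).continuousAt
      have : Tendsto (fun z => ‖hh z‖) (𝓝 0) (𝓝 0) := by
        have := hhc.norm.tendsto
        rwa [hh_zero, norm_zero] at this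
      exact this.eventually (gt_mem_nhds Real.pi_pos)
    filter_upwards [h3, h4, hnear] with z h5 h6 h7
    have h8 : Complex.log (1 + v z) = hh z := by
      have h9 : 1 + v z = Complex.exp (hh z) := by rw [hv]; ring
      have h10 : |(hh z).im| ≤ ‖hh z‖ := Complex.abs_im_le_norm _
      rw [h9, Complex.log_exp]
      · have := (abs_le.mp h10).1; linarith
      · have := (abs_le.mp h10).2; linarith
    have h11 : Φ z = v z ^ n * F (v z) := by
      rw [← h5, hΦ]
      apply Finset.sum_congr rfl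
      intro r _
      have h9 : 1 + v z = Complex.exp (hh z) := by rw [hv]; ring
      rw [h8, ← h7, h9, ← Complex.exp_nat_mul, hφ]
    show Φ z * E z = z ^ n * (F (v z) * q z ^ n * E z)
    rw [h11]
    have h12 : v z ^ n = z ^ n * q z ^ n := by rw [hvq z, mul_pow]
    rw [h12]
    ring
  have hfd : DifferentiableOn ℂ (fun s => Φ s * E s) (ball 0 1) := hΦd.mul hEd
  have hcle : ∀ r, |c r| ≤ 1 := by
    intro r
    have h1 : c r ^ 2 ≤ ∑ r, c r ^ 2 :=
      Finset.single_le_sum (f := fun r => c r ^ 2) (fun i _ => sq_nonneg (c i)) (Finset.mem_univ r)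
    rw [hc] at h1
    exact abs_le_one_iff_mul_self_le_one.mpr (by nlinarith)
  have hK : ∀ z : ℂ, ‖z‖ = r → ‖(fun s => Φ s * E s) z‖ ≤ 30 * M * C0 := by
    intro z hz
    have hzs : z ∈ sphere (0 : ℂ) r := by rwa [mem_sphere_zero_iff_norm]
    have hzb := hsub hzs
    obtain ⟨hR1, hR1'⟩ := h1_re z hzb
    obtain ⟨hR2, hR2'⟩ := h1_re (-z) (neg_mem_ball hzb)
    have hφz : ∀ t, ‖φ t z‖ ≤ C0 := by
      intro t
      rw [hφ]
      by_cases h0 : t = 0
      · simp only [h0, if_true, norm_one]; exact hC01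
      · by_cases h1 : t = 1
        · simp only [h1, if_true, one_ne_zero, if_false]
          exact (hC1 z hzs).trans ((le_max_left _ _).trans (le_max_right _ _))
        · simp only [h0, h1, if_false]
          exact (hC2 z hzs).trans ((le_max_right _ _).trans (le_max_right _ _))
    have hterm : ∀ r : Fin (30 * M), ‖(c' r : ℂ) *
        (Complex.exp (dg M r * hh z) * φ (ty M r) z) * E z‖ ≤ C0 := by
      intro r
      have e1 : ‖Complex.exp (dg M r * hh z)‖ =
          Real.exp (dg M r * ((h1 z).re - (h1 (-z)).re)) := by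
        rw [Complex.norm_exp]
        congr 1
        have : (dg M r : ℂ) * hh z = ((dg M r : ℝ) : ℂ) * hh z := by push_cast; rfl
        rw [this, Complex.re_ofReal_mul]
        simp [hh]
      have e2 : ‖E z‖ = Real.exp (-(M * (24 + 5 * ((h1 z).re - (h1 (-z)).re) +
          ((h1 z).re + (h1 (-z)).re)))) := by
        rw [hE]
        simp only
        rw [Complex.norm_exp]
        congr 1
        have : -((M : ℂ) * (24 + 5 * hh z + (h1 z + h1 (-z)))) =
            ((-(M : ℝ) : ℝ) : ℂ) * (((24 : ℝ) : ℂ) + ((5 : ℝ) : ℂ) * hh z + (h1 z + h1 (-z))) := by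
          push_cast; ring
        rw [this, Complex.re_ofReal_mul]
        simp only [Complex.add_re, Complex.ofReal_re, Complex.re_ofReal_mul, hh, Complex.sub_re]
        ring
      have e3 : ‖(c' r : ℂ)‖ = |c r| * Real.exp (6 * wt M r) := by
        rw [Complex.norm_real, hc']
        simp only
        rw [norm_mul, Real.norm_eq_abs, Real.norm_eq_abs, Bw, abs_of_pos (Real.exp_pos _)]
      rw [norm_mul, norm_mul, norm_mul, e1, e2, e3]
      have e4 := weight_ineq (M := M) (j := dg M r) (Nat.cast_nonneg _) (Nat.cast_nonneg _)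
        hR1 hR1' hR2 hR2'
      have e5 : Real.exp (6 * wt M r) * Real.exp (dg M r * ((h1 z).re - (h1 (-z)).re)) *
          Real.exp (-(M * (24 + 5 * ((h1 z).re - (h1 (-z)).re) +
          ((h1 z).re + (h1 (-z)).re)))) ≤ 1 := by
        rw [← Real.exp_add, ← Real.exp_add, Real.exp_le_one_iff]
        unfold wt
        linarith
      have e6 : 0 ≤ Real.exp (6 * wt M r) * Real.exp (dg M r * ((h1 z).re - (h1 (-z)).re)) *
          Real.exp (-(M * (24 + 5 * ((h1 z).re - (h1 (-z)).re) +
          ((h1 z).re + (h1 (-z)).re)))) := by positivity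
      calc |c r| * Real.exp (6 * wt M r) * (Real.exp (dg M r * ((h1 z).re - (h1 (-z)).re)) *
            ‖φ (ty M r) z‖) * Real.exp (-(M * (24 + 5 * ((h1 z).re - (h1 (-z)).re) +
            ((h1 z).re + (h1 (-z)).re))))
          = |c r| * ‖φ (ty M r) z‖ * (Real.exp (6 * wt M r) *
            Real.exp (dg M r * ((h1 z).re - (h1 (-z)).re)) *
            Real.exp (-(M * (24 + 5 * ((h1 z).re - (h1 (-z)).re) +
            ((h1 z).re + (h1 (-z)).re))))) := by ring
        _ ≤ 1 * C0 * 1 := by
          gcongr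
          · exact hcle r
          · exact hφz _
        _ = C0 := by ring
    simp only
    rw [hΦ]
    simp only
    rw [Finset.sum_mul]
    calc ‖∑ i : Fin (30 * M), (c' i : ℂ) * (Complex.exp (dg M i * hh z) * φ (ty M i) z) * E z‖
        ≤ ∑ i : Fin (30 * M), ‖(c' i : ℂ) * (Complex.exp (dg M i * hh z) * φ (ty M i) z) * E z‖ :=
          norm_sum_le _ _
      _ ≤ ∑ i : Fin (30 * M), C0 := Finset.sum_le_sum (fun i _ => hterm i)
      _ = 30 * M * C0 := by
        rw [Finset.sum_const, Finset.card_univ, Fintype.card_fin, nsmul_eq_mul]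
        push_cast
        ring
  have hest := cauchy_est hr0 hr1 hfd hK hgc hfg
  have hE0 : E 0 = ((Real.exp (-(57 / 2 * M)) : ℝ) : ℂ) := by
    rw [hE]
    simp only [neg_zero]
    rw [hh_zero, h1_zero, Complex.ofReal_exp]
    congr 1
    push_cast
    ring
  have hg0 : ‖g 0‖ = |∑ r, c r * (Bw M r * ((PowerSeries.coeff n (row M r) : ℚ) : ℝ))| *
      eL ^ n * Real.exp (-(57 / 2 * M)) := by
    rw [hg]
    simp only
    rw [hv0, hF0, hq0, hE0, norm_mul, norm_mul, norm_pow, Complex.norm_real, Complex.norm_real,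
      Complex.norm_real, Real.norm_eq_abs, Real.norm_eq_abs, Real.norm_eq_abs,
      abs_of_pos eL_pos, abs_of_pos (Real.exp_pos _)]
    congr 3
    apply Finset.sum_congr rfl
    intro r _
    rw [hc']
    ring
  rw [hg0] at hest
  set X := |∑ r, c r * (Bw M r * ((PowerSeries.coeff n (row M r) : ℚ) : ℝ))| with hX
  have hP : 0 < eL ^ n * Real.exp (-(57 / 2 * M)) := mul_pos (pow_pos eL_pos n) (Real.exp_pos _)
  have h1 : X ≤ 30 * M * C0 / r ^ n / (eL ^ n * Real.exp (-(57 / 2 * M))) := by
    rw [le_div_iff₀ hP]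
    linarith
  refine h1.trans (le_of_eq ?_)
  rw [Real.exp_neg, hr, Real.exp_neg, inv_pow, div_pow]
  have hx := Real.exp_pos δ
  have hy := Real.exp_pos (57 / 2 * (M : ℝ))
  have hz := eL_pos
  field_simp

end

end Run7.h257
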