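import Mathlib
import Pool.Agent.Run7.h257.Defs

/-!
Piece F: determinant bound by Gram-Schmidt.
-/

namespace Run7.h257

open InnerProductSpace

theorem det_le_prod {N : ℕ} (A : Matrix (Fin N) (Fin N) ℝ) (b : Fin N → ℝ)
    (h : ∀ t, ∀ c : Fin N → ℝ, ∑ r, c r ^ 2 = 1 →
      (∀ s, s < t → ∑ r, c r * A r s = 0) → |∑ r, c r * A r t| ≤ b t) :
    |A.det| ≤ ∏ t, b t := by
  classical
  set f : Fin N → EuclideanSpace ℝ (Fin N) := fun t => WithLp.toLp 2 (fun r => A r t) with hf
  have hfr : Module.finrank ℝ (EuclideanSpace ℝ (Fin N)) = Fintype.card (Fin N) := by simp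
  set g := gramSchmidtOrthonormalBasis hfr f with hg
  have h1 : g.toBasis.det f = ∏ i, inner ℝ (g i) (f i) := gramSchmidtOrthonormalBasis_det hfr f
  set e := (EuclideanSpace.basisFun (Fin N) ℝ) with he
  have h2 : e.toBasis.det f = A.det := by
    rw [Module.Basis.det_apply]
    congr 1
  have h3 : e.toBasis.det = e.toBasis.det g.toBasis • g.toBasis.det :=
    AlternatingMap.eq_smul_basis_det _ _
  have h4 : |e.toBasis.det g.toBasis| = 1 := by
    have := e.det_to_matrix_orthonormalBasis_real g
    rcases this with h5 | h5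
    · rw [OrthonormalBasis.coe_toBasis, h5, abs_one]
    · rw [OrthonormalBasis.coe_toBasis, h5, abs_neg, abs_one]
  have hin : ∀ i (v : EuclideanSpace ℝ (Fin N)), inner ℝ (g i) v = ∑ r, g i r * v r := by
    intro i v
    rw [PiLp.inner_apply]
    apply Finset.sum_congr rfl
    intro r _
    simp [mul_comm]
  rw [← h2, h3, AlternatingMap.smul_apply, smul_eq_mul, abs_mul, h4, one_mul, h1,
    Finset.abs_prod]
  apply Finset.prod_le_prod (fun _ _ => abs_nonneg _)
  intro i _
  rw [hin]
  apply h i (fun r => g i r)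
  · have h6 : ‖g i‖ = 1 := g.norm_eq_one i
    have h7 : inner ℝ (g i) (g i) = (1 : ℝ) := by
      rw [real_inner_self_eq_norm_sq, h6, one_pow]
    rw [hin] at h7
    rw [← h7]
    exact Finset.sum_congr rfl fun r _ => by ring
  · intro s hs
    have h6 : inner ℝ (g i) (f s) = 0 := gramSchmidtOrthonormalBasis_inv_triangular hfr f hs
    rw [hin] at h6
    exact h6

end Run7.h257
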