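import Mathlib
import Pool.Agent.Run7.h257.Defs

/-!
Piece A: if `p` is a Wieferich prime then `p ∣ H_{(p-1)/2}`.
-/

namespace Run7.h257

/-- `C(p-1, k) ≡ (-1)^k (mod p)`. -/
theorem choose_pred_eq {p : ℕ} (hp : p.Prime) (k : ℕ) (hk : k < p) :
    (((p - 1).choose k : ℕ) : ZMod p) = (-1) ^ k := by
  induction k with
  | zero => simp
  | succ k ih =>
    have h1 : ((p - 1).choose k : ZMod p) = (-1) ^ k := ih (by omega)
    have h2 : (p - 1 + 1).choose (k + 1) = (p - 1).choose k + (p - 1).choose (k + 1) :=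
      Nat.choose_succ_succ _ _
    have h3 : p - 1 + 1 = p := Nat.sub_add_cancel hp.one_le
    rw [h3] at h2
    have h4 : ((p.choose (k + 1) : ℕ) : ZMod p) = 0 := by
      rw [ZMod.natCast_eq_zero_iff]
      exact hp.dvd_choose_self (by omega) hk
    rw [h2] at h4
    push_cast at h4
    rw [h1] at h4
    rw [pow_succ]
    linear_combination h4

theorem sum_even_odd {R : Type*} [AddCommMonoid R] (g : ℕ → R) (m : ℕ) :
    ∑ k ∈ Finset.range (2 * m), g k = ∑ j ∈ Finset.range m, (g (2 * j) + g (2 * j + 1)) := by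
  induction m with
  | zero => simp
  | succ m ih =>
    rw [show 2 * (m + 1) = 2 * m + 1 + 1 by ring, Finset.sum_range_succ, Finset.sum_range_succ,
      Finset.sum_range_succ, ih, add_assoc]

/-- the integer `C(p,k+1)/p` is `(-1)^k/(k+1)` modulo `p`. -/
theorem choose_div_eq {p : ℕ} (hp : p.Prime) (k : ℕ) (hk : k + 1 < p) :
    ((p.choose (k + 1) / p : ℕ) : ZMod p) = (-1) ^ k * ((k : ZMod p) + 1)⁻¹ := by
  have := Fact.mk hp
  have hd : p ∣ p.choose (k + 1) := hp.dvd_choose_self (by omega) hk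
  have h1 : p.choose (k + 1) * (k + 1) = p * (p - 1).choose k := by
    have h := Nat.add_one_mul_choose_eq (p - 1) k
    rw [Nat.sub_add_cancel hp.one_le] at h
    exact h.symm
  have h2 : (p.choose (k + 1) / p) * (k + 1) = (p - 1).choose k := by
    apply Nat.eq_of_mul_eq_mul_left hp.pos
    rw [← h1, ← mul_assoc, Nat.mul_div_cancel' hd]
  have h3 : ((p.choose (k + 1) / p : ℕ) : ZMod p) * ((k : ZMod p) + 1) = (-1) ^ k := by
    rw [← choose_pred_eq hp k (by omega), ← h2]
    push_cast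
    ring
  have h4 : ((k : ZMod p) + 1) ≠ 0 := by
    intro h
    have h5 : ((k + 1 : ℕ) : ZMod p) = 0 := by push_cast; exact h
    rw [ZMod.natCast_eq_zero_iff] at h5
    exact absurd (Nat.le_of_dvd (by omega) h5) (by omega)
  rw [← h3, mul_assoc, mul_inv_cancel₀ h4, mul_one]

/-- Wieferich: the alternating sum vanishes. -/
theorem alt_sum_eq_zero {p : ℕ} (hp : p.Prime) (h : p ^ 2 ∣ 2 ^ (p - 1) - 1) :
    ∑ k ∈ Finset.range (p - 1), (-1 : ZMod p) ^ k * ((k : ZMod p) + 1)⁻¹ = 0 := by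
  have h1 : ∑ k ∈ Finset.range (p - 1), p.choose (k + 1) = 2 ^ p - 2 := by
    have h2 := Nat.sum_range_choose p
    rw [Finset.sum_range_succ, ← Nat.sub_add_cancel hp.one_le, Finset.sum_range_succ'] at h2
    rw [Nat.sub_add_cancel hp.one_le] at h2
    simp only [Nat.choose_zero_right, Nat.choose_self] at h2
    omega
  have h3 : ∑ k ∈ Finset.range (p - 1), p * (p.choose (k + 1) / p) = 2 ^ p - 2 := by
    rw [← h1]
    apply Finset.sum_congr rfl
    intro k hk
    have hk' := Finset.mem_range.1 hk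
    exact Nat.mul_div_cancel' (hp.dvd_choose_self (by omega) (by omega))
  rw [← Finset.mul_sum] at h3
  obtain ⟨c, hc⟩ := h
  have h4 : 2 ^ p - 2 = 2 * (2 ^ (p - 1) - 1) := by
    have : 2 ^ p = 2 * 2 ^ (p - 1) := by
      rw [← pow_succ', Nat.sub_add_cancel hp.one_le]
    omega
  rw [h4, hc] at h3
  have h5 : ∑ k ∈ Finset.range (p - 1), p.choose (k + 1) / p = p * (2 * c) := by
    apply Nat.eq_of_mul_eq_mul_left hp.pos
    rw [h3]; ring
  have h6 : ((∑ k ∈ Finset.range (p - 1), p.choose (k + 1) / p : ℕ) : ZMod p) = 0 := by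
    rw [h5]; simp
  push_cast [-Nat.cast_div_charZero] at h6
  rw [← h6]
  apply Finset.sum_congr rfl
  intro k hk
  have hk' := Finset.mem_range.1 hk
  rw [choose_div_eq hp k (by omega)]

theorem inv_sum_eq_zero {p : ℕ} (hp : p.Prime) (h2 : 2 < p) (h : p ^ 2 ∣ 2 ^ (p - 1) - 1) :
    ∑ j ∈ Finset.range ((p - 1) / 2), ((j : ZMod p) + 1)⁻¹ = 0 := by
  have := Fact.mk hp
  have hodd : p % 2 = 1 := by
    rcases hp.eq_two_or_odd with h3 | h3
    · omega
    · exact h3
  obtain ⟨m, hm⟩ : ∃ m, p = 2 * m + 1 := ⟨p / 2, by omega⟩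
  have hm2 : (p - 1) / 2 = m := by omega
  rw [hm2]
  have h3 := alt_sum_eq_zero hp h
  rw [show p - 1 = 2 * m by omega, sum_even_odd, Finset.sum_add_distrib] at h3
  have h4 : ∑ j ∈ Finset.range m, (-1 : ZMod p) ^ (2 * j) * (((2 * j : ℕ) : ZMod p) + 1)⁻¹ =
      - ∑ j ∈ Finset.range m, (2 * ((j : ZMod p) + 1))⁻¹ := by
    rw [← Finset.sum_range_reflect, ← Finset.sum_neg_distrib]
    apply Finset.sum_congr rfl
    intro j hj
    have hj' := Finset.mem_range.1 hj
    rw [Even.neg_one_pow (even_two_mul _), one_mul, ← inv_neg]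
    congr 1
    have h5 : ((2 * (m - 1 - j) + 1 + (2 * (j + 1)) : ℕ) : ZMod p) = 0 := by
      rw [show 2 * (m - 1 - j) + 1 + (2 * (j + 1)) = p by omega]
      simp
    push_cast at h5 ⊢
    linear_combination h5
  have h6 : ∑ j ∈ Finset.range m, (-1 : ZMod p) ^ (2 * j + 1) *
      (((2 * j + 1 : ℕ) : ZMod p) + 1)⁻¹ = - ∑ j ∈ Finset.range m, (2 * ((j : ZMod p) + 1))⁻¹ := by
    rw [← Finset.sum_neg_distrib]
    apply Finset.sum_congr rfl
    intro j hj
    rw [Odd.neg_one_pow ⟨j, rfl⟩, neg_one_mul]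
    congr 2
    push_cast
    ring
  rw [h4, h6] at h3
  have h7 : ∑ j ∈ Finset.range m, ((j : ZMod p) + 1)⁻¹ =
      2 * ∑ j ∈ Finset.range m, (2 * ((j : ZMod p) + 1))⁻¹ := by
    rw [Finset.mul_sum]
    apply Finset.sum_congr rfl
    intro j hj
    have h8 : (2 : ZMod p) ≠ 0 := by
      intro h9
      have h10 : ((2 : ℕ) : ZMod p) = 0 := by exact_mod_cast h9
      rw [ZMod.natCast_eq_zero_iff] at h10
      exact absurd (Nat.le_of_dvd (by omega) h10) (by omega)
    rw [mul_inv, ← mul_assoc, mul_inv_cancel₀ h8, one_mul]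
  rw [h7]
  linear_combination -h3

theorem harm_of_wief {p : ℕ} (hp : p.Prime) (h2 : 2 < p) (h : p ^ 2 ∣ 2 ^ (p - 1) - 1) :
    padicNorm p (harmonic ((p - 1) / 2)) ≤ (p : ℚ)⁻¹ := by
  have := Fact.mk hp
  set m := (p - 1) / 2 with hm
  have h0 := inv_sum_eq_zero hp h2 h
  rw [← hm] at h0
  -- the integer `m! H_m`
  have h1 : ((∑ j ∈ Finset.range m, m.factorial / (j + 1) : ℕ) : ℚ) = m.factorial * harmonic m := by
    rw [harmonic, Finset.mul_sum]
    push_cast [-Nat.cast_div_charZero]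
    apply Finset.sum_congr rfl
    intro j hj
    have hj' := Finset.mem_range.1 hj
    have hd : j + 1 ∣ m.factorial := Nat.dvd_factorial (by omega) (by omega)
    rw [Nat.cast_div hd (by positivity)]
    push_cast
    rw [div_eq_mul_inv]
  have h3 : ((∑ j ∈ Finset.range m, m.factorial / (j + 1) : ℕ) : ZMod p) = 0 := by
    push_cast [-Nat.cast_div_charZero]
    have h4 : ∀ j ∈ Finset.range m, ((m.factorial / (j + 1) : ℕ) : ZMod p) =
        (m.factorial : ZMod p) * ((j : ZMod p) + 1)⁻¹ := by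
      intro j hj
      have hj' := Finset.mem_range.1 hj
      have hd : j + 1 ∣ m.factorial := Nat.dvd_factorial (by omega) (by omega)
      have h5 : ((j : ZMod p) + 1) ≠ 0 := by
        intro h
        have h5 : ((j + 1 : ℕ) : ZMod p) = 0 := by push_cast; exact h
        rw [ZMod.natCast_eq_zero_iff] at h5
        exact absurd (Nat.le_of_dvd (by omega) h5) (by omega)
      have h6 : ((m.factorial / (j + 1) : ℕ) : ZMod p) * ((j : ZMod p) + 1) =
          (m.factorial : ZMod p) := by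
        have h7 : m.factorial / (j + 1) * (j + 1) = m.factorial := Nat.div_mul_cancel hd
        calc ((m.factorial / (j + 1) : ℕ) : ZMod p) * ((j : ZMod p) + 1)
            = ((m.factorial / (j + 1) * (j + 1) : ℕ) : ZMod p) := by push_cast; ring
          _ = _ := by rw [h7]
      rw [← h6, mul_assoc, mul_inv_cancel₀ h5, mul_one]
    rw [Finset.sum_congr rfl h4, ← Finset.mul_sum, h0, mul_zero]
  rw [ZMod.natCast_eq_zero_iff] at h3
  have h8 : padicNorm p ((m.factorial : ℚ)) = 1 := by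
    have : padicNorm p ((m.factorial : ℕ) : ℚ) = 1 := by
      rw [padicNorm.nat_eq_one_iff]
      intro h9
      have := (hp.dvd_factorial).1 h9
      omega
    exact this
  have h9 : padicNorm p (harmonic m) =
      padicNorm p ((∑ j ∈ Finset.range m, m.factorial / (j + 1) : ℕ) : ℚ) := by
    rw [h1, padicNorm.mul, h8, one_mul]
  rw [h9]
  generalize (∑ j ∈ Finset.range m, m.factorial / (j + 1) : ℕ) = N at h3
  have h10 := (padicNorm.dvd_iff_norm_le (p := p) (n := 1) (z := (N : ℤ))).1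
    (by rw [pow_one]; exact_mod_cast h3)
  simpa using h10

end Run7.h257
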