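import Mathlib
import Pool.Agent.Run7.h257.Defs

/-!
Piece I of the proof that infinitely many primes are not Wieferich (base `2`):
linear independence of the rows.
-/

namespace Run7.h257

noncomputable section

open PowerSeries

section norms

variable {p : ℕ} (hp : p.Prime)

include hp

theorem ind_inv (q : ℚ) : padicNorm p q⁻¹ = (padicNorm p q)⁻¹ := by
  have : Fact p.Prime := ⟨hp⟩
  rw [← one_div, padicNorm.div, padicNorm.one, one_div]

theorem ind_norm_rat {q : ℚ} (hq : q ≠ 0) (h1 : q.num.natAbs < p) (h2 : q.den < p) :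
    padicNorm p q = 1 := by
  have : Fact p.Prime := ⟨hp⟩
  have hn : ¬ (p : ℤ) ∣ q.num := by
    intro h
    have h3 : p ∣ q.num.natAbs := Int.natCast_dvd.mp h
    have h4 : 0 < q.num.natAbs := Int.natAbs_pos.mpr (Rat.num_ne_zero.mpr hq)
    have := Nat.le_of_dvd h4 h3
    omega
  have hd : ¬ p ∣ q.den := by
    intro h
    have := Nat.le_of_dvd q.den_pos h
    omega
  have e : q = (q.num : ℚ) / (q.den : ℚ) := (Rat.num_div_den q).symm
  rw [e, padicNorm.div, (padicNorm.int_eq_one_iff (p := p) q.num).mpr hn,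
    (padicNorm.nat_eq_one_iff (p := p) q.den).mpr hd]
  norm_num

theorem ind_nat_inv {m : ℕ} (hm : ¬ p ∣ m) : padicNorm p ((m : ℚ)⁻¹) = 1 := by
  have : Fact p.Prime := ⟨hp⟩
  rw [ind_inv hp, (padicNorm.nat_eq_one_iff (p := p) m).mpr hm, inv_one]

theorem ind_p_one : (1 : ℚ) ≤ p := by
  exact_mod_cast hp.one_lt.le

/-- `‖1/m‖ ≤ p` for `0 < m < p^2`. -/
theorem ind_nat_inv_le {m : ℕ} (h0 : 0 < m) (hm : m < p ^ 2) :
    padicNorm p ((m : ℚ)⁻¹) ≤ p := by
  have : Fact p.Prime := ⟨hp⟩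
  by_cases h : p ∣ m
  · obtain ⟨k, rfl⟩ := h
    have hk : ¬ p ∣ k := by
      intro hk
      obtain ⟨l, rfl⟩ := hk
      have hl : 0 < l := by
        rcases Nat.eq_zero_or_pos l with rfl | h
        · simp at h0
        · exact h
      have : p ^ 2 ≤ p * (p * l) := by nlinarith [hp.pos, Nat.mul_le_mul_left (p * p) hl]
      omega
    push_cast
    rw [mul_inv, padicNorm.mul, ind_nat_inv hp hk, ind_inv hp, padicNorm.padicNorm_p hp.one_lt,
      inv_inv, mul_one]
  · rw [ind_nat_inv hp h]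
    exact ind_p_one hp

/-- `‖H_n‖ ≤ 1` for `n < p`. -/
theorem ind_harm_small {n : ℕ} (hn : n < p) : padicNorm p (harmonic n) ≤ 1 := by
  have : Fact p.Prime := ⟨hp⟩
  unfold harmonic
  apply padicNorm.sum_le' _ zero_le_one
  intro i hi
  rw [Finset.mem_range] at hi
  have h : ¬ p ∣ (i + 1) := fun h => by
    have := Nat.le_of_dvd (by omega) h
    omega
  rw [ind_nat_inv hp h]

theorem ind_harm_le {n : ℕ} (hn : n < p ^ 2) : padicNorm p (harmonic n) ≤ p := by
  have : Fact p.Prime := ⟨hp⟩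
  unfold harmonic
  apply padicNorm.sum_le' _ (by positivity)
  intro i hi
  rw [Finset.mem_range] at hi
  exact ind_nat_inv_le hp (m := i + 1) (by omega) (by omega)

/-- `‖H_n‖ = p` for `p ≤ n < 2p`. -/
theorem ind_harm_mid {n : ℕ} (h1 : p ≤ n) (h2 : n < 2 * p) : padicNorm p (harmonic n) = p := by
  have : Fact p.Prime := ⟨hp⟩
  have hp1 := hp.one_lt
  unfold harmonic
  have hmem : p - 1 ∈ Finset.range n := Finset.mem_range.mpr (by omega)
  rw [← Finset.add_sum_erase _ _ hmem]
  have e1 : padicNorm p ((((p - 1 + 1 : ℕ)) : ℚ)⁻¹) = p := by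
    have : p - 1 + 1 = p := by omega
    rw [this, ind_inv hp, padicNorm.padicNorm_p hp.one_lt, inv_inv]
  have e2 : padicNorm p (∑ i ∈ (Finset.range n).erase (p - 1), (((i + 1 : ℕ)) : ℚ)⁻¹) ≤ 1 := by
    apply padicNorm.sum_le' _ zero_le_one
    intro i hi
    rw [Finset.mem_erase, Finset.mem_range] at hi
    have h : ¬ p ∣ (i + 1) := fun h => by
      obtain ⟨k, hk⟩ := h
      have hk2 : k < 2 := by
        by_contra hc
        push Not at hc
        have := Nat.mul_le_mul_left p hc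
        omega
      interval_cases k
      · omega
      · omega
    rw [ind_nat_inv hp h]
  have hlt : (1 : ℚ) < p := by exact_mod_cast hp1
  have e3 : padicNorm p (∑ i ∈ (Finset.range n).erase (p - 1), (((i + 1 : ℕ)) : ℚ)⁻¹) <
      padicNorm p ((((p - 1 + 1 : ℕ)) : ℚ)⁻¹) := by rw [e1]; linarith
  rw [padicNorm.add_eq_max_of_ne (ne_of_gt e3), max_eq_left e3.le, e1]

theorem ind_lc_small {n : ℕ} (hn : n < p) : padicNorm p (lc n) ≤ 1 := by
  have : Fact p.Prime := ⟨hp⟩
  unfold lc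
  rcases Nat.eq_zero_or_pos n with rfl | h0
  · simp
  · have h : ¬ p ∣ n := fun h => by
      have := Nat.le_of_dvd (by omega) h
      omega
    rw [div_eq_mul_inv, padicNorm.mul, ind_nat_inv hp h]
    have : padicNorm p ((-1 : ℚ) ^ (n + 1)) = 1 := by
      rcases neg_one_pow_eq_or ℚ (n + 1) with h | h <;> rw [h] <;> simp
    rw [this, mul_one]

theorem ind_lc_le {n : ℕ} (hn : n < p ^ 2) : padicNorm p (lc n) ≤ p := by
  have : Fact p.Prime := ⟨hp⟩
  unfold lc
  rcases Nat.eq_zero_or_pos n with rfl | h0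
  · simp
  · rw [div_eq_mul_inv, padicNorm.mul]
    have h1 : padicNorm p ((-1 : ℚ) ^ (n + 1)) = 1 := by
      rcases neg_one_pow_eq_or ℚ (n + 1) with h | h <;> rw [h] <;> simp
    rw [h1, one_mul]
    exact ind_nat_inv_le hp h0 hn

theorem ind_lc_p : padicNorm p (lc p) = p := by
  have : Fact p.Prime := ⟨hp⟩
  unfold lc
  rw [div_eq_mul_inv, padicNorm.mul, ind_inv hp, padicNorm.padicNorm_p hp.one_lt, inv_inv]
  have h1 : padicNorm p ((-1 : ℚ) ^ (p + 1)) = 1 := by
    rcases neg_one_pow_eq_or ℚ (p + 1) with h | h <;> rw [h] <;> simp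
  rw [h1, one_mul]

/-- `‖g_k‖ ≤ p` if `2k+1 < 3p`. -/
theorem ind_gk_le (h3 : 3 < p) {k : ℕ} (hk : 2 * k + 1 < 3 * p) : padicNorm p (gk k) ≤ p := by
  have : Fact p.Prime := ⟨hp⟩
  unfold gk
  rw [div_eq_mul_inv, padicNorm.mul]
  have hpos : (0 : ℚ) ≤ p := by positivity
  have hk2 : k < p ^ 2 := by nlinarith
  by_cases h : p ∣ 2 * k + 1
  · obtain ⟨l, hl⟩ := h
    have hl3 : l < 3 := by
      by_contra hc
      push Not at hc
      have := Nat.mul_le_mul_left p hc
      omega
    have hl1 : l = 1 := by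
      interval_cases l
      · omega
      · rfl
      · omega
    subst hl1
    have e1 : padicNorm p (harmonic k) ≤ 1 := ind_harm_small hp (by omega)
    have e2 : padicNorm p ((2 * (k : ℚ) + 1)⁻¹) = p := by
      have : 2 * (k : ℚ) + 1 = p := by
        have := congrArg (Nat.cast : ℕ → ℚ) hl
        push_cast at this
        linarith
      rw [this, ind_inv hp, padicNorm.padicNorm_p hp.one_lt, inv_inv]
    rw [e2]
    have := mul_le_mul_of_nonneg_right e1 hpos
    linarith
  · have e2 := ind_nat_inv hp h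
    push_cast at e2
    rw [e2, mul_one]
    exact ind_harm_le hp hk2

theorem ind_gk_big (h3 : 3 < p) {k : ℕ} (hk : 2 * k + 1 = 3 * p) :
    padicNorm p (gk k) = (p : ℚ) ^ 2 := by
  have : Fact p.Prime := ⟨hp⟩
  unfold gk
  rw [div_eq_mul_inv, padicNorm.mul, ind_harm_mid hp (by omega) (by omega)]
  have : 2 * (k : ℚ) + 1 = 3 * p := by exact_mod_cast hk
  rw [this, mul_inv, padicNorm.mul, ind_inv hp (p : ℚ),
    padicNorm.padicNorm_p hp.one_lt, inv_inv]
  have h : ¬ p ∣ 3 := fun h => by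
    have := Nat.le_of_dvd (by omega) h
    omega
  have e := ind_nat_inv hp h
  push_cast at e
  rw [e]
  ring

theorem ind_gam_term (m k : ℕ) (j : ℕ) :
    padicNorm p ((-1 : ℚ) ^ (m - k) * (m.choose k) * gk j) ≤ padicNorm p (gk j) := by
  have : Fact p.Prime := ⟨hp⟩
  rw [padicNorm.mul, padicNorm.mul]
  have h1 : padicNorm p ((-1 : ℚ) ^ (m - k)) = 1 := by
    rcases neg_one_pow_eq_or ℚ (m - k) with h | h <;> rw [h] <;> simp
  rw [h1, one_mul]
  have h2 : padicNorm p ((m.choose k : ℕ) : ℚ) ≤ 1 := padicNorm.of_nat _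
  have h3 : 0 ≤ padicNorm p (gk j) := padicNorm.nonneg _
  calc _ ≤ 1 * padicNorm p (gk j) := mul_le_mul_of_nonneg_right h2 h3
    _ = _ := one_mul _

theorem ind_gam_le (h3 : 3 < p) {m : ℕ} (hm : 2 * m + 1 < 3 * p) : padicNorm p (gam m) ≤ p := by
  have : Fact p.Prime := ⟨hp⟩
  cases m with
  | zero => simp [gam]
  | succ m =>
    unfold gam
    apply padicNorm.sum_le' _ (by positivity)
    intro k hk
    rw [Finset.mem_range] at hk
    exact (ind_gam_term hp m k (k + 1)).trans (ind_gk_le hp h3 (by omega))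

theorem ind_gam_big (h3 : 3 < p) {m : ℕ} (hm : 2 * m + 1 = 3 * p) :
    padicNorm p (gam m) = (p : ℚ) ^ 2 := by
  have : Fact p.Prime := ⟨hp⟩
  cases m with
  | zero => omega
  | succ m =>
    rw [gam, Finset.sum_range_succ]
    have e1 : padicNorm p ((-1 : ℚ) ^ (m - m) * (m.choose m) * gk (m + 1)) = (p : ℚ) ^ 2 := by
      rw [Nat.sub_self, pow_zero, Nat.choose_self, Nat.cast_one, one_mul, one_mul,
        ind_gk_big hp h3 hm]
    have e2 : padicNorm p (∑ k ∈ Finset.range m, (-1 : ℚ) ^ (m - k) * (m.choose k) * gk (k + 1))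
        ≤ p := by
      apply padicNorm.sum_le' _ (by positivity)
      intro k hk
      rw [Finset.mem_range] at hk
      exact (ind_gam_term hp m k (k + 1)).trans (ind_gk_le hp h3 (by omega))
    have hlt : (p : ℚ) < (p : ℚ) ^ 2 := by
      have : (1 : ℚ) < p := by exact_mod_cast hp.one_lt
      nlinarith
    have e3 : padicNorm p (∑ k ∈ Finset.range m, (-1 : ℚ) ^ (m - k) * (m.choose k) * gk (k + 1)) <
      padicNorm p ((-1 : ℚ) ^ (m - m) * (m.choose m) * gk (m + 1)) := by rw [e1]; linarith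
    rw [padicNorm.add_eq_max_of_ne (ne_of_lt e3), max_eq_right e3.le, e1]

end norms

/-- all nonzero coefficients of a polynomial are units at all large primes. -/
theorem ind_poly (P : Polynomial ℚ) : ∃ B : ℕ, ∀ p : ℕ, p.Prime → B < p → ∀ j,
    P.coeff j ≠ 0 → padicNorm p (P.coeff j) = 1 := by
  refine ⟨∑ j ∈ P.support, ((P.coeff j).num.natAbs + (P.coeff j).den), fun p hp hB j hj => ?_⟩
  have hmem : j ∈ P.support := Polynomial.mem_support_iff.mpr hj
  have : (P.coeff j).num.natAbs + (P.coeff j).den ≤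
      ∑ j ∈ P.support, ((P.coeff j).num.natAbs + (P.coeff j).den) :=
    Finset.single_le_sum (f := fun j => (P.coeff j).num.natAbs + (P.coeff j).den)
      (fun i _ => Nat.zero_le _) hmem
  exact ind_norm_rat hp hj (by omega) (by omega)

/-- the dominant coefficient of a product with a polynomial. -/
theorem ind_coeff_mul {p : ℕ} (hp : p.Prime) (P : Polynomial ℚ) (F : ℚ⟦X⟧) (j₀ m : ℕ) (t T : ℚ)
    (htT : t < T) (ht : 0 ≤ t) (hP : ∀ j, P.coeff j ≠ 0 → padicNorm p (P.coeff j) = 1)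
    (h0 : P.coeff j₀ ≠ 0) (hlow : ∀ j < j₀, P.coeff j = 0)
    (hm : padicNorm p (PowerSeries.coeff m F) = T)
    (hs : ∀ i < m, padicNorm p (PowerSeries.coeff i F) ≤ t) :
    padicNorm p (PowerSeries.coeff (j₀ + m) ((P : ℚ⟦X⟧) * F)) = T := by
  have : Fact p.Prime := ⟨hp⟩
  rw [PowerSeries.coeff_mul]
  have hmem : (j₀, m) ∈ Finset.HasAntidiagonal.antidiagonal (j₀ + m) := by simp
  rw [← Finset.add_sum_erase _ _ hmem]
  have e1 : padicNorm p (PowerSeries.coeff (j₀, m).1 (P : ℚ⟦X⟧) *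
      PowerSeries.coeff (j₀, m).2 F) = T := by
    simp only [Polynomial.coeff_coe]
    rw [padicNorm.mul, hP _ h0, hm, one_mul]
  have e2 : padicNorm p (∑ x ∈ (Finset.HasAntidiagonal.antidiagonal (j₀ + m)).erase (j₀, m),
      PowerSeries.coeff x.1 (P : ℚ⟦X⟧) * PowerSeries.coeff x.2 F) ≤ t := by
    apply padicNorm.sum_le' _ ht
    intro x hx
    rw [Finset.mem_erase, Finset.HasAntidiagonal.mem_antidiagonal] at hx
    obtain ⟨hne, hsum⟩ := hx
    rw [padicNorm.mul, Polynomial.coeff_coe]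
    by_cases hc : P.coeff x.1 = 0
    · rw [hc]; simpa using ht
    · have h1 : ¬ x.1 < j₀ := fun h => hc (hlow _ h)
      have h2 : x.1 ≠ j₀ := by
        intro h
        apply hne
        ext
        · exact h
        · simp only; omega
      rw [hP _ hc, one_mul]
      exact hs _ (by omega)
  have e3 := lt_of_le_of_lt e2 (htT.trans_eq e1.symm)
  rw [padicNorm.add_eq_max_of_ne (ne_of_gt e3), max_eq_left e3.le, e1]

theorem ind_coeff_mul_le {p : ℕ} (hp : p.Prime) (P : Polynomial ℚ) (F : ℚ⟦X⟧) (n : ℕ) (t : ℚ)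
    (ht : 0 ≤ t) (hP : ∀ j, P.coeff j ≠ 0 → padicNorm p (P.coeff j) = 1)
    (hs : ∀ i ≤ n, padicNorm p (PowerSeries.coeff i F) ≤ t) :
    padicNorm p (PowerSeries.coeff n ((P : ℚ⟦X⟧) * F)) ≤ t := by
  have : Fact p.Prime := ⟨hp⟩
  rw [PowerSeries.coeff_mul]
  apply padicNorm.sum_le' _ ht
  intro x hx
  rw [Finset.HasAntidiagonal.mem_antidiagonal] at hx
  rw [padicNorm.mul, Polynomial.coeff_coe]
  by_cases hc : P.coeff x.1 = 0
  · rw [hc]; simpa using ht
  · rw [hP _ hc, one_mul]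
    exact hs _ (by omega)

/-- the functions `1, log(1+X), G` are linearly independent over `ℚ[X]`. -/
theorem ind_main (P₀ P₁ P₂ : Polynomial ℚ)
    (h : (P₀ : ℚ⟦X⟧) + (P₁ : ℚ⟦X⟧) * PowerSeries.mk lc + (P₂ : ℚ⟦X⟧) * PowerSeries.mk gam = 0) :
    P₀ = 0 ∧ P₁ = 0 ∧ P₂ = 0 := by
  obtain ⟨B₁, hB₁⟩ := ind_poly P₁
  obtain ⟨B₂, hB₂⟩ := ind_poly P₂
  have key : ∀ P : Polynomial ℚ, P ≠ 0 → ∃ j₀, j₀ ≤ P.natDegree ∧ P.coeff j₀ ≠ 0 ∧
      ∀ j < j₀, P.coeff j = 0 := by
    intro P hP
    refine ⟨P.natTrailingDegree, Polynomial.natTrailingDegree_le_natDegree P, ?_, fun j hj =>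
      Polynomial.coeff_eq_zero_of_lt_natTrailingDegree hj⟩
    exact (Polynomial.trailingCoeff_nonzero_iff_nonzero).mpr hP
  have h2 : P₂ = 0 := by
    by_contra hne
    obtain ⟨j₀, hj, hj1, hj2⟩ := key P₂ hne
    obtain ⟨p, hpB, hp⟩ := Nat.exists_infinite_primes
      (B₁ + B₂ + P₀.natDegree + P₂.natDegree + 10)
    have : Fact p.Prime := ⟨hp⟩
    have hodd : p % 2 = 1 := by
      rcases hp.eq_two_or_odd with h | h
      · omega
      · exact h
    have hm : 2 * ((3 * p - 1) / 2) + 1 = 3 * p := by omega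
    set m := (3 * p - 1) / 2 with hmdef
    have hp1 : (1 : ℚ) < p := by exact_mod_cast hp.one_lt
    have hlt : (p : ℚ) < (p : ℚ) ^ 2 := by nlinarith
    have e2 : padicNorm p (PowerSeries.coeff (j₀ + m) ((P₂ : ℚ⟦X⟧) * PowerSeries.mk gam)) =
        (p : ℚ) ^ 2 := by
      apply ind_coeff_mul hp P₂ _ j₀ m p _ hlt (by positivity) (hB₂ p hp (by omega)) hj1 hj2
      · rw [PowerSeries.coeff_mk]
        exact ind_gam_big hp (by omega) hm
      · intro i hi
        rw [PowerSeries.coeff_mk]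
        exact ind_gam_le hp (by omega) (by omega)
    have e1 : padicNorm p (PowerSeries.coeff (j₀ + m) ((P₁ : ℚ⟦X⟧) * PowerSeries.mk lc)) ≤ p := by
      apply ind_coeff_mul_le hp P₁ _ _ _ (by positivity) (hB₁ p hp (by omega))
      intro i hi
      rw [PowerSeries.coeff_mk]
      apply ind_lc_le hp
      have : j₀ + m < 3 * p := by omega
      nlinarith
    have e0 : PowerSeries.coeff (j₀ + m) (P₀ : ℚ⟦X⟧) = 0 := by
      rw [Polynomial.coeff_coe]
      apply Polynomial.coeff_eq_zero_of_natDegree_lt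
      omega
    have h' := congrArg (PowerSeries.coeff (j₀ + m)) h
    rw [map_add, map_add, e0, zero_add, map_zero] at h'
    have h'' : PowerSeries.coeff (j₀ + m) ((P₂ : ℚ⟦X⟧) * PowerSeries.mk gam) =
        - PowerSeries.coeff (j₀ + m) ((P₁ : ℚ⟦X⟧) * PowerSeries.mk lc) := by linarith
    rw [h'', padicNorm.neg] at e2
    linarith
  subst h2
  have h1 : P₁ = 0 := by
    by_contra hne
    obtain ⟨j₀, hj, hj1, hj2⟩ := key P₁ hne
    obtain ⟨p, hpB, hp⟩ := Nat.exists_infinite_primes (B₁ + P₀.natDegree + P₁.natDegree + 10)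
    have : Fact p.Prime := ⟨hp⟩
    have hp1 : (1 : ℚ) < p := by exact_mod_cast hp.one_lt
    have e1 : padicNorm p (PowerSeries.coeff (j₀ + p) ((P₁ : ℚ⟦X⟧) * PowerSeries.mk lc)) = p := by
      apply ind_coeff_mul hp P₁ _ j₀ p 1 _ hp1 zero_le_one (hB₁ p hp (by omega)) hj1 hj2
      · rw [PowerSeries.coeff_mk]
        exact ind_lc_p hp
      · intro i hi
        rw [PowerSeries.coeff_mk]
        exact ind_lc_small hp hi
    have e0 : PowerSeries.coeff (j₀ + p) (P₀ : ℚ⟦X⟧) = 0 := by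
      rw [Polynomial.coeff_coe]
      apply Polynomial.coeff_eq_zero_of_natDegree_lt
      omega
    have h' := congrArg (PowerSeries.coeff (j₀ + p)) h
    rw [map_add, map_add, e0, zero_add, map_zero] at h'
    simp only [Polynomial.coe_zero, zero_mul, map_zero, add_zero] at h'
    rw [h', padicNorm.zero] at e1
    linarith
  subst h1
  refine ⟨?_, rfl, rfl⟩
  simp only [Polynomial.coe_zero, zero_mul, add_zero] at h
  exact_mod_cast h

/-- a vanishing combination of distinct powers of `1+X` is trivial. -/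
theorem ind_pow {ι : Type*} (s : Finset ι) (c : ι → ℚ) (d : ι → ℕ)
    (hd : ∀ i ∈ s, ∀ j ∈ s, d i = d j → i = j)
    (h : ∑ i ∈ s, Polynomial.C (c i) * (1 + Polynomial.X) ^ d i = 0) :
    ∀ i ∈ s, c i = 0 := by
  intro i hi
  have h1 := congrArg (fun P : Polynomial ℚ => (P.comp (Polynomial.X - 1)).coeff (d i)) h
  simp only [Polynomial.zero_comp, Polynomial.coeff_zero] at h1
  rw [← Polynomial.coe_compRingHom_apply, map_sum] at h1
  simp only [Polynomial.coe_compRingHom_apply] at h1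
  simp only [Polynomial.mul_comp, Polynomial.C_comp, Polynomial.pow_comp, Polynomial.add_comp,
    Polynomial.one_comp, Polynomial.X_comp, add_sub_cancel, Polynomial.finsetSum_coeff,
    Polynomial.coeff_C_mul, Polynomial.coeff_X_pow] at h1
  rw [Finset.sum_eq_single i] at h1
  · simpa using h1
  · intro j hj hne
    rw [if_neg, mul_zero]
    intro h2
    exact hne (hd j hj i hi h2.symm)
  · intro h3; exact absurd hi h3

/-- Piece I. -/
theorem rows_indep (M : ℕ) :
    LinearIndependent ℚ (fun (r : Fin (30 * M)) (n : ℕ) => PowerSeries.coeff n (row M r)) := by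
  rw [Fintype.linearIndependent_iff]
  intro g hg
  classical
  set Pol : ℕ → Polynomial ℚ := fun i =>
    ∑ r ∈ Finset.univ.filter (fun r : Fin (30 * M) => ty M r = i),
      Polynomial.C (g r) * (1 + Polynomial.X) ^ dg M r with hPol
  have hty : ∀ r : Fin (30 * M), ty M r = 0 ∨ ty M r = 1 ∨ ty M r = 2 := by
    intro r
    unfold ty
    split_ifs <;> simp
  have hsum : (Pol 0 : ℚ⟦X⟧) + (Pol 1 : ℚ⟦X⟧) * PowerSeries.mk lc +
      (Pol 2 : ℚ⟦X⟧) * PowerSeries.mk gam = 0 := by
    have e : (Pol 0 : ℚ⟦X⟧) + (Pol 1 : ℚ⟦X⟧) * PowerSeries.mk lc +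
      (Pol 2 : ℚ⟦X⟧) * PowerSeries.mk gam = ∑ r : Fin (30 * M), g r • row M r := by
      have e0 : ∀ i, (Pol i : ℚ⟦X⟧) =
          ∑ r : Fin (30 * M), if ty M r = i then g r • (1 + X : ℚ⟦X⟧) ^ dg M r else 0 := by
        intro i
        rw [hPol]
        simp only
        rw [← Polynomial.coeToPowerSeries.ringHom_apply, map_sum, Finset.sum_filter]
        apply Finset.sum_congr rfl
        intro r _
        split_ifs
        · rw [map_mul, map_pow, map_add, map_one]
          simp only [Polynomial.coeToPowerSeries.ringHom_apply, Polynomial.coe_C,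
            Polynomial.coe_X]
          rw [PowerSeries.smul_eq_C_mul]
        · rfl
      rw [e0 0, e0 1, e0 2, Finset.sum_mul, Finset.sum_mul, ← Finset.sum_add_distrib,
        ← Finset.sum_add_distrib]
      apply Finset.sum_congr rfl
      intro r _
      rcases hty r with h | h | h <;> simp [row, fs, h]
    rw [e]
    ext n
    have := congrFun hg n
    simp only [Finset.sum_apply, Pi.smul_apply, Pi.zero_apply] at this
    rw [map_sum, map_zero, ← this]
    apply Finset.sum_congr rfl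
    intro r _
    simp
  obtain ⟨h0, h1, h2⟩ := ind_main _ _ _ hsum
  intro r
  have hall : Pol (ty M r) = 0 := by
    rcases hty r with h | h | h <;> rw [h] <;> assumption
  refine ind_pow _ g (fun r : Fin (30 * M) => dg M r) ?_ hall r (by simp)
  intro i hi j hj hij
  rw [Finset.mem_filter] at hi hj
  have e : ty M i = ty M j := hi.2.trans hj.2.symm
  have hi2 := i.2
  have hj2 := j.2
  ext
  unfold ty at e
  unfold dg at hij
  split_ifs at e hij <;> omega

end

end Run7.h257
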