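import Mathlib
import Pool.Agent.Run7.h257.Defs

/-!
Piece C (`Odd`): bounds at odd primes.
-/

namespace Run7.h257

noncomputable section

open PowerSeries

lemma pn_inv_nat {p : ℕ} (hp : p.Prime) (n : ℕ) :
    padicNorm p ((n : ℚ)⁻¹) ≤ (p : ℚ) ^ Nat.log p n := by
  have := Fact.mk hp
  rcases Nat.eq_zero_or_pos n with rfl | hn
  · simp
  have hp1 : (1 : ℚ) ≤ p := by exact_mod_cast hp.one_lt.le
  have h0 : (n : ℚ) ≠ 0 := by exact_mod_cast hn.ne'
  have hv : padicNorm p ((n : ℚ)⁻¹) = (p : ℚ) ^ (padicValNat p n) := by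
    rw [padicNorm.eq_zpow_of_nonzero (inv_ne_zero h0), padicValRat.inv, neg_neg,
      padicValRat.of_nat, zpow_natCast]
  rw [hv]
  exact pow_le_pow_right₀ hp1 (padicValNat_le_nat_log n)

theorem lc_norm {p : ℕ} (hp : p.Prime) (n : ℕ) : padicNorm p (lc n) ≤ (p : ℚ) ^ Nat.log p n := by
  have := Fact.mk hp
  have h : padicNorm p (lc n) = padicNorm p ((n : ℚ)⁻¹) := by
    unfold lc
    rcases neg_one_pow_eq_or ℚ (n + 1) with h | h
    · rw [h, one_div]
    · rw [h, neg_div, padicNorm.neg, one_div]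
  rw [h]
  exact pn_inv_nat hp n

lemma harm_norm {p : ℕ} (hp : p.Prime) (n : ℕ) :
    padicNorm p (harmonic n) ≤ (p : ℚ) ^ Nat.log p n := by
  have := Fact.mk hp
  have hp1 : (1 : ℚ) ≤ p := by exact_mod_cast hp.one_lt.le
  unfold harmonic
  refine padicNorm.sum_le' (fun i hi => ?_) (by positivity)
  refine (pn_inv_nat hp (i + 1)).trans ?_
  exact pow_le_pow_right₀ hp1 (Nat.log_mono_right (Finset.mem_range.mp hi))

lemma nat_norm_le {p : ℕ} (hp : p.Prime) (n : ℕ) : padicNorm p (n : ℚ) ≤ 1 := by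
  have := Fact.mk hp
  exact padicNorm.of_nat n

lemma int_norm_le {p : ℕ} (hp : p.Prime) (n : ℤ) : padicNorm p (n : ℚ) ≤ 1 := by
  have := Fact.mk hp
  exact padicNorm.of_int n

lemma gk_eq (k : ℕ) : gk k = harmonic k * (((2 * k + 1 : ℕ) : ℚ)⁻¹) := by
  unfold gk
  push_cast
  rw [div_eq_mul_inv]

lemma gk_norm {p P₀ : ℕ} (hp : p.Prime) (h2 : 2 < p)
    (hW : P₀ < p → padicNorm p (harmonic ((p - 1) / 2)) ≤ (p : ℚ)⁻¹) (n k : ℕ) (hk : k ≤ n) :
    padicNorm p (gk k) ≤ (p : ℚ) ^ (Nat.log p n + dd P₀ p n) := by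
  have := Fact.mk hp
  have hp1 : (1 : ℚ) ≤ p := by exact_mod_cast hp.one_lt.le
  have hp0 : (0 : ℚ) < p := by exact_mod_cast hp.pos
  rw [gk_eq, padicNorm.mul]
  have hH : padicNorm p (harmonic k) ≤ (p : ℚ) ^ Nat.log p n :=
    (harm_norm hp k).trans (pow_le_pow_right₀ hp1 (Nat.log_mono_right hk))
  unfold dd
  split_ifs with hc
  · rw [pow_add]
    refine mul_le_mul hH ?_ (padicNorm.nonneg _) (by positivity)
    exact (pn_inv_nat hp _).trans (pow_le_pow_right₀ hp1 (Nat.log_mono_right (by omega)))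
  · push Not at hc
    obtain ⟨hc1, hc2⟩ := hc
    by_cases hd : p ∣ 2 * k + 1
    · obtain ⟨m, hm⟩ := hd
      have hm1 : m = 1 := by
        have h3 : m < 3 := by
          by_contra h3
          push Not at h3
          have : p * 3 ≤ p * m := Nat.mul_le_mul_left _ h3
          omega
        interval_cases m
        · omega
        · rfl
        · omega
      subst hm1
      have hk' : k = (p - 1) / 2 := by omega
      have h1 : padicNorm p (harmonic k) ≤ (p : ℚ)⁻¹ := by
        rw [hk']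
        exact hW hc1
      have h2' : padicNorm p (((2 * k + 1 : ℕ) : ℚ)⁻¹) = p := by
        rw [hm, mul_one]
        have : padicNorm p ((p : ℚ)⁻¹) = (padicNorm p (p : ℚ))⁻¹ := by
          rw [← one_div, padicNorm.div, padicNorm.one, one_div]
        rw [this, padicNorm.padicNorm_p_of_prime, inv_inv]
      rw [h2']
      calc padicNorm p (harmonic k) * p ≤ (p : ℚ)⁻¹ * p := by gcongr
        _ = 1 := inv_mul_cancel₀ hp0.ne'
        _ ≤ _ := one_le_pow₀ hp1
    · have h1 : padicNorm p (((2 * k + 1 : ℕ) : ℚ)⁻¹) = 1 := by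
        have : padicNorm p (((2 * k + 1 : ℕ) : ℚ)⁻¹) = (padicNorm p ((2 * k + 1 : ℕ) : ℚ))⁻¹ := by
          rw [← one_div, padicNorm.div, padicNorm.one, one_div]
        rw [this, (padicNorm.nat_eq_one_iff _).mpr hd, inv_one]
      rw [h1, mul_one, add_zero]
      exact hH

theorem gam_norm {p P₀ : ℕ} (hp : p.Prime) (h2 : 2 < p)
    (hW : P₀ < p → padicNorm p (harmonic ((p - 1) / 2)) ≤ (p : ℚ)⁻¹) (n : ℕ) :
    padicNorm p (gam n) ≤ (p : ℚ) ^ (Nat.log p n + dd P₀ p n) := by
  have := Fact.mk hp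
  have hp1 : (1 : ℚ) ≤ p := by exact_mod_cast hp.one_lt.le
  rcases n with _ | m
  · simp only [gam, padicNorm.zero]
    positivity
  · simp only [gam]
    refine padicNorm.sum_le' (fun k hk => ?_) (by positivity)
    rw [padicNorm.mul]
    have h1 : padicNorm p ((-1 : ℚ) ^ (m - k) * (m.choose k)) ≤ 1 := by
      have : ((-1 : ℚ) ^ (m - k) * (m.choose k)) = (((-1 : ℤ) ^ (m - k) * (m.choose k) : ℤ) : ℚ) := by
        push_cast; rfl
      rw [this]
      exact int_norm_le hp _
    have h3 := gk_norm hp h2 hW (m + 1) (k + 1) (by have := Finset.mem_range.mp hk; omega)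
    calc padicNorm p ((-1 : ℚ) ^ (m - k) * (m.choose k)) * padicNorm p (gk (k + 1))
        ≤ 1 * padicNorm p (gk (k + 1)) :=
          mul_le_mul_of_nonneg_right h1 (padicNorm.nonneg _)
      _ = padicNorm p (gk (k + 1)) := one_mul _
      _ ≤ _ := h3

lemma dd_mono (P₀ p : ℕ) {j n : ℕ} (h : j ≤ n) : dd P₀ p j ≤ dd P₀ p n := by
  unfold dd
  split_ifs with h1 h2
  · exact Nat.log_mono_right (by omega)
  · exfalso
    apply h2
    rcases h1 with h1 | h1
    · exact Or.inl h1
    · exact Or.inr (by omega)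
  · exact Nat.zero_le _
  · exact le_rfl

/-- Coefficients of `(1+X)^d` are integers. -/
lemma onePlus_coeff_norm {p : ℕ} (hp : p.Prime) (d i : ℕ) :
    padicNorm p (PowerSeries.coeff i ((1 + X : ℚ⟦X⟧) ^ d)) ≤ 1 := by
  have h : (1 + X : ℚ⟦X⟧) ^ d = PowerSeries.map (Int.castRingHom ℚ) ((1 + X : ℤ⟦X⟧) ^ d) := by
    rw [map_pow, map_add, map_one, PowerSeries.map_X]
  rw [h, PowerSeries.coeff_map]
  exact int_norm_le hp _

theorem row_norm {p P₀ : ℕ} (hp : p.Prime) (h2 : 2 < p)
    (hW : P₀ < p → padicNorm p (harmonic ((p - 1) / 2)) ≤ (p : ℚ)⁻¹) (M r n : ℕ) :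
    padicNorm p (PowerSeries.coeff n (row M r)) ≤
      (p : ℚ) ^ ((if 12 * M ≤ r then Nat.log p n else 0) +
        (if 22 * M ≤ r then dd P₀ p n else 0)) := by
  have := Fact.mk hp
  have hp1 : (1 : ℚ) ≤ p := by exact_mod_cast hp.one_lt.le
  have key : ∀ j ≤ n, padicNorm p (PowerSeries.coeff j (fs (ty M r))) ≤
      (p : ℚ) ^ ((if 12 * M ≤ r then Nat.log p n else 0) +
        (if 22 * M ≤ r then dd P₀ p n else 0)) := by
    intro j hj
    unfold ty
    by_cases h12 : r < 12 * M
    · have hA : ¬ (12 * M ≤ r) := by omega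
      have hB : ¬ (22 * M ≤ r) := by omega
      simp only [h12, hA, hB, if_true, if_false, fs]
      rw [PowerSeries.coeff_one]
      split_ifs
      · simp
      · simp
    · by_cases h22 : r < 22 * M
      · have hA : (12 * M ≤ r) := by omega
        have hB : ¬ (22 * M ≤ r) := by omega
        simp only [h12, h22, hA, hB, if_true, if_false, fs, one_ne_zero]
        rw [PowerSeries.coeff_mk, add_zero]
        exact (lc_norm hp j).trans (pow_le_pow_right₀ hp1 (Nat.log_mono_right hj))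
      · have hA : (12 * M ≤ r) := by omega
        have hB : (22 * M ≤ r) := by omega
        simp only [h12, h22, hA, hB, if_true, if_false, fs, two_ne_zero]
        rw [if_neg (by norm_num), PowerSeries.coeff_mk]
        refine (gam_norm hp h2 hW j).trans (pow_le_pow_right₀ hp1 ?_)
        have h5 := dd_mono P₀ p hj
        have h6 := Nat.log_mono_right (b := p) hj
        omega
  unfold row
  rw [PowerSeries.coeff_mul]
  refine padicNorm.sum_le' (fun q hq => ?_) (by positivity)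
  rw [padicNorm.mul]
  have hq' := Finset.HasAntidiagonal.mem_antidiagonal.mp hq
  calc padicNorm p (PowerSeries.coeff q.1 ((1 + X : ℚ⟦X⟧) ^ dg M r)) *
        padicNorm p (PowerSeries.coeff q.2 (fs (ty M r)))
      ≤ 1 * padicNorm p (PowerSeries.coeff q.2 (fs (ty M r))) :=
        mul_le_mul_of_nonneg_right (onePlus_coeff_norm hp _ _) (padicNorm.nonneg _)
    _ = _ := one_mul _
    _ ≤ _ := key q.2 (by omega)

end

end Run7.h257
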