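import Mathlib
import Pool.Agent.Run7.h257.Defs

namespace Run7.h257

noncomputable section

lemma den_one_of_val {r : ℚ} (hr : r ≠ 0) (h : ∀ p : ℕ, p.Prime → 0 ≤ padicValRat p r) :
    r.den = 1 := by
  by_contra hne
  have hp : (r.den.minFac).Prime := Nat.minFac_prime hne
  have := Fact.mk hp
  have h1 := h _ hp
  have hdvd : r.den.minFac ∣ r.den := Nat.minFac_dvd _
  have h2 : padicValInt r.den.minFac r.num = 0 := by
    rw [padicValInt.eq_zero_iff]
    right; right
    intro hcon
    have hcop := r.reduced
    have h3 : r.den.minFac ∣ r.num.natAbs := Int.natCast_dvd.mp hcon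
    have h4 : r.den.minFac ∣ Nat.gcd r.num.natAbs r.den := Nat.dvd_gcd h3 hdvd
    rw [hcop] at h4
    exact hp.one_lt.ne' (Nat.dvd_one.mp h4)
  have h5 : 1 ≤ padicValNat r.den.minFac r.den := by
    apply one_le_padicValNat_of_dvd r.den_ne_zero hdvd
  rw [padicValRat_def, h2] at h1
  omega

theorem log_abs_ge {q : ℚ} (hq : q ≠ 0) (S : Finset ℕ) (hS : ∀ p ∈ S, p.Prime)
    (h : ∀ p : ℕ, p.Prime → p ∉ S → 0 ≤ padicValRat p q) :
    ∑ p ∈ S, (padicValRat p q : ℝ) * Real.log p ≤ Real.log |(q : ℝ)| := by
  set P : ℚ := ∏ p ∈ S, (p : ℚ) ^ (padicValRat p q) with hP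
  have hPf : ∀ p ∈ S, (p : ℚ) ^ (padicValRat p q) ≠ 0 := fun p hp =>
    zpow_ne_zero _ (by exact_mod_cast (hS p hp).ne_zero)
  have hP0 : P ≠ 0 := Finset.prod_ne_zero_iff.mpr hPf
  set r : ℚ := q / P with hr
  have hr0 : r ≠ 0 := div_ne_zero hq hP0
  have hvP : ∀ l : ℕ, l.Prime → padicValRat l P = if l ∈ S then padicValRat l q else 0 := by
    intro l hl
    have := Fact.mk hl
    have key : ∀ T : Finset ℕ, (∀ p ∈ T, p.Prime) →
        padicValRat l (∏ p ∈ T, (p : ℚ) ^ (padicValRat p q)) =
          if l ∈ T then padicValRat l q else 0 := by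
      intro T
      induction T using Finset.induction_on with
      | empty => intro _; simp
      | insert a T ha ih =>
        intro hT
        have hap : a.Prime := hT a (Finset.mem_insert_self _ _)
        have hT' : ∀ p ∈ T, p.Prime := fun p hp => hT p (Finset.mem_insert_of_mem hp)
        rw [Finset.prod_insert ha, padicValRat.mul (zpow_ne_zero _ (by exact_mod_cast hap.ne_zero))
          (Finset.prod_ne_zero_iff.mpr (fun p hp => zpow_ne_zero _
            (by exact_mod_cast (hT' p hp).ne_zero))), ih hT', padicValRat.zpow]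
        by_cases hla : l = a
        · subst hla
          rw [padicValRat.self hl.one_lt, if_neg ha, if_pos (Finset.mem_insert_self _ _)]
          ring
        · have h1 : padicValRat l (a : ℚ) = 0 := by
            rw [padicValRat.of_nat]
            rw [padicValNat.eq_zero_of_not_dvd]
            · rfl
            · intro hd
              exact hla ((Nat.prime_dvd_prime_iff_eq hl hap).mp hd)
          rw [h1]
          by_cases hlT : l ∈ T
          · rw [if_pos hlT, if_pos (Finset.mem_insert_of_mem hlT)]; ring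
          · rw [if_neg hlT, if_neg (by
              rw [Finset.mem_insert]; push Not; exact ⟨hla, hlT⟩)]; ring
    exact key S hS
  have hval : ∀ l : ℕ, l.Prime → 0 ≤ padicValRat l r := by
    intro l hl
    have := Fact.mk hl
    rw [hr, padicValRat.div hq hP0, hvP l hl]
    split_ifs with hlS
    · simp
    · rw [sub_zero]; exact h l hl hlS
  have hden := den_one_of_val hr0 hval
  have hrint : (r.num : ℚ) = r := Rat.coe_int_num_of_den_eq_one hden
  have habs : (1 : ℝ) ≤ |(r : ℝ)| := by
    have h1 : (1 : ℤ) ≤ |r.num| := Int.one_le_abs (Rat.num_ne_zero.mpr hr0)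
    have h2 : ((r.num : ℚ) : ℝ) = (r : ℝ) := by rw [hrint]
    rw [← h2]
    have h3 : ((r.num : ℚ) : ℝ) = ((r.num : ℤ) : ℝ) := by push_cast; rfl
    rw [h3]
    exact_mod_cast h1
  have hq' : (q : ℝ) = (r : ℝ) * (P : ℝ) := by
    have h7 : q = r * P := by rw [hr]; field_simp
    exact_mod_cast congrArg (Rat.cast : ℚ → ℝ) h7
  have hPR : (P : ℝ) = ∏ p ∈ S, (p : ℝ) ^ (padicValRat p q) := by
    rw [hP]
    push_cast
    rfl
  have hPpos : 0 < (P : ℝ) := by
    rw [hPR]
    apply Finset.prod_pos
    intro p hp
    apply zpow_pos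
    exact_mod_cast (hS p hp).pos
  have hlogP : Real.log (P : ℝ) = ∑ p ∈ S, (padicValRat p q : ℝ) * Real.log p := by
    rw [hPR, Real.log_prod]
    · apply Finset.sum_congr rfl
      intro p _
      rw [Real.log_zpow]
    · intro p hp
      apply zpow_ne_zero
      exact_mod_cast (hS p hp).ne_zero
  rw [← hlogP, hq', abs_mul, abs_of_pos hPpos, Real.log_mul (by positivity) hPpos.ne']
  have := Real.log_nonneg habs
  linarith

/-- sum of `min(j, min(4M, 10M-j))` over `j < K`. -/
lemma sum_min (M K : ℕ) (h : 6 * M ≤ K) :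
    ∑ j ∈ Finset.range K, (min (j : ℝ) (min (4 * M : ℝ) (10 * M - j))) =
      (16 * (M : ℝ) ^ 2 - 2 * M) + (10 * M * (K - 6 * M) -
        ((K : ℝ) * (K - 1) - 6 * M * (6 * M - 1)) / 2) := by
  induction K, h using Nat.le_induction with
  | base =>
    have e1 : ∀ k, k ≤ 4 * M → ∑ j ∈ Finset.range k,
        (min (j : ℝ) (min (4 * M : ℝ) (10 * M - j))) = (k : ℝ) * (k - 1) / 2 := by
      intro k
      induction k with
      | zero => intro _; simp
      | succ k ih =>
        intro hk
        rw [Finset.sum_range_succ, ih (by omega)]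
        have h1 : (k : ℝ) ≤ 4 * M := by exact_mod_cast (by omega : k ≤ 4 * M)
        have hM : (0 : ℝ) ≤ M := Nat.cast_nonneg _
        rw [min_eq_left (by rw [le_min_iff]; constructor <;> linarith)]
        push_cast
        ring
    have e2 : ∀ k, 4 * M ≤ k → k ≤ 6 * M → ∑ j ∈ Finset.range k,
        (min (j : ℝ) (min (4 * M : ℝ) (10 * M - j))) =
          4 * M * (4 * M - 1) / 2 + 4 * M * (k - 4 * M) := by
      intro k hk
      induction k, hk using Nat.le_induction with
      | base =>
        intro _
        rw [e1 _ le_rfl]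
        push_cast
        ring
      | succ k hk ih =>
        intro hk6
        rw [Finset.sum_range_succ, ih (by omega)]
        have h1 : (4 * M : ℝ) ≤ k := by exact_mod_cast hk
        have h2 : (k : ℝ) ≤ 6 * M := by exact_mod_cast (by omega : k ≤ 6 * M)
        rw [min_eq_left (a := (4 * M : ℝ)) (by linarith), min_eq_right h1]
        push_cast
        ring
    rw [e2 _ (by omega) le_rfl]
    push_cast
    ring
  | succ k hk ih =>
    rw [Finset.sum_range_succ, ih]
    have h1 : (6 * M : ℝ) ≤ k := by exact_mod_cast hk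
    have hM : (0 : ℝ) ≤ M := Nat.cast_nonneg _
    rw [min_eq_right (a := (4 * M : ℝ)) (by linarith), min_eq_right (by linarith)]
    push_cast
    ring

theorem sum_wt (M : ℕ) : ∑ r : Fin (30 * M), wt M r = 68 * (M : ℝ) ^ 2 := by
  have e0 := Fin.sum_univ_eq_sum_range (fun r : ℕ => wt M r) (30 * M)
  rw [e0]
  have hs1 : (30 * M) = 22 * M + 8 * M := by ring
  have hs2 : (22 * M) = 12 * M + 10 * M := by ring
  rw [hs1, Finset.sum_range_add, hs2, Finset.sum_range_add]
  have f1 : ∑ x ∈ Finset.range (12 * M), wt M x = ∑ j ∈ Finset.range (12 * M),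
      (min (j : ℝ) (min (4 * M : ℝ) (10 * M - j))) := by
    apply Finset.sum_congr rfl
    intro j hj
    rw [Finset.mem_range] at hj
    have : dg M j = j := by unfold dg; rw [if_pos hj]
    unfold wt
    rw [this]
  have f2 : ∑ x ∈ Finset.range (10 * M), wt M (12 * M + x) = ∑ j ∈ Finset.range (10 * M),
      (min (j : ℝ) (min (4 * M : ℝ) (10 * M - j))) := by
    apply Finset.sum_congr rfl
    intro j hj
    rw [Finset.mem_range] at hj
    have : dg M (12 * M + j) = j := by
      unfold dg
      rw [if_neg (by omega), if_pos (by omega)]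
      omega
    unfold wt
    rw [this]
  have f3 : ∑ x ∈ Finset.range (8 * M), wt M (12 * M + 10 * M + x) = ∑ j ∈ Finset.range (8 * M),
      (min (j : ℝ) (min (4 * M : ℝ) (10 * M - j))) := by
    apply Finset.sum_congr rfl
    intro j hj
    rw [Finset.mem_range] at hj
    have : dg M (12 * M + 10 * M + j) = j := by
      unfold dg
      rw [if_neg (by omega), if_neg (by omega)]
      omega
    unfold wt
    rw [this]
  rw [f1, f2, f3, sum_min M _ (by omega), sum_min M _ (by omega), sum_min M _ (by omega)]
  push_cast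
  ring

end

end Run7.h257
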