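import Mathlib
import Pool.Agent.Run7.h257.Defs

/-!
Piece E: greedy choice of columns.
-/

namespace Run7.h257

open Submodule Set

section
variable {N : ℕ} (x : Fin N → ℕ → ℚ)

/-- the `k`-th column. -/
def colv (k : ℕ) : Fin N → ℚ := fun r => x r k

/-- pivot indices. -/
def piv : Set ℕ := {k | colv x k ∉ span ℚ (colv x '' Iio k)}

theorem col_mem (k : ℕ) : ∀ j < k, colv x j ∈ span ℚ (colv x '' (piv x ∩ Iio k)) := by
  intro j
  induction j using Nat.strong_induction_on with
  | _ j ih =>
    intro hj
    by_cases hp : j ∈ piv x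
    · exact subset_span ⟨j, ⟨hp, hj⟩, rfl⟩
    · have h1 : colv x j ∈ span ℚ (colv x '' Iio j) := by
        by_contra h; exact hp h
      refine (span_le.2 ?_) h1
      rintro _ ⟨i, hi, rfl⟩
      exact ih i hi (lt_trans hi hj)

theorem indep_piv (S : Finset ℕ) (hS : (S : Set ℕ) ⊆ piv x) :
    LinearIndepOn ℚ (colv x) (S : Set ℕ) := by
  induction S using Finset.induction_on_max with
  | empty => simp
  | insert a s hs ih =>
    rw [Finset.coe_insert] at hS ⊢
    apply LinearIndepOn.insert (ih ((subset_insert _ _).trans hS))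
    intro h
    have ha : a ∈ piv x := hS (mem_insert _ _)
    exact ha (span_mono (image_mono fun i hi => hs i hi) h)

theorem card_le (S : Finset ℕ) (hS : (S : Set ℕ) ⊆ piv x) : S.card ≤ N := by
  have h := indep_piv x S hS
  have h1 := LinearIndependent.fintype_card_le_finrank (R := ℚ) (M := Fin N → ℚ) h
  simpa using h1

theorem piv_finite : (piv x).Finite := by
  by_contra h
  obtain ⟨S, hS, hc⟩ := Set.Infinite.exists_subset_card_eq h (N + 1)
  have := card_le x S hS
  omega

theorem span_all (hx : LinearIndependent ℚ x) : span ℚ (range (colv x)) = ⊤ := by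
  by_contra h
  obtain ⟨f, hf, hf2⟩ := Submodule.exists_le_ker_of_lt_top _ (lt_top_iff_ne_top.2 h)
  apply hf
  have h1 : ∀ v : Fin N → ℚ, f v = ∑ r, f (Pi.single r 1) * v r := by
    intro v
    have h2 : v = ∑ r, v r • (Pi.single r (1 : ℚ) : Fin N → ℚ) := by
      ext i
      simp [Finset.sum_apply, Pi.single_apply]
    conv_lhs => rw [h2]
    rw [map_sum]
    apply Finset.sum_congr rfl
    intro r hr
    rw [map_smul, smul_eq_mul, mul_comm]
  have h3 : ∑ r, f (Pi.single r 1) • x r = 0 := by
    ext k
    have h4 : f (colv x k) = 0 := hf2 (subset_span ⟨k, rfl⟩)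
    rw [h1] at h4
    rw [Finset.sum_apply]
    simpa [colv] using h4
  have h5 := Fintype.linearIndependent_iff.1 hx _ h3
  ext r
  simpa using h5 r

theorem span_piv (hx : LinearIndependent ℚ x) : span ℚ (colv x '' piv x) = ⊤ := by
  rw [eq_top_iff, ← span_all x hx, span_le]
  rintro _ ⟨k, rfl⟩
  exact span_mono (image_mono inter_subset_left) (col_mem x (k + 1) k (Nat.lt_succ_self k))

theorem piv_card (hx : LinearIndependent ℚ x) : (piv_finite x).toFinset.card = N := by
  classical
  apply le_antisymm (card_le x _ (by simp))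
  have h1 := finrank_span_finset_le_card (R := ℚ) ((piv_finite x).toFinset.image (colv x))
  have h2 : (((piv_finite x).toFinset.image (colv x) : Finset (Fin N → ℚ)) : Set (Fin N → ℚ)) =
      colv x '' piv x := by
    rw [Finset.coe_image, Set.Finite.coe_toFinset]
  rw [Set.finrank, h2, span_piv x hx, finrank_top, Module.finrank_fin_fun] at h1
  exact h1.trans Finset.card_image_le

end

/-- `n` enumerates the `k` such that the column `k` is not in the span of the columns `< k`. -/
theorem exists_sel {N : ℕ} (x : Fin N → ℕ → ℚ) (hx : LinearIndependent ℚ x) :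
    ∃ n : Fin N → ℕ, StrictMono n ∧
      (Matrix.of fun r t => x r (n t)).det ≠ 0 ∧
      ∀ (t : Fin N) (k : ℕ), k < n t → ∀ c : Fin N → ℝ,
        (∀ s, s < t → ∑ r, c r * (x r (n s) : ℝ) = 0) → ∑ r, c r * (x r k : ℝ) = 0 := by
  set e := (piv_finite x).toFinset.orderEmbOfFin (piv_card x hx) with he
  have hmem : ∀ t, e t ∈ piv x := by
    intro t
    have := Finset.orderEmbOfFin_mem (piv_finite x).toFinset (piv_card x hx) t
    exact (Set.Finite.mem_toFinset _).1 this
  have hsurj : ∀ j ∈ piv x, ∃ t, e t = j := by
    intro j hj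
    have h1 : j ∈ Set.range e := by
      rw [he, Finset.range_orderEmbOfFin]
      simpa using hj
    exact h1
  refine ⟨e, e.strictMono, ?_, ?_⟩
  · have h1 : LinearIndependent ℚ (fun t : Fin N => colv x (e t)) := by
      have h2 := indep_piv x (piv_finite x).toFinset (by simp)
      have h3 := LinearIndependent.comp (ι := ((piv_finite x).toFinset : Set ℕ)) h2
        (fun t : Fin N => (⟨e t, by simpa using hmem t⟩ :
          (((piv_finite x).toFinset : Finset ℕ) : Set ℕ)))
        (by
          intro s t hst
          have := congrArg Subtype.val hst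
          exact e.injective this)
      exact h3
    have h4 : IsUnit (Matrix.of fun r t => x r (e t)) := by
      rw [← Matrix.linearIndependent_cols_iff_isUnit]
      exact h1
    rw [Matrix.isUnit_iff_isUnit_det] at h4
    exact h4.ne_zero
  · intro t k hk c hc
    have h1 : colv x k ∈ span ℚ (colv x '' (piv x ∩ Iio (e t))) := col_mem x (e t) k hk
    have key : ∀ v ∈ span ℚ (colv x '' (piv x ∩ Iio (e t))), ∑ r, c r * ((v r : ℚ) : ℝ) = 0 := by
      intro v hv
      induction hv using Submodule.span_induction with
      | mem v hv =>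
        obtain ⟨j, ⟨hj1, hj2⟩, rfl⟩ := hv
        obtain ⟨s, rfl⟩ := hsurj j hj1
        exact hc s (e.lt_iff_lt.1 hj2)
      | zero => simp
      | add u v hu hv ihu ihv =>
        have : ∑ r, c r * (((u + v) r : ℚ) : ℝ) =
            ∑ r, c r * ((u r : ℚ) : ℝ) + ∑ r, c r * ((v r : ℚ) : ℝ) := by
          rw [← Finset.sum_add_distrib]
          apply Finset.sum_congr rfl
          intro r _
          rw [Pi.add_apply]
          push_cast
          ring
        rw [this, ihu, ihv, add_zero]
      | smul a v hv ih =>
        have : ∑ r, c r * (((a • v) r : ℚ) : ℝ) = a * ∑ r, c r * ((v r : ℚ) : ℝ) := by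
          rw [Finset.mul_sum]
          apply Finset.sum_congr rfl
          intro r _
          rw [Pi.smul_apply, smul_eq_mul]
          push_cast
          ring
        rw [this, ih, mul_zero]
    exact key _ h1

end Run7.h257
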