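import Mathlib
import Pool.Agent.Run7.h257.Defs

/-!
Piece D (`Two`), part A: the 2-adic identity (from the recurrence for `gam`) and the
valuations of `bet` and `rr`.
-/

namespace Run7.h257

noncomputable section

open PowerSeries

/-- `X (1+X) f'`. -/
def TT (f : ℚ⟦X⟧) : ℚ⟦X⟧ := X * ((1 + X) * derivative ℚ f)

lemma TT_zero (f : ℚ⟦X⟧) : PowerSeries.coeff 0 (TT f) = 0 := by
  unfold TT
  rw [PowerSeries.coeff_zero_X_mul]

lemma TT_const (f : ℚ⟦X⟧) : PowerSeries.constantCoeff (TT f) = 0 := by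
  have := TT_zero f
  rwa [PowerSeries.coeff_zero_eq_constantCoeff_apply] at this

lemma TT_succ (f : ℚ⟦X⟧) (n : ℕ) : PowerSeries.coeff (n + 1) (TT f) =
    (n + 1) * PowerSeries.coeff (n + 1) f + n * PowerSeries.coeff n f := by
  unfold TT
  rw [PowerSeries.coeff_succ_X_mul, add_mul, one_mul, map_add, PowerSeries.coeff_derivative]
  rcases n with _ | m
  · rw [PowerSeries.coeff_zero_X_mul]
    simp
  · rw [PowerSeries.coeff_succ_X_mul, PowerSeries.coeff_derivative]
    push_cast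
    ring

lemma TT_mul (f g : ℚ⟦X⟧) : TT (f * g) = TT f * g + f * TT g := by
  unfold TT
  rw [Derivation.leibniz]
  simp only [smul_eq_mul]
  ring

lemma TT_add (f g : ℚ⟦X⟧) : TT (f + g) = TT f + TT g := by
  unfold TT
  rw [map_add]
  ring

lemma coeff_onePlus_mul_zero (f : ℚ⟦X⟧) :
    PowerSeries.coeff 0 ((1 + X) * f) = PowerSeries.coeff 0 f := by
  rw [add_mul, one_mul, map_add, PowerSeries.coeff_zero_X_mul, add_zero]

lemma coeff_onePlus_mul_succ (f : ℚ⟦X⟧) (n : ℕ) :
    PowerSeries.coeff (n + 1) ((1 + X) * f) =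
      PowerSeries.coeff (n + 1) f + PowerSeries.coeff n f := by
  rw [add_mul, one_mul, map_add, PowerSeries.coeff_succ_X_mul]

/-- uniqueness for `f + 2 T f = g`. -/
lemma TT_unique (f g : ℚ⟦X⟧) (h : f + 2 * TT f = g + 2 * TT g) : f = g := by
  have hs : ∀ n, PowerSeries.coeff n f = PowerSeries.coeff n g := by
    intro n
    induction n with
    | zero =>
      have := congrArg (PowerSeries.coeff 0) h
      simpa [two_mul, TT_const] using this
    | succ n ih =>
      have := congrArg (PowerSeries.coeff (n + 1)) h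
      simp only [two_mul, map_add, TT_succ] at this
      rw [ih] at this
      have h3 : (2 * (n : ℚ) + 3) * (PowerSeries.coeff (n + 1) f - PowerSeries.coeff (n + 1) g)
          = 0 := by linarith
      have h4 : (2 * (n : ℚ) + 3) ≠ 0 := by positivity
      have h5 := (mul_eq_zero.mp h3).resolve_left h4
      linarith
  ext n
  exact hs n

lemma TT_lc : TT (PowerSeries.mk lc) = X := by
  ext n
  rcases n with _ | n
  · rw [TT_zero, PowerSeries.coeff_zero_X]
  · rw [TT_succ, PowerSeries.coeff_mk, PowerSeries.coeff_mk, PowerSeries.coeff_X]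
    unfold lc
    rcases n with _ | n
    · norm_num
    · rw [if_neg (by omega)]
      have h1 : ((n : ℚ) + 1) ≠ 0 := by positivity
      have h2 : ((n : ℚ) + 1 + 1) ≠ 0 := by positivity
      push_cast
      field_simp
      ring

lemma bet_ode : PowerSeries.mk bet + 2 * TT (PowerSeries.mk bet) = 1 + X := by
  ext n
  rcases n with _ | n
  · simp [two_mul, TT_const, bet]
  · simp only [two_mul, map_add, TT_succ, PowerSeries.coeff_mk, PowerSeries.coeff_one,
      PowerSeries.coeff_X]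
    rcases n with _ | n
    · simp [bet]
      norm_num
    · rw [if_neg (by omega), if_neg (by omega)]
      have h1 : (2 * (n : ℚ) + 5) ≠ 0 := by positivity
      have h2 : bet (n + 1 + 1) = -2 * (n + 1) * bet (n + 1) / (2 * n + 5) := rfl
      rw [h2]
      push_cast
      field_simp
      ring

lemma rr_ode : PowerSeries.mk rr + 2 * TT (PowerSeries.mk rr) = -2 * (X * PowerSeries.mk bet) := by
  have hm2 : (-2 : ℚ⟦X⟧) = PowerSeries.C (-2 : ℚ) := by
    rw [map_neg]; rfl
  rw [hm2]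
  ext n
  rw [PowerSeries.coeff_C_mul]
  rcases n with _ | n
  · simp [two_mul, TT_const, rr]
  · simp only [two_mul, map_add, TT_succ, PowerSeries.coeff_mk, PowerSeries.coeff_succ_X_mul]
    rcases n with _ | n
    · simp [bet, rr]
      norm_num
    · have h1 : (2 * (n : ℚ) + 5) ≠ 0 := by positivity
      have h2 : bet (n + 1 + 1) = -2 * (n + 1) * bet (n + 1) / (2 * n + 5) := rfl
      have h3 : harmonic (n + 1) = harmonic n + (n + 1 : ℚ)⁻¹ := by
        rw [harmonic_succ]; push_cast; rfl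
      have h4 : rr (n + 1 + 1) = bet (n + 1 + 1) * (harmonic (n + 1) - 2) := by
        unfold rr
        rw [if_neg (by omega)]
        rfl
      have h5 : rr (n + 1) = bet (n + 1) * (harmonic n - 2) := by
        unfold rr
        rw [if_neg (by omega)]
        rfl
      have h6 : ((n : ℚ) + 1) ≠ 0 := by positivity
      rw [h4, h5, h2, h3]
      push_cast
      field_simp
      ring

lemma gam_ode (h1 : gam 1 = 1 / 3)
    (h : ∀ n : ℕ, 2 ≤ n →
      (2 * n + 1) * gam n + 2 * (n - 1) * gam (n - 1) = (-1) ^ n / (n * (n - 1))) :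
    PowerSeries.mk gam + 2 * TT (PowerSeries.mk gam) = (1 + X) * PowerSeries.mk lc := by
  ext n
  rcases n with _ | n
  · rw [coeff_onePlus_mul_zero]
    simp [two_mul, TT_const, gam, lc]
  · rw [coeff_onePlus_mul_succ]
    simp only [two_mul, map_add, TT_succ, PowerSeries.coeff_mk]
    rcases n with _ | n
    · simp only [zero_add, h1, lc]
      norm_num
    · have h2 := h (n + 1 + 1) (by omega)
      have h3 : n + 1 + 1 - 1 = n + 1 := by omega
      rw [h3] at h2
      push_cast at h2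
      have h5 : ((n : ℚ) + 1) ≠ 0 := by positivity
      have h6 : ((n : ℚ) + 1 + 1) ≠ 0 := by positivity
      have h7 : ((n : ℚ) + 1 + 1 - 1) = n + 1 := by ring
      rw [h7] at h2
      have h8 : lc (n + 1 + 1) + lc (n + 1) = (-1) ^ (n + 1 + 1) / (((n : ℚ) + 1 + 1) * (n + 1)) := by
        unfold lc
        push_cast
        field_simp
        ring
      rw [h8, ← h2]
      push_cast
      ring

theorem G_eq_of (h1 : gam 1 = 1 / 3)
    (h : ∀ n : ℕ, 2 ≤ n →
      (2 * n + 1) * gam n + 2 * (n - 1) * gam (n - 1) = (-1) ^ n / (n * (n - 1))) :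
    (PowerSeries.mk gam : ℚ⟦X⟧) =
      PowerSeries.mk bet * PowerSeries.mk lc + PowerSeries.mk rr := by
  apply TT_unique
  rw [gam_ode h1 h, TT_add, TT_mul, TT_lc]
  linear_combination (-(PowerSeries.mk lc : ℚ⟦X⟧)) * bet_ode - rr_ode

/-! ### valuations -/

lemma norm_factorial (k : ℕ) (hk : 1 ≤ k) :
    padicNorm 2 ((k.factorial : ℕ) : ℚ) ≤ (2 : ℚ) ^ (-(k : ℤ) + (Nat.log 2 k + 1 : ℕ)) := by
  have h2 : Fact (Nat.Prime 2) := ⟨Nat.prime_two⟩
  have h0 : ((k.factorial : ℕ) : ℚ) ≠ 0 := by exact_mod_cast k.factorial_ne_zero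
  rw [padicNorm.eq_zpow_of_nonzero h0, padicValRat.of_nat]
  have h3 := sub_one_mul_padicValNat_factorial (p := 2) k
  rw [show (2 - 1 : ℕ) = 1 from rfl, one_mul] at h3
  have h4 : (Nat.digits 2 k).sum ≤ Nat.log 2 k + 1 := by
    have h5 : (Nat.digits 2 k).length = Nat.log 2 k + 1 := Nat.length_digits 2 k (by norm_num) (by omega)
    rw [← h5]
    have h6 : ∀ x ∈ Nat.digits 2 k, x ≤ 1 := by
      intro x hx
      have := Nat.digits_lt_base (by norm_num : 1 < 2) hx
      omega
    have h7 := List.sum_le_card_nsmul (Nat.digits 2 k) 1 h6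
    simpa using h7
  have h8 : ((2 : ℕ) : ℚ) = 2 := by norm_num
  rw [h8]
  apply zpow_le_zpow_right₀ (by norm_num)
  have h9 : (Nat.digits 2 k).sum ≤ k := Nat.digit_sum_le 2 k
  rw [h3]
  omega

lemma bet_succ_eq (k : ℕ) :
    padicNorm 2 (bet (k + 1)) = (2 : ℚ) ^ (-(k : ℤ)) * padicNorm 2 ((k.factorial : ℕ) : ℚ) := by
  have h2 : Fact (Nat.Prime 2) := ⟨Nat.prime_two⟩
  have odd_norm : ∀ m : ℕ, ¬ 2 ∣ m → padicNorm 2 (m : ℚ) = 1 := by
    intro m hm
    exact (padicNorm.nat_eq_one_iff m).mpr hm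
  have n2 : padicNorm 2 (2 : ℚ) = 2⁻¹ := by
    have := padicNorm.padicNorm_p_of_prime (p := 2)
    exact_mod_cast this
  induction k with
  | zero =>
    have h3 : bet 1 = 1 / ((3 : ℕ) : ℚ) := by simp [bet]
    rw [zero_add, h3, padicNorm.div, odd_norm 3 (by omega)]
    simp
  | succ k ih =>
    have h3 : bet (k + 1 + 1) =
        -(2 * ((k + 1 : ℕ) : ℚ) * bet (k + 1)) / ((2 * k + 5 : ℕ) : ℚ) := by
      have : bet (k + 1 + 1) = -2 * (k + 1) * bet (k + 1) / (2 * k + 5) := rfl
      rw [this]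
      push_cast
      ring
    rw [h3, padicNorm.div, padicNorm.neg, padicNorm.mul, padicNorm.mul, ih,
      odd_norm (2 * k + 5) (by omega), n2, Nat.factorial_succ]
    have h5 : (((k + 1) * k.factorial : ℕ) : ℚ) = ((k + 1 : ℕ) : ℚ) * ((k.factorial : ℕ) : ℚ) := by
      push_cast; ring
    rw [h5, padicNorm.mul, div_one]
    have h6 : (2 : ℚ) ^ (-((k + 1 : ℕ) : ℤ)) = 2⁻¹ * (2 : ℚ) ^ (-(k : ℤ)) := by
      rw [show (-((k + 1 : ℕ) : ℤ)) = -1 + -(k : ℤ) by push_cast; ring, zpow_add₀ (by norm_num)]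
      norm_num
    rw [h6]
    ring

lemma bet_norm' (k : ℕ) :
    padicNorm 2 (bet k) ≤ (2 : ℚ) ^ (-(2 * k : ℤ) + (Nat.log 2 (k + 1) + 4 : ℕ)) := by
  rcases k with _ | k
  · simp only [bet]
    rw [padicNorm.one]
    apply one_le_zpow₀ (by norm_num)
    push_cast
    positivity
  · rw [bet_succ_eq]
    rcases Nat.eq_zero_or_pos k with rfl | hk
    · have h2 : Fact (Nat.Prime 2) := ⟨Nat.prime_two⟩
      simp only [Nat.factorial_zero, Nat.cast_one, padicNorm.one, mul_one, Nat.cast_zero, neg_zero,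
        zpow_zero]
      apply one_le_zpow₀ (by norm_num)
      push_cast
      omega
    · calc (2 : ℚ) ^ (-(k : ℤ)) * padicNorm 2 ((k.factorial : ℕ) : ℚ)
          ≤ (2 : ℚ) ^ (-(k : ℤ)) * (2 : ℚ) ^ (-(k : ℤ) + (Nat.log 2 k + 1 : ℕ)) := by
            gcongr
            exact norm_factorial k hk
        _ = (2 : ℚ) ^ (-(k : ℤ) + (-(k : ℤ) + (Nat.log 2 k + 1 : ℕ))) := by
            rw [← zpow_add₀ (by norm_num)]
        _ ≤ _ := by
            apply zpow_le_zpow_right₀ (by norm_num)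
            have h5 : Nat.log 2 k ≤ Nat.log 2 (k + 1 + 1) := Nat.log_mono_right (by omega)
            push_cast
            omega

/-- `bet k = (-2)^(k-1) (k-1)!/(2k+1)!!`, `v₂ = 2(k-1) - s₂(k-1)`. -/
theorem bet_norm (k : ℕ) : padicNorm 2 (bet k) ≤ (2 : ℚ) ^ (-(2 * k : ℤ) + cc k) := by
  refine (bet_norm' k).trans ?_
  apply zpow_le_zpow_right₀ (by norm_num)
  unfold cc
  push_cast
  omega

lemma harm_norm_two (n : ℕ) : padicNorm 2 (harmonic n - 2) ≤ (2 : ℚ) ^ Nat.log 2 n := by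
  have h2 : Fact (Nat.Prime 2) := ⟨Nat.prime_two⟩
  have hA : padicNorm 2 (harmonic n) ≤ (2 : ℚ) ^ Nat.log 2 n := by
    unfold harmonic
    refine padicNorm.sum_le' (fun i hi => ?_) (by positivity)
    have h0 : ((i + 1 : ℕ) : ℚ) ≠ 0 := by positivity
    rw [padicNorm.eq_zpow_of_nonzero (inv_ne_zero h0), padicValRat.inv, neg_neg,
      padicValRat.of_nat, zpow_natCast]
    have h8 : ((2 : ℕ) : ℚ) = 2 := by norm_num
    rw [h8]
    exact pow_le_pow_right₀ (by norm_num) ((padicValNat_le_nat_log _).trans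
      (Nat.log_mono_right (Finset.mem_range.mp hi)))
  have hB : padicNorm 2 (2 : ℚ) ≤ (2 : ℚ) ^ Nat.log 2 n := by
    have n2 : padicNorm 2 (2 : ℚ) = 2⁻¹ := by
      have := padicNorm.padicNorm_p_of_prime (p := 2)
      exact_mod_cast this
    rw [n2]
    calc (2 : ℚ)⁻¹ ≤ 1 := by norm_num
      _ ≤ _ := one_le_pow₀ (by norm_num)
  refine (padicNorm.sub (p := 2)).trans ?_
  exact max_le hA hB

theorem rr_norm (k : ℕ) : padicNorm 2 (rr k) ≤ (2 : ℚ) ^ (-(2 * k : ℤ) + cc k) := by
  have h2 : Fact (Nat.Prime 2) := ⟨Nat.prime_two⟩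
  unfold rr
  split_ifs with hk
  · rw [padicNorm.zero]
    positivity
  · rw [padicNorm.mul]
    calc padicNorm 2 (bet k) * padicNorm 2 (harmonic (k - 1) - 2)
        ≤ (2 : ℚ) ^ (-(2 * k : ℤ) + (Nat.log 2 (k + 1) + 4 : ℕ)) * (2 : ℚ) ^ Nat.log 2 (k - 1) := by
          refine mul_le_mul (bet_norm' k) (harm_norm_two _) (padicNorm.nonneg _) (by positivity)
      _ = (2 : ℚ) ^ ((-(2 * k : ℤ) + (Nat.log 2 (k + 1) + 4 : ℕ)) + (Nat.log 2 (k - 1) : ℕ)) := by
          rw [zpow_add₀ (by norm_num) _ ((Nat.log 2 (k - 1) : ℕ) : ℤ), zpow_natCast]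
      _ ≤ _ := by
          apply zpow_le_zpow_right₀ (by norm_num)
          unfold cc
          have h5 : Nat.log 2 (k - 1) ≤ Nat.log 2 (k + 1) := Nat.log_mono_right (by omega)
          push_cast
          omega

end

end Run7.h257
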