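import Mathlib
import Pool.Agent.Run7.h257.Defs
import Pool.Agent.Run7.h257.Rec
import Pool.Agent.Run7.h257.TwoA

/-!
Piece D (`Two`): the 2-adic identity and valuations.  (`bet_norm`, `rr_norm` are in `TwoA`.)
-/

namespace Run7.h257

noncomputable section

open PowerSeries

theorem G_eq : (PowerSeries.mk gam : ℚ⟦X⟧) =
    PowerSeries.mk bet * PowerSeries.mk lc + PowerSeries.mk rr :=
  G_eq_of gam_rec_zero gam_rec

end

end Run7.h257
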