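import Pool.Agent.Run7.h257.TwoDetCore
import Pool.Agent.Run7.h257.Odd
import Pool.Agent.Run7.h257.Two

/-!
Piece H (`TwoDet`): the `2`-adic bound for the determinant.
-/

set_option autoImplicit false

namespace Run7.h257

theorem two_bound (ε : ℝ) (hε : 0 < ε) : ∃ C : ℝ, ∀ M : ℕ, 1 ≤ M →
    ∀ n : Fin (30 * M) → ℕ, StrictMono n → (mat M n).det ≠ 0 →
      (142 - ε) * (M : ℝ) ^ 2 - C * M - ∑ t, (Nat.log 2 (n t) : ℝ) ≤
        (padicValRat 2 (mat M n).det : ℝ) :=
  TwoDetCore.two_bound_core G_eq bet_norm rr_norm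
    (fun n => by simpa using lc_norm Nat.prime_two n) ε hε

end Run7.h257
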