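import Mathlib
import Pool.Agent.Run7.h257.Defs
import Pool.Agent.Run7.h257.Num
import Pool.Agent.Run7.h257.Arch
import Pool.Agent.Run7.h257.Harm
import Pool.Agent.Run7.h257.Odd
import Pool.Agent.Run7.h257.TwoDet
import Pool.Agent.Run7.h257.Sel
import Pool.Agent.Run7.h257.GS
import Pool.Agent.Run7.h257.Perm
import Pool.Agent.Run7.h257.Indep
import Pool.Agent.Run7.h257.Pnt
import Pool.Agent.Run7.h257.Prod

namespace Run7.h257

noncomputable section

open PowerSeries Filter Topology Metric

lemma fin_le_of_strictMono {N : ℕ} (n : Fin N → ℕ) (hn : StrictMono n) (t : Fin N) :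
    (t : ℕ) ≤ n t := by
  obtain ⟨t, ht⟩ := t
  induction t with
  | zero => exact Nat.zero_le _
  | succ k ih =>
    have h1 := ih (by omega)
    have h2 : n ⟨k, by omega⟩ < n ⟨k + 1, ht⟩ := hn (by simp)
    simp only at h1 ⊢
    omega

lemma Bw_pos (M r : ℕ) : 0 < Bw M r := Real.exp_pos _

/-- upper bound for the determinant. -/
lemma upper (δ : ℝ) (hδ : 0 < δ) : ∃ C : ℝ, 0 < C ∧ ∀ M : ℕ, 1 ≤ M →
    ∀ n : Fin (30 * M) → ℕ, (mat M n).det ≠ 0 →
      (∀ (t : Fin (30 * M)) (k : ℕ), k < n t → ∀ c : Fin (30 * M) → ℝ,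
        (∀ s, s < t → ∑ r, c r * ((PowerSeries.coeff (n s) (row M r) : ℚ) : ℝ) = 0) →
          ∑ r, c r * ((PowerSeries.coeff k (row M r) : ℚ) : ℝ) = 0) →
      Real.log |((mat M n).det : ℝ)| ≤ 30 * M * Real.log (C * M) + 447 * (M : ℝ) ^ 2 -
        (Real.log eL - δ) * ∑ t, (n t : ℝ) := by
  obtain ⟨C, hC0, hC⟩ := arch_row δ hδ
  refine ⟨C, hC0, ?_⟩
  intro M hM n hdet hgr
  have hMpos : (0 : ℝ) < M := by exact_mod_cast hM
  have heL : 0 < eL := by
    by_contra h
    have h1 := log_eL
    have h2 : eL ≤ 0 := not_lt.mp h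
    have h3 : Real.log eL ≤ 0 := by
      rcases eq_or_lt_of_le h2 with h4 | h4
      · rw [h4]; simp
      · have : 0 < Real.sin al := by
          apply Real.sin_pos_of_pos_of_lt_pi
          · unfold al; positivity
          · unfold al; linarith [Real.pi_pos]
        exfalso
        have h5 : 0 < eL := by unfold eL; positivity
        linarith
    linarith
  set b : Fin (30 * M) → ℝ := fun t =>
    C * M * Real.exp (57 / 2 * M) * (Real.exp δ / eL) ^ n t with hb
  have hbpos : ∀ t, 0 < b t := fun t => by rw [hb]; positivity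
  set A : Matrix (Fin (30 * M)) (Fin (30 * M)) ℝ :=
    Matrix.of fun r t => Bw M r * ((mat M n).map (Rat.cast : ℚ → ℝ)) r t with hA
  have hdetA : A.det = (∏ r : Fin (30 * M), Bw M r) * ((mat M n).det : ℝ) := by
    rw [hA, Matrix.det_mul_column]
    congr 1
    exact (RingHom.map_det (Rat.castHom ℝ) (mat M n)).symm
  have h1 : |A.det| ≤ ∏ t, b t := by
    apply det_le_prod
    intro t c hc hs
    apply (hC M hM c hc (n t) ?_)
    intro k hk
    have := hgr t k hk (fun r => c r * Bw M r) ?_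
    · rw [← this]
      apply Finset.sum_congr rfl
      intro r _
      ring
    · intro s hst
      have := hs s hst
      rw [← this]
      apply Finset.sum_congr rfl
      intro r _
      rw [hA]
      simp only [Matrix.of_apply, Matrix.map_apply, mat]
      ring
  have hdet' : ((mat M n).det : ℝ) ≠ 0 := by exact_mod_cast hdet
  have hBpos : 0 < ∏ r : Fin (30 * M), Bw M r := Finset.prod_pos (fun r _ => Real.exp_pos _)
  rw [hdetA, abs_mul, abs_of_pos hBpos] at h1
  have h2 := Real.log_le_log (by positivity) h1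
  rw [Real.log_mul hBpos.ne' (abs_pos.mpr hdet').ne', Real.log_prod (fun t _ => (hbpos t).ne'),
    Real.log_prod (s := Finset.univ) (f := fun r : Fin (30 * M) => Bw M r)
      (fun r _ => (Bw_pos M r).ne')] at h2
  have h3 : ∑ r : Fin (30 * M), Real.log (Bw M r) = 408 * (M : ℝ) ^ 2 := by
    simp only [Bw, Real.log_exp]
    rw [← Finset.mul_sum, sum_wt]
    ring
  have h4 : ∑ t, Real.log (b t) = 30 * M * Real.log (C * M) + 855 * (M : ℝ) ^ 2 -
      (Real.log eL - δ) * ∑ t, (n t : ℝ) := by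
    have : ∀ t, Real.log (b t) = (Real.log (C * M) + 57 / 2 * M) + (δ - Real.log eL) * n t := by
      intro t
      simp only [hb]
      rw [Real.log_mul (by positivity) (by positivity), Real.log_mul (by positivity) (by positivity),
        Real.log_exp, Real.log_pow, Real.log_div (by positivity) heL.ne', Real.log_exp]
      ring
    rw [Finset.sum_congr rfl (fun t _ => this t), Finset.sum_add_distrib, ← Finset.mul_sum,
      Finset.sum_const, Finset.card_univ, Fintype.card_fin, nsmul_eq_mul]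
    push_cast
    ring
  rw [h3, h4] at h2
  linarith

lemma ddF_mono (P₀ p : ℕ) : Monotone (dd P₀ p) := by
  intro m n hmn
  unfold dd
  split_ifs with h1 h2 h2
  · exact Nat.log_mono_right (by omega)
  · exfalso
    apply h2
    rcases h1 with h | h
    · exact Or.inl h
    · exact Or.inr (by omega)
  · exact Nat.zero_le _
  · exact le_refl _

lemma ddF_eq_zero {P₀ p n : ℕ} (h : 2 * n + 1 < p) : dd P₀ p n = 0 := by
  unfold dd
  split_ifs
  · exact Nat.log_of_lt h
  · rfl

lemma log2F_bound (ε : ℝ) (hε : 0 < ε) : ∃ C : ℝ, ∀ m : ℕ,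
    (Nat.log 2 m : ℝ) * Real.log 2 ≤ ε * m + C := by
  refine ⟨|Real.log ε|, ?_⟩
  intro m
  rcases Nat.eq_zero_or_pos m with h0 | hpos
  · subst h0
    simp
  · have h1 : (2 : ℝ) ^ Nat.log 2 m ≤ m := by exact_mod_cast Nat.pow_log_le_self 2 hpos.ne'
    have h2 := Real.log_le_log (by positivity) h1
    rw [Real.log_pow] at h2
    have hm : (0 : ℝ) < m := by exact_mod_cast hpos
    have h3 : Real.log (ε * m) ≤ ε * m - 1 := Real.log_le_sub_one_of_pos (by positivity)
    rw [Real.log_mul hε.ne' hm.ne'] at h3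
    have h4 := neg_abs_le (Real.log ε)
    linarith

lemma valF_of_norm {p K : ℕ} (hp : p.Prime) {q : ℚ} (hq : q ≠ 0)
    (h : padicNorm p q ≤ (p : ℚ) ^ K) : -(K : ℤ) ≤ padicValRat p q := by
  have := Fact.mk hp
  rw [padicNorm.eq_zpow_of_nonzero hq, ← zpow_natCast] at h
  have h1 : (1 : ℚ) < p := by exact_mod_cast hp.one_lt
  have := (zpow_le_zpow_iff_right₀ h1).mp h
  omega

/-- lower bound for the determinant under the hypothesis. -/
lemma lower (P₀ : ℕ) (hP : Wief P₀) (ε : ℝ) (hε : 0 < ε) : ∃ C : ℝ, ∀ M : ℕ, 1 ≤ M →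
    ∀ n : Fin (30 * M) → ℕ, StrictMono n → (mat M n).det ≠ 0 →
      Real.log 2 * (142 - ε) * (M : ℝ) ^ 2 - C * M - ε * ∑ t, (n t : ℝ) -
        (1 + ε) * ∑ t : Fin (30 * M), (if 12 * M ≤ (t : ℕ) then (n t : ℝ) else 0) -
        (2 / 3 + ε) * ∑ t : Fin (30 * M), (if 22 * M ≤ (t : ℕ) then (n t : ℝ) else 0) ≤
      Real.log |((mat M n).det : ℝ)| := by
  obtain ⟨C1, h1⟩ := psi_bound ε hε
  obtain ⟨C2, h2⟩ := dd_bound P₀ ε hε
  obtain ⟨C3, h3⟩ := two_bound ε hε
  obtain ⟨C4, h4⟩ := log2F_bound ε hε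
  refine ⟨30 * (|C1| + |C2| + |C4|) + Real.log 2 * C3, ?_⟩
  intro M hM n hn hdet
  have hharm : ∀ p : ℕ, p.Prime → 2 < p → P₀ < p →
      padicNorm p (harmonic ((p - 1) / 2)) ≤ (p : ℚ)⁻¹ :=
    fun p hp h2 hPp => harm_of_wief hp h2 (hP p hp hPp)
  have hval : ∀ p : ℕ, p.Prime → 2 < p →
      -(((∑ t : Fin (30 * M), (if 12 * M ≤ (t : ℕ) then Nat.log p (n t) else 0) +
        ∑ t : Fin (30 * M), (if 22 * M ≤ (t : ℕ) then dd P₀ p (n t) else 0) : ℕ) : ℤ)) ≤
        padicValRat p (mat M n).det := by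
    intro p hp hp2
    apply valF_of_norm hp hdet
    apply det_norm_le hp (mat M n) (12 * M) (22 * M) (fun t => Nat.log p (n t))
      (fun t => dd P₀ p (n t))
    · intro s t hst
      exact Nat.log_mono_right (hn.monotone hst)
    · intro s t hst
      exact ddF_mono P₀ p (hn.monotone hst)
    · intro r t
      exact row_norm hp hp2 (hharm p hp hp2) M r (n t)
  have hM0 : 0 < 30 * M := by omega
  set l : Fin (30 * M) := ⟨30 * M - 1, by omega⟩ with hl
  have hnl : ∀ t, n t ≤ n l := fun t => hn.monotone (by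
    rw [hl, Fin.le_def]
    have := t.isLt
    simp only
    omega)
  have hl29 : 29 ≤ n l := by
    have := fin_le_of_strictMono n hn l
    rw [hl] at this ⊢
    simp only at this
    omega
  set S : Finset ℕ := (Finset.range (2 * n l + 2)).filter Nat.Prime with hS
  have hSp : ∀ p ∈ S, p.Prime := fun p hp => (Finset.mem_filter.mp hp).2
  have h2S : 2 ∈ S := by
    rw [hS, Finset.mem_filter, Finset.mem_range]
    exact ⟨by omega, Nat.prime_two⟩
  have hout : ∀ p : ℕ, p.Prime → p ∉ S → 0 ≤ padicValRat p (mat M n).det := by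
    intro p hp hpS
    have hpl : 2 * n l + 2 ≤ p := by
      by_contra hcon
      apply hpS
      rw [hS, Finset.mem_filter, Finset.mem_range]
      exact ⟨by omega, hp⟩
    have := hval p hp (by omega)
    have z1 : ∑ t : Fin (30 * M), (if 12 * M ≤ (t : ℕ) then Nat.log p (n t) else 0) = 0 := by
      apply Finset.sum_eq_zero
      intro t _
      have := hnl t
      rw [Nat.log_of_lt (by omega)]
      simp
    have z2 : ∑ t : Fin (30 * M), (if 22 * M ≤ (t : ℕ) then dd P₀ p (n t) else 0) = 0 := by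
      apply Finset.sum_eq_zero
      intro t _
      have := hnl t
      rw [ddF_eq_zero (by omega)]
      simp
    rw [z1, z2] at this
    simpa using this
  have hprod := log_abs_ge hdet S hSp hout
  rw [← Finset.add_sum_erase S _ h2S] at hprod
  have hlog2 : 0 < Real.log 2 := Real.log_pos (by norm_num)
  -- the 2-part
  have h2part := mul_le_mul_of_nonneg_right (h3 M hM n hn hdet) hlog2.le
  have h2sum : (∑ t, (Nat.log 2 (n t) : ℝ)) * Real.log 2 ≤ ε * ∑ t, (n t : ℝ) + 30 * M * |C4| := by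
    rw [Finset.sum_mul, Finset.mul_sum]
    have : ∀ t ∈ (Finset.univ : Finset (Fin (30 * M))),
        (Nat.log 2 (n t) : ℝ) * Real.log 2 ≤ ε * (n t : ℝ) + |C4| := by
      intro t _
      exact (h4 (n t)).trans (by linarith [le_abs_self C4])
    refine (Finset.sum_le_sum this).trans (le_of_eq ?_)
    rw [Finset.sum_add_distrib, Finset.sum_const, Finset.card_univ, Fintype.card_fin, nsmul_eq_mul]
    push_cast
    ring
  -- the odd part
  have hodd : -(∑ p ∈ S, ((∑ t : Fin (30 * M), (if 12 * M ≤ (t : ℕ) then (Nat.log p (n t) : ℝ) else 0)) +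
        ∑ t : Fin (30 * M), (if 22 * M ≤ (t : ℕ) then (dd P₀ p (n t) : ℝ) else 0)) * Real.log p) ≤
      ∑ p ∈ S.erase 2, (padicValRat p (mat M n).det : ℝ) * Real.log p := by
    have e1 : ∑ p ∈ S.erase 2, ((∑ t : Fin (30 * M),
        (if 12 * M ≤ (t : ℕ) then (Nat.log p (n t) : ℝ) else 0)) +
        ∑ t : Fin (30 * M), (if 22 * M ≤ (t : ℕ) then (dd P₀ p (n t) : ℝ) else 0)) * Real.log p ≤
        ∑ p ∈ S, ((∑ t : Fin (30 * M), (if 12 * M ≤ (t : ℕ) then (Nat.log p (n t) : ℝ) else 0)) +
        ∑ t : Fin (30 * M), (if 22 * M ≤ (t : ℕ) then (dd P₀ p (n t) : ℝ) else 0)) * Real.log p := by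
      apply Finset.sum_le_sum_of_subset_of_nonneg (Finset.erase_subset _ _)
      intro p hp _
      apply mul_nonneg
      · apply add_nonneg <;>
        · apply Finset.sum_nonneg
          intro t _
          split_ifs <;> positivity
      · exact Real.log_nonneg (by exact_mod_cast (hSp p hp).one_lt.le)
    refine le_trans (neg_le_neg e1) ?_
    rw [← Finset.sum_neg_distrib]
    apply Finset.sum_le_sum
    intro p hp
    have hpS := Finset.mem_of_mem_erase hp
    have hpp := hSp p hpS
    have hp2 : 2 < p := lt_of_le_of_ne hpp.two_le (Finset.ne_of_mem_erase hp).symm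
    have hv := hval p hpp hp2
    have hlogp : 0 ≤ Real.log p := Real.log_nonneg (by exact_mod_cast hpp.one_lt.le)
    rw [← neg_mul]
    apply mul_le_mul_of_nonneg_right _ hlogp
    have hv' : (((-(((∑ t : Fin (30 * M), (if 12 * M ≤ (t : ℕ) then Nat.log p (n t) else 0) +
        ∑ t : Fin (30 * M), (if 22 * M ≤ (t : ℕ) then dd P₀ p (n t) else 0) : ℕ) : ℤ)) : ℤ)) : ℝ) ≤
        ((padicValRat p (mat M n).det : ℤ) : ℝ) := by exact_mod_cast hv
    push_cast at hv'
    linarith
  have hA : ∑ p ∈ S, ((∑ t : Fin (30 * M), (if 12 * M ≤ (t : ℕ) then (Nat.log p (n t) : ℝ) else 0)) +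
        ∑ t : Fin (30 * M), (if 22 * M ≤ (t : ℕ) then (dd P₀ p (n t) : ℝ) else 0)) * Real.log p =
      (∑ t : Fin (30 * M), (if 12 * M ≤ (t : ℕ) then
        ∑ p ∈ S, (Nat.log p (n t) : ℝ) * Real.log p else 0)) +
      ∑ t : Fin (30 * M), (if 22 * M ≤ (t : ℕ) then
        ∑ p ∈ S, (dd P₀ p (n t) : ℝ) * Real.log p else 0) := by
    have : ∀ (m : ℕ) (f : ℕ → Fin (30 * M) → ℝ),
        ∑ p ∈ S, (∑ t : Fin (30 * M), (if m ≤ (t : ℕ) then f p t else 0)) * Real.log p =
        ∑ t : Fin (30 * M), (if m ≤ (t : ℕ) then ∑ p ∈ S, f p t * Real.log p else 0) := by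
      intro m f
      simp_rw [Finset.sum_mul]
      rw [Finset.sum_comm]
      apply Finset.sum_congr rfl
      intro t _
      split_ifs with h
      · rfl
      · simp
    simp_rw [add_mul]
    rw [Finset.sum_add_distrib, this (12 * M) (fun p t => (Nat.log p (n t) : ℝ)),
      this (22 * M) (fun p t => (dd P₀ p (n t) : ℝ))]
  have hB1 : ∀ t : Fin (30 * M), ∑ p ∈ S, (Nat.log p (n t) : ℝ) * Real.log p ≤
      (1 + ε) * n t + |C1| := by
    intro t
    have e1 : ∑ p ∈ (Finset.range (n t + 1)).filter Nat.Prime, (Nat.log p (n t) : ℝ) * Real.log p =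
        ∑ p ∈ S, (Nat.log p (n t) : ℝ) * Real.log p := by
      apply Finset.sum_subset
      · intro p hp
        rw [Finset.mem_filter, Finset.mem_range] at hp
        rw [hS, Finset.mem_filter, Finset.mem_range]
        have := hnl t
        exact ⟨by omega, hp.2⟩
      · intro p hpS hp
        have : n t < p := by
          by_contra hcon
          apply hp
          rw [Finset.mem_filter, Finset.mem_range]
          exact ⟨by omega, hSp p hpS⟩
        rw [Nat.log_of_lt this]
        simp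
    rw [← e1]
    exact (h1 (n t)).trans (by linarith [le_abs_self C1])
  have hB2 : ∀ t : Fin (30 * M), ∑ p ∈ S, (dd P₀ p (n t) : ℝ) * Real.log p ≤
      (2 / 3 + ε) * n t + |C2| := by
    intro t
    have e1 : ∑ p ∈ (Finset.range (2 * n t + 2)).filter Nat.Prime,
        (dd P₀ p (n t) : ℝ) * Real.log p = ∑ p ∈ S, (dd P₀ p (n t) : ℝ) * Real.log p := by
      apply Finset.sum_subset
      · intro p hp
        rw [Finset.mem_filter, Finset.mem_range] at hp
        rw [hS, Finset.mem_filter, Finset.mem_range]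
        have := hnl t
        exact ⟨by omega, hp.2⟩
      · intro p hpS hp
        have : 2 * n t + 1 < p := by
          by_contra hcon
          apply hp
          rw [Finset.mem_filter, Finset.mem_range]
          exact ⟨by omega, hSp p hpS⟩
        rw [ddF_eq_zero this]
        simp
    rw [← e1]
    exact (h2 (n t)).trans (by linarith [le_abs_self C2])
  have hgen : ∀ (m : ℕ) (κ C : ℝ) (_ : 0 ≤ C) (f : Fin (30 * M) → ℝ)
      (_ : ∀ t, f t ≤ κ * n t + C),
      ∑ t : Fin (30 * M), (if m ≤ (t : ℕ) then f t else 0) ≤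
        κ * ∑ t : Fin (30 * M), (if m ≤ (t : ℕ) then (n t : ℝ) else 0) + 30 * M * C := by
    intro m κ C hC f hf
    rw [Finset.mul_sum]
    have : ∀ t ∈ (Finset.univ : Finset (Fin (30 * M))), (if m ≤ (t : ℕ) then f t else 0) ≤
        κ * (if m ≤ (t : ℕ) then (n t : ℝ) else 0) + C := by
      intro t _
      split_ifs
      · exact hf t
      · linarith
    refine (Finset.sum_le_sum this).trans (le_of_eq ?_)
    rw [Finset.sum_add_distrib, Finset.sum_const, Finset.card_univ, Fintype.card_fin, nsmul_eq_mul]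
    push_cast
    ring
  have hC1 := hgen (12 * M) (1 + ε) |C1| (abs_nonneg _) _ hB1
  have hC2 := hgen (22 * M) (2 / 3 + ε) |C2| (abs_nonneg _) _ hB2
  rw [hA] at hodd
  have hcast2 : Real.log ((2 : ℕ) : ℝ) = Real.log 2 := by norm_num
  rw [hcast2] at hprod
  have h2p : Real.log 2 * (142 - ε) * (M : ℝ) ^ 2 - Real.log 2 * C3 * M -
      (ε * ∑ t, (n t : ℝ) + 30 * M * |C4|) ≤
      (padicValRat 2 (mat M n).det : ℝ) * Real.log 2 := by
    nlinarith
  nlinarith

lemma sum_ge_range (m N : ℕ) (h : m ≤ N) :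
    ∑ i ∈ Finset.range N, (if m ≤ i then (i : ℝ) else 0) =
      ((N : ℝ) * (N - 1) - m * (m - 1)) / 2 := by
  induction N, h using Nat.le_induction with
  | base =>
    rw [sub_self, zero_div]
    apply Finset.sum_eq_zero
    intro i hi
    rw [Finset.mem_range] at hi
    rw [if_neg (by omega)]
  | succ k hk ih =>
    rw [Finset.sum_range_succ, ih, if_pos hk]
    push_cast
    ring

/-- **Theorem.** It is not the case that all large primes are Wieferich primes. -/
theorem not_wief (P₀ : ℕ) : ¬ Wief P₀ := by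
  intro hP
  obtain ⟨C, hC, hup⟩ := upper (1 / 1000) (by norm_num)
  obtain ⟨C', hlow⟩ := lower P₀ hP (1 / 1000) (by norm_num)
  -- the inequality for every M
  have key : ∀ M : ℕ, 1 ≤ M →
      10 * (M : ℝ) ^ 2 ≤ 30 * M * Real.log (C * M) + (C' + 100) * M := by
    intro M hM
    obtain ⟨n, hn, hdet, hgr⟩ := exists_sel _ (rows_indep M)
    have hdet' : (mat M n).det ≠ 0 := hdet
    have u := hup M hM n hdet' hgr
    have l := hlow M hM n hn hdet'
    have hMr : (1 : ℝ) ≤ M := by exact_mod_cast hM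
    set s0 := ∑ t, (n t : ℝ) with hs0
    set s1 := ∑ t : Fin (30 * M), (if 12 * M ≤ (t : ℕ) then (n t : ℝ) else 0) with hs1
    set s2 := ∑ t : Fin (30 * M), (if 22 * M ≤ (t : ℕ) then (n t : ℝ) else 0) with hs2
    have hlogE := log_eL
    have hs0nn : 0 ≤ s0 := Finset.sum_nonneg (fun t _ => Nat.cast_nonneg _)
    -- weights
    have hw : ∀ t : Fin (30 * M), 0 ≤ (1.948 - (if 12 * M ≤ (t : ℕ) then 1.001 else 0) -
        (if 22 * M ≤ (t : ℕ) then (2 / 3 + 0.001) else 0) : ℝ) := by
      intro t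
      split_ifs <;> norm_num
    have hsum : ∑ t : Fin (30 * M), (1.948 - (if 12 * M ≤ (t : ℕ) then 1.001 else 0) -
        (if 22 * M ≤ (t : ℕ) then (2 / 3 + 0.001) else 0) : ℝ) * ((t : ℕ) : ℝ) ≤
        1.948 * s0 - 1.001 * s1 - (2 / 3 + 0.001) * s2 := by
      rw [hs0, hs1, hs2, Finset.mul_sum, Finset.mul_sum, Finset.mul_sum, ← Finset.sum_sub_distrib,
        ← Finset.sum_sub_distrib]
      apply Finset.sum_le_sum
      intro t _
      have h1 : ((t : ℕ) : ℝ) ≤ n t := by exact_mod_cast fin_le_of_strictMono n hn t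
      refine (mul_le_mul_of_nonneg_left h1 (hw t)).trans (le_of_eq ?_)
      split_ifs <;> ring
    have hexact : ∑ t : Fin (30 * M), (1.948 - (if 12 * M ≤ (t : ℕ) then 1.001 else 0) -
        (if 22 * M ≤ (t : ℕ) then (2 / 3 + 0.001) else 0) : ℝ) * ((t : ℕ) : ℝ) ≥
        359.3 * (M : ℝ) ^ 2 - 50 * M := by
      have e0 := Fin.sum_univ_eq_sum_range (fun i : ℕ => (1.948 - (if 12 * M ≤ i then 1.001 else 0) -
        (if 22 * M ≤ i then (2 / 3 + 0.001) else 0) : ℝ) * (i : ℝ)) (30 * M)
      rw [e0]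
      have e1 := sum_ge_range 0 (30 * M) (by omega)
      have e2 := sum_ge_range (12 * M) (30 * M) (by omega)
      have e3 := sum_ge_range (22 * M) (30 * M) (by omega)
      have e4 : ∑ i ∈ Finset.range (30 * M), (1.948 - (if 12 * M ≤ i then 1.001 else 0) -
        (if 22 * M ≤ i then (2 / 3 + 0.001) else 0) : ℝ) * (i : ℝ) =
        1.948 * ∑ i ∈ Finset.range (30 * M), (if 0 ≤ i then (i : ℝ) else 0) -
        1.001 * ∑ i ∈ Finset.range (30 * M), (if 12 * M ≤ i then (i : ℝ) else 0) -
        (2 / 3 + 0.001) * ∑ i ∈ Finset.range (30 * M), (if 22 * M ≤ i then (i : ℝ) else 0) := by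
        rw [Finset.mul_sum, Finset.mul_sum, Finset.mul_sum, ← Finset.sum_sub_distrib,
          ← Finset.sum_sub_distrib]
        apply Finset.sum_congr rfl
        intro i _
        rw [if_pos (Nat.zero_le i)]
        split_ifs <;> ring
      rw [e4, e1, e2, e3]
      push_cast
      nlinarith
    have hlog2 : 0.6931 < Real.log 2 := lt_trans (by norm_num) Real.log_two_gt_d9
    nlinarith
  -- contradiction for large M
  have hlim : Tendsto (fun M : ℕ => (30 * Real.log (C * M) + (C' + 100)) / (M : ℝ)) atTop (𝓝 0) := by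
    have l1 : Tendsto (fun x : ℝ => Real.log x / x) atTop (𝓝 0) :=
      Real.isLittleO_log_id_atTop.tendsto_div_nhds_zero
    have l2 : Tendsto (fun M : ℕ => C * (M : ℝ)) atTop atTop :=
      tendsto_natCast_atTop_atTop.const_mul_atTop hC
    have l3 := (l1.comp l2).const_mul (30 * C)
    have l4 : Tendsto (fun M : ℕ => (C' + 100) / (M : ℝ)) atTop (𝓝 0) :=
      tendsto_const_div_atTop_nhds_zero_nat _
    have l5 := l3.add l4
    rw [mul_zero, add_zero] at l5
    refine l5.congr ?_
    intro M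
    simp only [Function.comp_apply]
    field_simp
  have hev := hlim.eventually (gt_mem_nhds (show (0 : ℝ) < 10 by norm_num))
  obtain ⟨M, hM1, hM2⟩ := (hev.and (eventually_ge_atTop 1)).exists
  have hMr : (0 : ℝ) < M := by exact_mod_cast hM2
  have h1 := key M hM2
  rw [div_lt_iff₀ hMr] at hM1
  nlinarith

end

end Run7.h257
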