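import Mathlib
import Pool.Agent.Run7.h257.Defs

/-!
Piece H (`TwoDet`), core: the `2`-adic bound for the determinant, with the statements of pieces C
and D as hypotheses.
-/

set_option autoImplicit false

namespace Run7.h257.TwoDetCore

noncomputable section

open PowerSeries

/-! ### expansion of a determinant -/

theorem det_expand {N : ℕ} {K : Type} [Fintype K] (T : Fin N → K → ℚ) (E : K → Fin N → ℚ) :
    (Matrix.of fun r t => ∑ κ, T r κ * E κ t).det =
      ∑ φ : Fin N → K, (∏ r, T r (φ r)) * (Matrix.of fun r => E (φ r)).det := by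
  classical
  have h1 : (Matrix.of fun r t => ∑ κ, T r κ * E κ t).det =
      Matrix.detRowAlternating.toMultilinearMap (fun r => ∑ κ, T r κ • E κ) := by
    show Matrix.det _ = Matrix.det _
    congr 1
    ext r t
    simp [Finset.sum_apply]
  rw [h1, MultilinearMap.map_sum]
  refine Finset.sum_congr rfl fun φ _ => ?_
  rw [MultilinearMap.map_smul_univ, smul_eq_mul]
  rfl

theorem norm_two_nonneg (q : ℚ) : 0 ≤ padicNorm 2 q := padicNorm.nonneg q

theorem norm_prod_le {ι : Type} (s : Finset ι) (f : ι → ℚ) (z : ι → ℤ)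
    (h : ∀ i ∈ s, padicNorm 2 (f i) ≤ (2 : ℚ) ^ (z i)) :
    padicNorm 2 (∏ i ∈ s, f i) ≤ (2 : ℚ) ^ (∑ i ∈ s, z i) := by
  classical
  induction s using Finset.induction_on with
  | empty => simp
  | insert a s ha ih =>
    rw [Finset.prod_insert ha, Finset.sum_insert ha, padicNorm.mul,
      zpow_add₀ (by norm_num : (2 : ℚ) ≠ 0)]
    refine mul_le_mul (h a (Finset.mem_insert_self _ _))
      (ih fun i hi => h i (Finset.mem_insert_of_mem hi)) (norm_two_nonneg _) (by positivity)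

theorem norm_det_le {N : ℕ} (A : Matrix (Fin N) (Fin N) ℚ) (z : Fin N → ℤ)
    (h : ∀ r t, padicNorm 2 (A r t) ≤ (2 : ℚ) ^ (z t)) :
    padicNorm 2 A.det ≤ (2 : ℚ) ^ (∑ t, z t) := by
  classical
  rw [Matrix.det_apply]
  refine padicNorm.sum_le' (fun σ _ => ?_) (by positivity)
  have h1 : padicNorm 2 (Equiv.Perm.sign σ • ∏ i, A (σ i) i) = padicNorm 2 (∏ i, A (σ i) i) := by
    rcases Int.units_eq_one_or (Equiv.Perm.sign σ) with h2 | h2
    · rw [h2, one_smul]
    · rw [h2]
      simp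
  rw [h1]
  exact norm_prod_le _ _ _ fun i _ => h _ _

/-! ### the expansion of the rows -/

/-- the coefficient series of row `r` at `ℓ` (`true`) and `1` (`false`) -/
def Tser (M r : ℕ) (b : Bool) : ℚ⟦X⟧ :=
  if ty M r = 0 then (if b then 0 else (1 + X) ^ (dg M r))
  else if ty M r = 1 then (if b then (1 + X) ^ (dg M r) else 0)
  else (1 + X) ^ (dg M r) * (if b then PowerSeries.mk bet else PowerSeries.mk rr)

/-- the elementary rows -/
def Ee (κ : Bool × ℕ) (t : ℕ) : ℚ :=
  if κ.1 then (if κ.2 ≤ t then lc (t - κ.2) else 0) else (if κ.2 = t then 1 else 0)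

theorem row_eq (hG : (PowerSeries.mk gam : ℚ⟦X⟧) =
    PowerSeries.mk bet * PowerSeries.mk lc + PowerSeries.mk rr) (M r : ℕ) :
    row M r = Tser M r true * PowerSeries.mk lc + Tser M r false := by
  have hty : ty M r = 0 ∨ ty M r = 1 ∨ ty M r = 2 := by
    unfold ty
    split_ifs <;> simp
  unfold row Tser fs
  rcases hty with h | h | h
  · simp [h]
  · simp [h]
  · simp only [h]
    norm_num
    rw [hG]
    ring

theorem coeff_row (hG : (PowerSeries.mk gam : ℚ⟦X⟧) =
    PowerSeries.mk bet * PowerSeries.mk lc + PowerSeries.mk rr) (M r t L : ℕ) (ht : t < L) :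
    coeff t (row M r) = ∑ κ : Bool × Fin L, coeff (κ.2 : ℕ) (Tser M r κ.1) * Ee (κ.1, κ.2) t := by
  rw [row_eq hG, map_add, PowerSeries.coeff_mul, Fintype.sum_prod_type, Fintype.sum_bool]
  congr 1
  · -- the part with the logarithm
    rw [Finset.Nat.sum_antidiagonal_eq_sum_range_succ
      (fun a b => coeff a (Tser M r true) * coeff b (PowerSeries.mk lc)) t]
    have h1 : ∑ x : Fin L, coeff ((true, x).2 : ℕ) (Tser M r true) * Ee (true, (x : ℕ)) t =
        ∑ x ∈ Finset.range L, coeff x (Tser M r true) * Ee (true, x) t :=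
      (Finset.sum_range (fun x => coeff x (Tser M r true) * Ee (true, x) t)).symm
    refine Eq.trans ?_ h1.symm
    have h2 : Finset.range (t + 1) ⊆ Finset.range L := by
      intro x hx
      rw [Finset.mem_range] at hx ⊢
      omega
    rw [← Finset.sum_subset h2]
    · refine Finset.sum_congr rfl fun x hx => ?_
      rw [Finset.mem_range] at hx
      rw [coeff_mk, Ee]
      simp [Nat.lt_succ_iff.1 hx]
    · intro x _ hx
      rw [Finset.mem_range] at hx
      rw [Ee]
      simp only [if_true]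
      rw [if_neg (by omega), mul_zero]
  · have h1 : ∑ x : Fin L, coeff ((false, x).2 : ℕ) (Tser M r false) * Ee (false, (x : ℕ)) t =
        ∑ x ∈ Finset.range L, coeff x (Tser M r false) * Ee (false, x) t :=
      (Finset.sum_range (fun x => coeff x (Tser M r false) * Ee (false, x) t)).symm
    refine Eq.trans ?_ h1.symm
    rw [Finset.sum_eq_single t]
    · simp [Ee]
    · intro x _ hx
      simp [Ee, hx]
    · intro h
      exact absurd (Finset.mem_range.2 ht) h

theorem norm_Ee (hl : ∀ n : ℕ, padicNorm 2 (lc n) ≤ (2 : ℚ) ^ Nat.log 2 n) (κ : Bool × ℕ)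
    (t : ℕ) : padicNorm 2 (Ee κ t) ≤ (2 : ℚ) ^ ((Nat.log 2 t : ℕ) : ℤ) := by
  have h0 : (1 : ℚ) ≤ (2 : ℚ) ^ ((Nat.log 2 t : ℕ) : ℤ) := by
    rw [zpow_natCast]
    exact one_le_pow₀ (by norm_num)
  unfold Ee
  split_ifs with h1 h2 h3
  · refine (hl _).trans ?_
    rw [zpow_natCast]
    exact pow_le_pow_right₀ (by norm_num) (Nat.log_mono_right (Nat.sub_le _ _))
  · rw [padicNorm.zero]
    exact zero_le_one.trans h0
  · rw [padicNorm.one]
    exact h0
  · rw [padicNorm.zero]
    exact zero_le_one.trans h0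

/-! ### the coefficients -/

theorem coeff_one_add (j m : ℕ) : coeff m ((1 + X : ℚ⟦X⟧) ^ j) = (j.choose m : ℚ) := by
  have h : ((1 + X : ℚ⟦X⟧) ^ j) = ((((1 + Polynomial.X : Polynomial ℚ) ^ j) : Polynomial ℚ) : ℚ⟦X⟧) := by
    push_cast
    rfl
  rw [h, Polynomial.coeff_coe, Polynomial.coeff_one_add_X_pow]

theorem norm_choose (j m : ℕ) : padicNorm 2 ((j.choose m : ℕ) : ℚ) ≤ 1 := by
  exact_mod_cast padicNorm.of_int (p := 2) (j.choose m : ℤ)

theorem norm_coeff_mul (f : ℕ → ℚ)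
    (hf : ∀ k : ℕ, padicNorm 2 (f k) ≤ (2 : ℚ) ^ (-(2 * k : ℤ) + cc k)) (j m : ℕ) :
    padicNorm 2 (coeff m ((1 + X : ℚ⟦X⟧) ^ j * PowerSeries.mk f)) ≤
      (2 : ℚ) ^ (-(2 * m : ℤ) + 2 * j + cc m) := by
  rw [PowerSeries.coeff_mul]
  refine padicNorm.sum_le' (fun ab hab => ?_) (by positivity)
  replace hab := Finset.HasAntidiagonal.mem_antidiagonal.1 hab
  rw [coeff_one_add, coeff_mk, padicNorm.mul]
  by_cases h : j < ab.1
  · rw [Nat.choose_eq_zero_of_lt h]
    simp only [Nat.cast_zero, padicNorm.zero, zero_mul]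
    positivity
  · have h1 : padicNorm 2 (((j.choose ab.1 : ℕ) : ℚ)) * padicNorm 2 (f ab.2) ≤
        1 * (2 : ℚ) ^ (-(2 * ab.2 : ℤ) + cc ab.2) :=
      mul_le_mul (norm_choose _ _) (hf _) (norm_two_nonneg _) zero_le_one
    refine h1.trans ?_
    rw [one_mul]
    apply zpow_le_zpow_right₀ (by norm_num)
    have h2 : cc ab.2 ≤ cc m := by
      unfold cc
      have := Nat.log_mono_right (b := 2) (show ab.2 + 1 ≤ m + 1 by omega)
      omega
    push Not at h
    zify at h2 h hab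
    linarith

/-! ### the positions used by a term -/

theorem ty_zero {M r : ℕ} (h : r < 12 * M) : ty M r = 0 := by
  unfold ty
  rw [if_pos h]

theorem ty_one {M r : ℕ} (h : 12 * M ≤ r) (h' : r < 22 * M) : ty M r = 1 := by
  unfold ty
  rw [if_neg (not_lt.2 h), if_pos h']

theorem ty_two {M r : ℕ} (h : 22 * M ≤ r) : ty M r = 2 := by
  unfold ty
  rw [if_neg (by omega), if_neg (by omega)]

theorem dg_zero {M r : ℕ} (h : r < 12 * M) : dg M r = r := by
  unfold dg
  rw [if_pos h]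

theorem dg_one {M r : ℕ} (h : 12 * M ≤ r) (h' : r < 22 * M) : dg M r = r - 12 * M := by
  unfold dg
  rw [if_neg (not_lt.2 h), if_pos h']

theorem dg_two {M r : ℕ} (h : 22 * M ≤ r) : dg M r = r - 22 * M := by
  unfold dg
  rw [if_neg (by omega), if_neg (by omega)]

theorem pos_zero {M r m : ℕ} {b : Bool} (h : r < 12 * M) (hT : coeff m (Tser M r b) ≠ 0) :
    b = false ∧ m ≤ r := by
  unfold Tser at hT
  rw [ty_zero h, dg_zero h] at hT
  cases b with
  | true => simp at hT
  | false =>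
    refine ⟨rfl, ?_⟩
    by_contra hcon
    apply hT
    simp only [if_true, Bool.false_eq_true, if_false]
    rw [coeff_one_add, Nat.choose_eq_zero_of_lt (by omega), Nat.cast_zero]

theorem pos_one {M r m : ℕ} {b : Bool} (h : 12 * M ≤ r) (h' : r < 22 * M)
    (hT : coeff m (Tser M r b) ≠ 0) : b = true ∧ m ≤ r - 12 * M := by
  unfold Tser at hT
  rw [ty_one h h', dg_one h h'] at hT
  cases b with
  | false => simp at hT
  | true =>
    refine ⟨rfl, ?_⟩
    by_contra hcon
    apply hT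
    simp only [one_ne_zero, if_true, if_false]
    rw [coeff_one_add, Nat.choose_eq_zero_of_lt (by omega), Nat.cast_zero]

/-- exponent of the norm bound of an entry -/
def zz (M r m : ℕ) : ℤ :=
  if 22 * M ≤ r then -(2 * m : ℤ) + 2 * ((r - 22 * M : ℕ) : ℤ) + cc m else 0

theorem norm_T (hb : ∀ k : ℕ, padicNorm 2 (bet k) ≤ (2 : ℚ) ^ (-(2 * k : ℤ) + cc k))
    (hr : ∀ k : ℕ, padicNorm 2 (rr k) ≤ (2 : ℚ) ^ (-(2 * k : ℤ) + cc k)) (M r m : ℕ) (b : Bool) :
    padicNorm 2 (coeff m (Tser M r b)) ≤ (2 : ℚ) ^ (zz M r m) := by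
  unfold Tser zz
  by_cases h2 : 22 * M ≤ r
  · rw [if_pos h2, ty_two h2, dg_two h2]
    simp only [OfNat.ofNat_ne_zero, OfNat.ofNat_ne_one, if_false]
    cases b with
    | true => simpa using norm_coeff_mul bet hb (r - 22 * M) m
    | false => simpa using norm_coeff_mul rr hr (r - 22 * M) m
  · rw [if_neg h2, zpow_zero]
    have hty : ty M r = 0 ∨ ty M r = 1 := by
      unfold ty
      split_ifs with h3 h4
      · exact Or.inl rfl
      · exact Or.inr rfl
      · exact absurd (not_lt.1 h4) h2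
    rcases hty with h | h
    · rw [h]
      cases b with
      | true => simp
      | false =>
        simp only [if_true, Bool.false_eq_true, if_false]
        rw [coeff_one_add]
        exact norm_choose _ _
    · rw [h]
      cases b with
      | false => simp
      | true =>
        simp only [one_ne_zero, if_true, if_false]
        rw [coeff_one_add]
        exact norm_choose _ _

theorem sum_desc (a k : ℕ) : 2 * ∑ m ∈ Finset.Ico a (a + k), (a + k - m) = k * (k + 1) := by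
  induction k with
  | zero => simp
  | succ k ih =>
    have h1 : ∑ m ∈ Finset.Ico a (a + (k + 1)), (a + (k + 1) - m) =
        ∑ m ∈ Finset.Ico a (a + k), (a + k - m) + (k + 1) := by
      rw [← add_assoc, Finset.sum_Ico_succ_top (by omega)]
      have h2 : ∀ m ∈ Finset.Ico a (a + k), a + k + 1 - m = (a + k - m) + 1 := by
        intro m hm
        rw [Finset.mem_Ico] at hm
        omega
      rw [Finset.sum_congr rfl h2, Finset.sum_add_distrib, Finset.sum_const, Nat.card_Ico,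
        smul_eq_mul]
      omega
    rw [h1]
    nlinarith

/-- the sum of the positions of the last rows -/
theorem sum_pos (M : ℕ) (b : Fin (30 * M) → Bool) (m : Fin (30 * M) → ℕ)
    (hinj : ∀ r r', b r = b r' → m r = m r' → r = r')
    (h0 : ∀ r : Fin (30 * M), (r : ℕ) < 12 * M → b r = false ∧ m r ≤ r)
    (h1 : ∀ r : Fin (30 * M), 12 * M ≤ (r : ℕ) → (r : ℕ) < 22 * M →
      b r = true ∧ m r ≤ r - 12 * M) :
    206 * M ^ 2 ≤ 2 * ∑ r ∈ Finset.univ.filter (fun r : Fin (30 * M) => 22 * M ≤ (r : ℕ)), m r +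
      8 * M := by
  classical
  set S := Finset.univ.filter (fun r : Fin (30 * M) => 22 * M ≤ (r : ℕ)) with hS
  have hSc : S.card = 8 * M := by
    have e1 : S.card = (Finset.Ico (22 * M) (30 * M)).card := by
      refine Finset.card_bij (fun r _ => (r : ℕ)) ?_ ?_ ?_
      · intro r hr
        rw [Finset.mem_Ico]
        exact ⟨(Finset.mem_filter.1 hr).2, r.2⟩
      · intro r _ r' _ h
        exact Fin.ext h
      · intro k hk
        rw [Finset.mem_Ico] at hk
        exact ⟨⟨k, hk.2⟩, Finset.mem_filter.2 ⟨Finset.mem_univ _, hk.1⟩, rfl⟩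
    rw [e1, Nat.card_Ico]
    omega
  -- the positions of the last rows
  have hf : ∀ r ∈ S, b r = false → 12 * M ≤ m r := by
    intro r hr hb
    by_contra hcon
    push Not at hcon
    have hr2 := (Finset.mem_filter.1 hr).2
    have hlt : ∀ i : Fin (12 * M), (i : ℕ) < 30 * M := fun i => by
      have := i.2
      omega
    let g : Fin (12 * M) → Fin (12 * M) := fun i =>
      ⟨m ⟨i, hlt i⟩, lt_of_le_of_lt (h0 ⟨i, hlt i⟩ i.2).2 i.2⟩
    have hg : Function.Injective g := by
      intro i j hij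
      have e1 : m ⟨i, hlt i⟩ = m ⟨j, hlt j⟩ := congrArg Fin.val hij
      have e2 := hinj _ _ ((h0 ⟨i, hlt i⟩ i.2).1.trans (h0 ⟨j, hlt j⟩ j.2).1.symm) e1
      exact Fin.ext (Fin.mk.inj e2)
    obtain ⟨i, hi⟩ := (Finite.injective_iff_surjective.1 hg) ⟨m r, hcon⟩
    have e1 : m ⟨i, hlt i⟩ = m r := congrArg Fin.val hi
    have e2 := hinj _ _ ((h0 ⟨i, hlt i⟩ i.2).1.trans hb.symm) e1
    have e3 : (i : ℕ) = r := congrArg Fin.val e2
    have := i.2
    omega
  have ht : ∀ r ∈ S, b r = true → 10 * M ≤ m r := by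
    intro r hr hb
    by_contra hcon
    push Not at hcon
    have hr2 := (Finset.mem_filter.1 hr).2
    have hlt : ∀ i : Fin (10 * M), 12 * M + (i : ℕ) < 30 * M := fun i => by
      have := i.2
      omega
    have hh : ∀ i : Fin (10 * M), b ⟨12 * M + i, hlt i⟩ = true ∧ m ⟨12 * M + i, hlt i⟩ ≤ i := by
      intro i
      have := i.2
      have e1 := h1 ⟨12 * M + i, hlt i⟩ (by simp) (by simp only; omega)
      refine ⟨e1.1, e1.2.trans ?_⟩
      simp
    let g : Fin (10 * M) → Fin (10 * M) := fun i =>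
      ⟨m ⟨12 * M + i, hlt i⟩, lt_of_le_of_lt (hh i).2 i.2⟩
    have hg : Function.Injective g := by
      intro i j hij
      have e1 : m ⟨12 * M + i, hlt i⟩ = m ⟨12 * M + j, hlt j⟩ := congrArg Fin.val hij
      have e2 := hinj _ _ ((hh i).1.trans (hh j).1.symm) e1
      have e3 : 12 * M + (i : ℕ) = 12 * M + j := congrArg Fin.val e2
      exact Fin.ext (by omega)
    obtain ⟨i, hi⟩ := (Finite.injective_iff_surjective.1 hg) ⟨m r, hcon⟩
    have e1 : m ⟨12 * M + i, hlt i⟩ = m r := congrArg Fin.val hi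
    have e2 := hinj _ _ ((hh i).1.trans hb.symm) e1
    have e3 : 12 * M + (i : ℕ) = r := congrArg Fin.val e2
    have := i.2
    omega
  -- the sum of the defects
  set A : Finset (Bool × ℕ) := (Finset.Ico (12 * M) (12 * M + 3 * M)).image (fun x => (false, x)) ∪
    (Finset.Ico (10 * M) (10 * M + 5 * M)).image (fun x => (true, x)) with hA
  have hsum : ∑ r ∈ S, (15 * M - m r) ≤ ∑ κ ∈ A, (15 * M - κ.2) := by
    have e1 : ∑ r ∈ S, (15 * M - m r) = ∑ r ∈ S.filter (fun r => m r < 15 * M), (15 * M - m r) := by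
      refine (Finset.sum_filter_of_ne fun r _ h => ?_).symm
      omega
    have e2 : ∑ r ∈ S.filter (fun r => m r < 15 * M), (15 * M - m r) =
        ∑ κ ∈ (S.filter (fun r => m r < 15 * M)).image (fun r => (b r, m r)), (15 * M - κ.2) := by
      rw [Finset.sum_image]
      intro r _ r' _ h
      simp only [Prod.mk.injEq] at h
      exact hinj r r' h.1 h.2
    rw [e1, e2]
    refine Finset.sum_le_sum_of_subset fun κ hκ => ?_
    obtain ⟨r, hr, rfl⟩ := Finset.mem_image.1 hκ
    obtain ⟨hr1, hr2⟩ := Finset.mem_filter.1 hr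
    rw [hA, Finset.mem_union, Finset.mem_image, Finset.mem_image]
    cases hbr : b r with
    | false =>
      left
      exact ⟨m r, Finset.mem_Ico.2 ⟨hf r hr1 hbr, by omega⟩, rfl⟩
    | true =>
      right
      exact ⟨m r, Finset.mem_Ico.2 ⟨ht r hr1 hbr, by omega⟩, rfl⟩
  have hA2 : 2 * ∑ κ ∈ A, (15 * M - κ.2) ≤ 34 * M ^ 2 + 8 * M := by
    have e1 : ∑ κ ∈ A, (15 * M - κ.2) ≤ ∑ x ∈ Finset.Ico (12 * M) (12 * M + 3 * M), (15 * M - x) +
        ∑ x ∈ Finset.Ico (10 * M) (10 * M + 5 * M), (15 * M - x) := by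
      rw [hA]
      have e2 := Finset.sum_union_inter (s₁ := (Finset.Ico (12 * M) (12 * M + 3 * M)).image
        (fun x => (false, x))) (s₂ := (Finset.Ico (10 * M) (10 * M + 5 * M)).image
        (fun x => (true, x))) (f := fun κ : Bool × ℕ => 15 * M - κ.2)
      rw [Finset.sum_image (by intro x _ y _ h; simpa using h),
        Finset.sum_image (by intro x _ y _ h; simpa using h)] at e2
      dsimp only at e2
      omega
    have e2 := sum_desc (12 * M) (3 * M)
    have e3 := sum_desc (10 * M) (5 * M)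
    have e4 : 12 * M + 3 * M = 15 * M := by ring
    have e5 : 10 * M + 5 * M = 15 * M := by ring
    rw [e4] at e2 e1
    rw [e5] at e3 e1
    nlinarith
  have hfin : 8 * M * (15 * M) ≤ ∑ r ∈ S, m r + ∑ r ∈ S, (15 * M - m r) := by
    rw [← Finset.sum_add_distrib, ← hSc, ← smul_eq_mul, ← Finset.sum_const]
    refine Finset.sum_le_sum fun r _ => ?_
    omega
  nlinarith

theorem sum_small (M : ℕ) :
    ∑ r ∈ Finset.univ.filter (fun r : Fin (30 * M) => 22 * M ≤ (r : ℕ)),
      ((r : ℕ) - 22 * M) ≤ 32 * M ^ 2 := by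
  have e1 : ∑ r ∈ Finset.univ.filter (fun r : Fin (30 * M) => 22 * M ≤ (r : ℕ)),
      ((r : ℕ) - 22 * M) = ∑ j ∈ Finset.range (8 * M), j := by
    refine Finset.sum_bij (fun r _ => (r : ℕ) - 22 * M) ?_ ?_ ?_ ?_
    · intro r hr
      have := (Finset.mem_filter.1 hr).2
      have := r.2
      rw [Finset.mem_range]
      omega
    · intro r hr r' hr' h
      have h1 := (Finset.mem_filter.1 hr).2
      have h2 := (Finset.mem_filter.1 hr').2
      exact Fin.ext (by omega)
    · intro j hj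
      rw [Finset.mem_range] at hj
      refine ⟨⟨22 * M + j, by omega⟩, Finset.mem_filter.2 ⟨Finset.mem_univ _, by simp⟩, by simp⟩
    · intro r _
      rfl
  rw [e1]
  have e2 := Finset.sum_range_id_mul_two (8 * M)
  have e3 : 8 * M * (8 * M - 1) ≤ 8 * M * (8 * M) := Nat.mul_le_mul_left _ (Nat.sub_le _ _)
  nlinarith

theorem cc_le (δ : ℝ) (hδ : 0 < δ) : ∃ C : ℝ, 0 ≤ C ∧ ∀ m : ℕ, (cc m : ℝ) ≤ δ * m + C := by
  -- `log₂ (m + 1) ≤ (η (m + 1) - 1 - log η) / log 2`
  set η : ℝ := δ * Real.log 2 / 2 with hη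
  have hl2 : 0 < Real.log 2 := Real.log_pos (by norm_num)
  have hη0 : 0 < η := by positivity
  refine ⟨|2 * ((η - 1 - Real.log η) / Real.log 2) + 4|, abs_nonneg _, fun m => ?_⟩
  have h1 : (Nat.log 2 (m + 1) : ℝ) ≤ Real.log (m + 1) / Real.log 2 := by
    have h2 := Real.natLog_le_logb (m + 1) 2
    unfold Real.logb at h2
    push_cast at h2
    exact h2
  have h2 : Real.log (m + 1) ≤ η * (m + 1) - 1 - Real.log η := by
    have h3 := Real.log_le_sub_one_of_pos (show (0 : ℝ) < η * (m + 1) by positivity)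
    rw [Real.log_mul hη0.ne' (by positivity)] at h3
    linarith
  have h3 : Real.log (m + 1) / Real.log 2 ≤ (η * (m + 1) - 1 - Real.log η) / Real.log 2 :=
    div_le_div_of_nonneg_right h2 hl2.le
  have h4 : (η * (m + 1) - 1 - Real.log η) / Real.log 2 =
      δ / 2 * m + (η - 1 - Real.log η) / Real.log 2 := by
    rw [hη]
    field_simp
    ring
  have h5 := le_abs_self (2 * ((η - 1 - Real.log η) / Real.log 2) + 4)
  unfold cc
  push_cast
  linarith

/-! ### the bound -/

theorem two_bound_core (hG : (PowerSeries.mk gam : ℚ⟦X⟧) =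
      PowerSeries.mk bet * PowerSeries.mk lc + PowerSeries.mk rr)
    (hb : ∀ k : ℕ, padicNorm 2 (bet k) ≤ (2 : ℚ) ^ (-(2 * k : ℤ) + cc k))
    (hr : ∀ k : ℕ, padicNorm 2 (rr k) ≤ (2 : ℚ) ^ (-(2 * k : ℤ) + cc k))
    (hl : ∀ n : ℕ, padicNorm 2 (lc n) ≤ (2 : ℚ) ^ Nat.log 2 n)
    (ε : ℝ) (hε : 0 < ε) : ∃ C : ℝ, ∀ M : ℕ, 1 ≤ M →
    ∀ n : Fin (30 * M) → ℕ, StrictMono n → (mat M n).det ≠ 0 →
      (142 - ε) * (M : ℝ) ^ 2 - C * M - ∑ t, (Nat.log 2 (n t) : ℝ) ≤
        (padicValRat 2 (mat M n).det : ℝ) := by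
  classical
  set δ : ℝ := min (ε / 103) 1 with hδ
  have hδ0 : 0 < δ := lt_min (by positivity) one_pos
  have hδ1 : δ ≤ 1 := min_le_right _ _
  have hδ2 : 103 * δ ≤ ε := by
    have := min_le_left (ε / 103) 1
    rw [← hδ] at this
    linarith
  obtain ⟨C', hC', hcc⟩ := cc_le δ hδ0
  refine ⟨8 + 8 * C', fun M hM n _ hdet => ?_⟩
  have hM0 : (0 : ℝ) < M := by exact_mod_cast hM
  -- the truncation
  obtain ⟨L, hL⟩ : ∃ L : ℕ, ∀ t, n t < L := by
    refine ⟨(Finset.univ.sup n) + 1, fun t => ?_⟩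
    exact Nat.lt_succ_of_le (Finset.le_sup (Finset.mem_univ t))
  set T : Fin (30 * M) → Bool × Fin L → ℚ := fun r κ => coeff (κ.2 : ℕ) (Tser M r κ.1) with hT
  set E : Bool × Fin L → Fin (30 * M) → ℚ := fun κ t => Ee (κ.1, κ.2) (n t) with hE
  have hmat : mat M n = Matrix.of fun r t => ∑ κ, T r κ * E κ t := by
    ext r t
    exact coeff_row hG M r (n t) L (hL t)
  set X : ℝ := (142 - ε) * (M : ℝ) ^ 2 - (8 + 8 * C') * M - ∑ t, (Nat.log 2 (n t) : ℝ) with hX
  have key : padicNorm 2 (mat M n).det ≤ (2 : ℚ) ^ (⌊-X⌋) := by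
    rw [hmat, det_expand]
    refine padicNorm.sum_le' (fun φ _ => ?_) (by positivity)
    by_cases hterm : (∏ r, T r (φ r)) * (Matrix.of fun r => E (φ r)).det = 0
    · rw [hterm, padicNorm.zero]
      positivity
    have hT0 : ∀ r, T r (φ r) ≠ 0 := fun r h =>
      hterm (by rw [Finset.prod_eq_zero (Finset.mem_univ r) h, zero_mul])
    have hE0 : (Matrix.of fun r => E (φ r)).det ≠ 0 := fun h => hterm (by rw [h, mul_zero])
    have hinj : Function.Injective φ := by
      intro r r' h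
      by_contra hne
      exact hE0 (Matrix.det_zero_of_row_eq hne (by
        show E (φ r) = E (φ r')
        rw [h]))
    -- the norm of the term
    have n1 : padicNorm 2 (∏ r, T r (φ r)) ≤ (2 : ℚ) ^ (∑ r : Fin (30 * M), zz M r (φ r).2) :=
      norm_prod_le _ _ _ fun r _ => norm_T hb hr M r _ _
    have n2 : padicNorm 2 (Matrix.of fun r => E (φ r)).det ≤
        (2 : ℚ) ^ (∑ t, ((Nat.log 2 (n t) : ℕ) : ℤ)) :=
      norm_det_le _ _ fun r t => norm_Ee hl _ _
    rw [padicNorm.mul]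
    refine (mul_le_mul n1 n2 (norm_two_nonneg _) (by positivity)).trans ?_
    rw [← zpow_add₀ (by norm_num : (2 : ℚ) ≠ 0)]
    apply zpow_le_zpow_right₀ (by norm_num)
    rw [Int.le_floor]
    -- the positions
    have p1 := sum_pos M (fun r => (φ r).1) (fun r => ((φ r).2 : ℕ))
      (fun r r' h h' => hinj (Prod.ext h (Fin.ext h')))
      (fun r h => pos_zero h (hT0 r)) (fun r h h' => pos_one h h' (hT0 r))
    have p2 := sum_small M
    set S := Finset.univ.filter (fun r : Fin (30 * M) => 22 * M ≤ (r : ℕ)) with hS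
    have hSc : S.card ≤ 8 * M := by
      have e1 : S.card ≤ (Finset.Ico (22 * M) (30 * M)).card := by
        refine Finset.card_le_card_of_injOn (fun r => (r : ℕ)) ?_ ?_
        · intro r hr
          have := (Finset.mem_filter.1 (Finset.mem_coe.1 hr)).2
          exact Finset.mem_coe.2 (Finset.mem_Ico.2 ⟨this, r.2⟩)
        · intro r _ r' _ h
          exact Fin.ext h
      rw [Nat.card_Ico] at e1
      omega
    have s1 : ((∑ r : Fin (30 * M), zz M r (φ r).2 : ℤ) : ℝ) =
        ∑ r ∈ S, (-(2 * (((φ r).2 : ℕ) : ℝ)) + 2 * (((r : ℕ) - 22 * M : ℕ) : ℝ) +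
          (cc ((φ r).2 : ℕ) : ℝ)) := by
      rw [hS, Finset.sum_filter]
      push_cast
      refine Finset.sum_congr rfl fun r _ => ?_
      unfold zz
      split_ifs
      · push_cast
        ring
      · simp
    have s2 : ∑ r ∈ S, (cc ((φ r).2 : ℕ) : ℝ) ≤ δ * ∑ r ∈ S, (((φ r).2 : ℕ) : ℝ) + 8 * M * C' := by
      have e1 : ∑ r ∈ S, (cc ((φ r).2 : ℕ) : ℝ) ≤ ∑ r ∈ S, (δ * (((φ r).2 : ℕ) : ℝ) + C') :=
        Finset.sum_le_sum fun r _ => hcc _
      rw [Finset.sum_add_distrib, ← Finset.mul_sum, Finset.sum_const, nsmul_eq_mul] at e1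
      have e2 : (S.card : ℝ) * C' ≤ 8 * M * C' := by
        apply mul_le_mul_of_nonneg_right _ hC'
        exact_mod_cast hSc
      linarith
    have s3 : 206 * (M : ℝ) ^ 2 ≤ 2 * ∑ r ∈ S, (((φ r).2 : ℕ) : ℝ) + 8 * M := by
      exact_mod_cast p1
    have s4 : ∑ r ∈ S, (((r : ℕ) - 22 * M : ℕ) : ℝ) ≤ 32 * (M : ℝ) ^ 2 := by
      exact_mod_cast p2
    push_cast
    rw [Finset.sum_add_distrib, Finset.sum_add_distrib, Finset.sum_neg_distrib,
      ← Finset.mul_sum, ← Finset.mul_sum] at s1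
    push_cast at s1
    rw [s1, hX]
    set Y := ∑ r ∈ S, (((φ r).2 : ℕ) : ℝ) with hY
    have s5 : (2 - δ) * (103 * (M : ℝ) ^ 2 - 4 * M) ≤ (2 - δ) * Y :=
      mul_le_mul_of_nonneg_left (by linarith) (by linarith)
    have s6 : 103 * δ * (M : ℝ) ^ 2 ≤ ε * (M : ℝ) ^ 2 :=
      mul_le_mul_of_nonneg_right hδ2 (sq_nonneg _)
    have s7 : 0 ≤ δ * (4 * (M : ℝ)) := by positivity
    nlinarith
  -- conclusion
  rw [padicNorm.eq_zpow_of_nonzero hdet] at key
  have k1 := (zpow_le_zpow_iff_right₀ (by norm_num : (1 : ℚ) < 2)).1 (by exact_mod_cast key)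
  have k2 : ((⌊-X⌋ : ℤ) : ℝ) ≤ -X := Int.floor_le _
  have k3 : ((-padicValRat 2 (mat M n).det : ℤ) : ℝ) ≤ ((⌊-X⌋ : ℤ) : ℝ) := by exact_mod_cast k1
  push_cast at k3
  linarith

end

end Run7.h257.TwoDetCore
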