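import Mathlib
import Pool.Agent.Run7.h257.Defs

/-!
Piece R of the proof that infinitely many primes are not Wieferich (base `2`):
from non-Wieferich primes to primitive prime divisors occurring once.
-/

namespace Run7.h257

noncomputable section

/-- Piece R. -/
theorem result_of (h : ∀ P₀, ¬ Wief P₀) :
    {n : ℕ | 6 < n ∧ ∃ p : ℕ, p.Prime ∧ p ∣ 2 ^ n - 1 ∧
      (∀ m : ℕ, 1 ≤ m → m < n → ¬ p ∣ 2 ^ m - 1) ∧ padicValNat p (2 ^ n - 1) = 1}.Infinite := by
  refine Set.infinite_of_forall_exists_gt fun B => ?_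
  have h0 := h (2 ^ (B + 7))
  unfold Wief at h0
  push Not at h0
  obtain ⟨p, hp, hB, hnd⟩ := h0
  haveI : Fact p.Prime := ⟨hp⟩
  have hp2 : 2 < p := by
    have : 2 ^ 7 ≤ 2 ^ (B + 7) := Nat.pow_le_pow_right (by norm_num) (by omega)
    omega
  have key : ∀ m : ℕ, p ∣ 2 ^ m - 1 ↔ (2 : ZMod p) ^ m = 1 := by
    intro m
    have h1 : 1 ≤ 2 ^ m := Nat.one_le_two_pow
    rw [← CharP.cast_eq_zero_iff (ZMod p) p, Nat.cast_sub h1]
    push_cast
    exact sub_eq_zero
  have h20 : (2 : ZMod p) ≠ 0 := by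
    have : ((2 : ℕ) : ZMod p) ≠ 0 := by
      intro hc
      rw [CharP.cast_eq_zero_iff (ZMod p) p] at hc
      have := Nat.le_of_dvd (by norm_num) hc
      omega
    simpa using this
  have hflt : (2 : ZMod p) ^ (p - 1) = 1 := ZMod.pow_card_sub_one_eq_one h20
  have hpos : 0 < orderOf (2 : ZMod p) := by
    apply orderOf_pos_iff.mpr
    exact isOfFinOrder_iff_pow_eq_one.mpr ⟨p - 1, by omega, hflt⟩
  have hdvd : orderOf (2 : ZMod p) ∣ p - 1 := orderOf_dvd_of_pow_eq_one hflt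
  set n := orderOf (2 : ZMod p) with hn
  have hpn : p ∣ 2 ^ n - 1 := (key n).mpr (pow_orderOf_eq_one _)
  have hne : 2 ^ n - 1 ≠ 0 := by
    have : 2 ^ 1 ≤ 2 ^ n := Nat.pow_le_pow_right (by norm_num) hpos
    omega
  have hle : p ≤ 2 ^ n - 1 := Nat.le_of_dvd (by omega) hpn
  have hlt : B + 7 < n := by
    have : 2 ^ (B + 7) < 2 ^ n := by omega
    exact (Nat.pow_lt_pow_iff_right (by norm_num)).mp this
  refine ⟨n, ⟨by omega, p, hp, hpn, ?_, ?_⟩, by omega⟩
  · intro m h1 hm hc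
    have := orderOf_dvd_of_pow_eq_one ((key m).mp hc)
    have := Nat.le_of_dvd (by omega) this
    omega
  · have hv1 : 1 ≤ padicValNat p (2 ^ n - 1) :=
      one_le_padicValNat_of_dvd hne hpn
    have hv2 : padicValNat p (2 ^ n - 1) < 2 := by
      by_contra hc
      push Not at hc
      apply hnd
      have h2 : p ^ 2 ∣ 2 ^ n - 1 := (padicValNat_dvd_iff_le hne).mpr hc
      exact h2.trans (Nat.pow_sub_one_dvd_pow_sub_one 2 hdvd)
    omega

end

end Run7.h257
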